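import Pool.Agent.H36.OX.Defs
import Pool.Agent.H66.NCL.Final

/-!
# Project OX: auxiliary definitions (not used in the statement)
-/

set_option autoImplicit false

namespace Pool.Agent.H36.OX

open Pool.Agent.H66.NCL

universe u

/-- `R` is an Ore extension `A[t; σ, δ]` of `A` (embedded by `i`), `σ` an automorphism: `t a = σ(a) t + δ(a)`
for `a` in `A`, and every element of `R` is in exactly one way a sum of terms `a_k t^k`, `k ≥ 0`. -/
structure IsOre {A R : Type u} [Ring A] [Ring R] (i : A →+* R) (t : R) : Prop where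
  comm : ∃ (σ : A ≃+* A) (δ : A → A), ∀ a, t * i a = i (σ a) * t + i (δ a)
  basis : Function.Bijective fun f : ℕ →₀ A => f.sum fun k a => i a * t ^ k

/-- `R` is a skew Laurent extension `A[t, t⁻¹; σ]` of `A` (embedded by `i`), `σ` an automorphism:
`t a = σ(a) t` for `a` in `A`, and every element of `R` is in exactly one way a sum of terms `a_k t^k`,
`k` in `ℤ`. -/
structure IsLaurent {A R : Type u} [Ring A] [Ring R] (i : A →+* R) (t : Rˣ) : Prop where
  comm : ∃ σ : A ≃+* A, ∀ a, (t : R) * i a = i (σ a) * t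
  basis : Function.Bijective fun f : ℤ →₀ A => f.sum fun k a => i a * ((t ^ k : Rˣ) : R)

/-- `nu` is a multiplicative ultrametric absolute value on the ring `R`, with values `0` and powers of `2`,
taking one of the values `2`, `1/2` -/
structure IsVal {R : Type u} [Ring R] (nu : R → ℝ) : Prop where
  zero : nu 0 = 0
  pow : ∀ x, x ≠ 0 → ∃ k : ℤ, nu x = 2 ^ k
  mul : ∀ x y, nu (x * y) = nu x * nu y
  add_le_max : ∀ x y, nu (x + y) ≤ max (nu x) (nu y)
  gen : ∃ t, nu t = 2 ∨ nu t = 2⁻¹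

/-- The smallest class of groups which contains the trivial group and is closed under
extensions `N₀ ⋊ ⟨z⟩` (`z` of infinite order, `N₀` embedded by `i`) and directed unions. -/
inductive TFSolv : (N : Type u) → [Group N] → Prop
  | triv (N : Type u) [Group N] (h : ∀ x : N, x = 1) : TFSolv N
  | step (N₀ N : Type u) [Group N₀] [Group N] (i : N₀ →* N) (z : N)
      (h : ∃ σ : N₀ ≃* N₀, ∀ x, z * i x = i (σ x) * z)
      (hz : Function.Bijective fun p : N₀ × ℤ => i p.1 * z ^ p.2) (hN : TFSolv N₀) : TFSolv N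
  | union (N : Type u) [Group N] (J : Type u) [Nonempty J] (K : J → Subgroup N)
      (hdir : Directed (· ≤ ·) K) (htop : ∀ x, ∃ j, x ∈ K j) (h : ∀ j, TFSolv (K j)) : TFSolv N

/-- all groups of automorphisms of submodules of free left `A`-modules of finite rank are exact -/
def PM (A : Type u) [Ring A] : Prop :=
  ∀ (N : ℕ) (W : Type u) [AddCommGroup W] [Module A W] (f : W →ₗ[A] (Fin N → A)),
    Function.Injective f → ∀ (H : Type u) [Group H] (τ : H →* (W ≃ₗ[A] W)), Function.Injective τ →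
      CE.{u, u} H

/-- discrete ultrametric absolute value -/
structure IsDisc {D : Type u} [DivisionRing D] (nv : D → ℝ) : Prop extends IsUltra nv where
  disc : ∃ ϖ : D, 0 < nv ϖ ∧ nv ϖ < 1 ∧ ∀ x, x ≠ 0 → ∃ k : ℤ, nv x = nv ϖ ^ k

/-- `M` is a lattice in the space `D^r` of row vectors, for the absolute value `nv` -/
structure IsLat {D : Type u} [DivisionRing D] (nv : D → ℝ) {r : ℕ} (M : AddSubgroup (Fin r → D)) :
    Prop where
  smul : ∀ x : D, nv x ≤ 1 → ∀ m ∈ M, x • m ∈ M
  bdd : ∃ C : ℝ, ∀ m ∈ M, ∀ i, nv (m i) ≤ C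
  ball : ∃ c : ℝ, 0 < c ∧ ∀ m : Fin r → D, (∀ i, nv (m i) ≤ c) → m ∈ M

/-- the stabilizer of `M`; `H` acts on row vectors by `h m = m ρ(h)⁻¹` -/
def stabL {D : Type u} [DivisionRing D] {r : ℕ} {H : Type u} [Group H]
    (ρ : H →* (Matrix (Fin r) (Fin r) D)ˣ) (M : AddSubgroup (Fin r → D)) : Subgroup H where
  carrier := {h | ∀ m, Matrix.vecMul m (ρ h).val ∈ M ↔ m ∈ M}
  one_mem' := by
    intro m
    rw [map_one, Units.val_one, Matrix.vecMul_one]
  mul_mem' := by
    intro a b ha hb m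
    rw [map_mul, Units.val_mul, ← Matrix.vecMul_vecMul]
    exact (hb _).trans (ha m)
  inv_mem' := by
    intro a ha m
    have h1 := ha (Matrix.vecMul m (ρ a⁻¹).val)
    rw [Matrix.vecMul_vecMul, ← Units.val_mul, ← map_mul, inv_mul_cancel, map_one, Units.val_one,
      Matrix.vecMul_one] at h1
    exact h1.symm

/-- `R` is `A`-proper for the values `nu₁`, `nu₂`: they are at most `1` on `A`, and the bounded sets are
contained in finitely generated free left `A`-modules -/
structure IsProper {A R : Type u} [Ring A] [Ring R] (i : A →+* R) (nu₁ nu₂ : R → ℝ) : Prop where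
  le₁ : ∀ a, nu₁ (i a) ≤ 1
  le₂ : ∀ a, nu₂ (i a) ≤ 1
  bdd : ∀ C : ℝ, ∃ (m : ℕ) (t : Fin m → R),
    (∀ f : Fin m → A, ∑ k, i (f k) * t k = 0 → f = 0) ∧
    ∀ x : R, nu₁ x ≤ C → nu₂ x ≤ C → ∃ f : Fin m → A, x = ∑ k, i (f k) * t k

end Pool.Agent.H36.OX
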