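import Pool.Agent.H36.OX.Base

/-!
# Project OX: extensions with torsion-free abelian quotient (module ExtG)

`f : N → M` additive (`f (x y) = f x + f y`) and surjective, with kernel `K`, `M` a torsion-free abelian group. For a
subgroup `U` of `M` let `L U` be its preimage. `N` is the directed union of the `L U`, `U` finitely generated; such a `U`
is free, with basis `v 0, …, v (m - 1)`, and `L (⟨v 0, …, v (m - 1)⟩)` is in the class by induction on `m`.
-/

set_option autoImplicit false

namespace Pool.Agent.H36.OX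

universe u

section
variable {N : Type u} [Group N] {M : Type u} [AddCommGroup M]

/-- the preimage of `U` -/
private def exL (f : N →* Multiplicative M) (U : Submodule ℤ M) : Subgroup N where
  carrier := {x | (f x).toAdd ∈ U}
  one_mem' := by
    show (f 1).toAdd ∈ U
    rw [map_one]
    exact U.zero_mem
  mul_mem' := by
    intro a b ha hb
    show (f (a * b)).toAdd ∈ U
    rw [map_mul]
    exact U.add_mem ha hb
  inv_mem' := by
    intro a ha
    show (f a⁻¹).toAdd ∈ U
    rw [map_inv]
    exact U.neg_mem ha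

private theorem mem_exL {f : N →* Multiplicative M} {U : Submodule ℤ M} {x : N} :
    x ∈ exL f U ↔ (f x).toAdd ∈ U := Iff.rfl

private theorem exL_conj (f : N →* Multiplicative M) (U : Submodule ℤ M) (z x : N) (hx : x ∈ exL f U) :
    z * x * z⁻¹ ∈ exL f U := by
  have h : f (z * x * z⁻¹) = f x := by
    rw [map_mul, map_mul, map_inv, mul_comm (f z), mul_assoc, mul_inv_cancel, mul_one]
  rw [mem_exL, h]
  exact hx

private theorem exL_step (f : N →* Multiplicative M) (U' U : Submodule ℤ M) (hle : U' ≤ U) (z : N)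
    (hz : z ∈ exL f U) (hind : ∀ k : ℤ, k • (f z).toAdd ∈ U' → k = 0)
    (hsup : ∀ x ∈ U, ∃ k : ℤ, x - k • (f z).toAdd ∈ U') (h : TFSolv (exL f U')) :
    TFSolv (exL f U) := by
  have hz' : ∀ k : ℤ, (f (z ^ k)).toAdd = k • (f z).toAdd := by
    intro k
    rw [map_zpow]
    rfl
  let σ : exL f U' ≃* exL f U' :=
    { toFun := fun x => ⟨z * x * z⁻¹, exL_conj f U' z x x.2⟩
      invFun := fun x => ⟨z⁻¹ * x * z, by
        have := exL_conj f U' z⁻¹ x x.2
        rwa [inv_inv] at this⟩
      left_inv := fun x => Subtype.ext (by simp [mul_assoc])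
      right_inv := fun x => Subtype.ext (by simp [mul_assoc])
      map_mul' := fun x y => Subtype.ext (by simp [mul_assoc]) }
  have hle' : exL f U' ≤ exL f U := fun x hx => hle hx
  refine TFSolv.step (exL f U') (exL f U) (Subgroup.inclusion hle') ⟨z, hz⟩ ⟨σ, ?_⟩ ⟨?_, ?_⟩ h
  · intro x
    apply Subtype.ext
    show z * (x : N) = z * x * z⁻¹ * z
    rw [inv_mul_cancel_right]
  · rintro ⟨a, k⟩ ⟨b, l⟩ hab
    have h1 : (a : N) * z ^ k = b * z ^ l := by
      have := congrArg Subtype.val hab
      simpa using this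
    have h2 : (f a).toAdd + k • (f z).toAdd = (f b).toAdd + l • (f z).toAdd := by
      have h3 := congrArg (fun x => (f x).toAdd) h1
      simp only [map_mul, toAdd_mul] at h3
      rw [hz', hz'] at h3
      exact h3
    have h3 : k - l = 0 := by
      apply hind
      have h4 : (k - l) • (f z).toAdd = (f b).toAdd - (f a).toAdd := by
        rw [sub_smul]
        rw [eq_sub_iff_add_eq]
        have : (k • (f z).toAdd - l • (f z).toAdd) + (f a).toAdd
            = ((f a).toAdd + k • (f z).toAdd) - l • (f z).toAdd := by abel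
        rw [this, h2]
        abel
      rw [h4]
      exact U'.sub_mem b.2 a.2
    have h4 : k = l := by omega
    subst h4
    have h5 : (a : N) = b := mul_right_cancel h1
    exact Prod.ext (Subtype.ext h5) rfl
  · rintro ⟨x, hx⟩
    obtain ⟨k, hk⟩ := hsup _ hx
    refine ⟨(⟨x * z ^ (-k), ?_⟩, k), ?_⟩
    · rw [mem_exL, map_mul, toAdd_mul, hz', neg_smul, ← sub_eq_add_neg]
      exact hk
    · apply Subtype.ext
      simp

private theorem exL_span (f : N →* Multiplicative M) (hf : Function.Surjective f)
    (h : TFSolv (exL f ⊥)) : ∀ (m : ℕ) (v : Fin m → M), LinearIndependent ℤ v →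
      TFSolv (exL f (Submodule.span ℤ (Set.range v))) := by
  intro m
  induction m with
  | zero =>
    intro v _
    have h1 : Submodule.span ℤ (Set.range v) = ⊥ := by
      rw [Set.range_eq_empty, Submodule.span_empty]
    rw [h1]
    exact h
  | succ m ih =>
    intro v hv
    obtain ⟨z, hz⟩ := hf (Multiplicative.ofAdd (v 0))
    have hz' : (f z).toAdd = v 0 := by rw [hz]; rfl
    have hlin := Fintype.linearIndependent_iff.1 hv
    refine exL_step f (Submodule.span ℤ (Set.range fun i : Fin m => v i.succ)) _ ?_ z ?_ ?_ ?_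
      (ih _ (hv.comp _ (Fin.succ_injective m)))
    · apply Submodule.span_mono
      rintro _ ⟨i, rfl⟩
      exact ⟨i.succ, rfl⟩
    · rw [mem_exL, hz']
      exact Submodule.subset_span ⟨0, rfl⟩
    · intro k hk
      rw [hz'] at hk
      obtain ⟨c, hc⟩ := (Submodule.mem_span_range_iff_exists_fun ℤ).1 hk
      have h1 := hlin (Fin.cons (-k) c) (by
        rw [Fin.sum_univ_succ]
        simp only [Fin.cons_zero, Fin.cons_succ]
        rw [hc, neg_smul, neg_add_cancel]) 0
      simpa using h1
    · intro x hx
      obtain ⟨c, hc⟩ := (Submodule.mem_span_range_iff_exists_fun ℤ).1 hx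
      refine ⟨c 0, ?_⟩
      rw [hz', ← hc, Fin.sum_univ_succ, add_sub_cancel_left]
      exact Submodule.sum_mem _ fun i _ =>
        Submodule.smul_mem _ _ (Submodule.subset_span ⟨i, rfl⟩)

end

theorem TFSolv.ext {N : Type u} [Group N] (K : Subgroup N) (hn : K.Normal)
    (hc : ∀ x y : N, x * y * x⁻¹ * y⁻¹ ∈ K) (ht : ∀ (x : N) (n : ℕ), n ≠ 0 → x ^ n ∈ K → x ∈ K)
    (h : TFSolv K) : TFSolv N := by
  classical
  let _ : CommGroup (N ⧸ K) :=
    { (inferInstance : Group (N ⧸ K)) with
      mul_comm := by
        intro a b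
        induction a using QuotientGroup.induction_on with
        | H x =>
          induction b using QuotientGroup.induction_on with
          | H y =>
            rw [← QuotientGroup.mk_mul, ← QuotientGroup.mk_mul, eq_comm, QuotientGroup.eq]
            have h1 := hc x⁻¹ y⁻¹
            simpa [mul_assoc] using h1 }
  let M := Additive (N ⧸ K)
  let f : N →* Multiplicative M :=
    { toFun := fun x => Multiplicative.ofAdd (Additive.ofMul (x : N ⧸ K))
      map_one' := rfl
      map_mul' := fun _ _ => rfl }
  have hf0 : ∀ x, (f x).toAdd = 0 ↔ x ∈ K := by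
    intro x
    exact QuotientGroup.eq_one_iff x
  have hfs : Function.Surjective f := by
    intro y
    obtain ⟨x, hx⟩ := QuotientGroup.mk_surjective (s := K) (Additive.toMul (Multiplicative.toAdd y))
    exact ⟨x, congrArg (fun t => Multiplicative.ofAdd (Additive.ofMul t)) hx⟩
  have htf : Module.IsTorsionFree ℤ M := by
    rw [Module.isTorsionFree_iff_smul_eq_zero]
    intro k y hy
    obtain ⟨x, hx⟩ := hfs (Multiplicative.ofAdd y)
    have hxy : (f x).toAdd = y := by rw [hx]; rfl
    by_cases hk : k = 0
    · exact Or.inl hk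
    right
    rw [← hxy, hf0]
    have h1 : (f (x ^ k.natAbs)).toAdd = 0 := by
      have h2 : (f (x ^ k.natAbs)).toAdd = k.natAbs • y := by
        rw [map_pow, toAdd_pow, hxy]
      rw [h2]
      rcases Int.natAbs_eq k with h3 | h3
      · rw [h3] at hy
        rwa [natCast_zsmul] at hy
      · rw [h3, neg_smul, neg_eq_zero, natCast_zsmul] at hy
        exact hy
    exact ht x k.natAbs (by omega) ((hf0 _).1 h1)
  have hK : exL f ⊥ = K := by
    ext x
    rw [mem_exL, Submodule.mem_bot]
    exact hf0 x
  have h0 : TFSolv (exL f ⊥) := by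
    rw [hK]
    exact h
  refine TFSolv.union N {U : Submodule ℤ M // U.FG} (fun U => exL f U.1) ?_ ?_ ?_
  · intro U V
    exact ⟨⟨U.1 ⊔ V.1, U.2.sup V.2⟩, fun x hx => (le_sup_left : U.1 ≤ U.1 ⊔ V.1) hx,
      fun x hx => (le_sup_right : V.1 ≤ U.1 ⊔ V.1) hx⟩
  · intro x
    exact ⟨⟨Submodule.span ℤ {(f x).toAdd}, Submodule.fg_span_singleton _⟩,
      Submodule.mem_span_singleton_self _⟩
  · rintro ⟨U, hU⟩
    have : Module.Finite ℤ U := Module.Finite.iff_fg.2 hU
    let b := Module.finBasis ℤ U
    have h1 : LinearIndependent ℤ fun i => (b i : M) :=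
      b.linearIndependent.map' U.subtype (Submodule.ker_subtype U)
    have h2 : Submodule.span ℤ (Set.range fun i => (b i : M)) = U := by
      have h3 : (Set.range fun i => (b i : M)) = U.subtype '' Set.range b := by
        rw [← Set.range_comp]
        rfl
      rw [h3, ← Submodule.map_span, b.span_eq, Submodule.map_top, Submodule.range_subtype]
    have h3 := exL_span f hfs h0 _ _ h1
    rw [h2] at h3
    exact h3

theorem TFSolv.comm (N : Type u) [Group N] (h : ∀ x y : N, x * y = y * x)
    (htf : ∀ (x : N) (n : ℕ), n ≠ 0 → x ^ n = 1 → x = 1) : TFSolv N := by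
  refine TFSolv.ext (⊥ : Subgroup N) inferInstance (fun x y => ?_) (fun x n hn hx => ?_)
    (TFSolv.triv _ fun x => Subtype.ext (Subgroup.mem_bot.1 x.2))
  · rw [Subgroup.mem_bot, h x y, mul_inv_cancel_right, mul_inv_cancel]
  · rw [Subgroup.mem_bot] at hx ⊢
    exact htf x n hn hx

theorem SolvTF.tfSolv {N : Type u} [Group N] (h : SolvTF N) : TFSolv N := by
  induction h with
  | triv N h => exact TFSolv.triv N h
  | ext N K hn hc ht _ ih => exact TFSolv.ext K hn hc ht ih
  | union N J K hdir htop _ ih => exact TFSolv.union N J K hdir htop ih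

end Pool.Agent.H36.OX
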