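import Pool.Agent.H36.OX.ExtG

/-!
# Project OX: free monoids in groups with a series (module Wr)
-/

set_option autoImplicit false

namespace Pool.Agent.H36.OX

universe u

private theorem TFSolv.of_equiv' {N : Type u} [Group N] (hN : TFSolv N) :
    ∀ {M : Type u} [Group M] (_ : N ≃* M), TFSolv M := by
  induction hN with
  | triv N h =>
    intro M _ e
    refine TFSolv.triv M fun x => ?_
    apply e.symm.injective
    rw [map_one]
    exact h _
  | step N₀ N i z h hz hN0 _ =>
    intro M _ e
    obtain ⟨σ, hσ⟩ := h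
    refine TFSolv.step N₀ M (e.toMonoidHom.comp i) (e z) ⟨σ, ?_⟩ ?_ hN0
    · intro x
      show e z * e (i x) = e (i (σ x)) * e z
      rw [← map_mul, ← map_mul, hσ]
    · have : (fun p : N₀ × ℤ => (e.toMonoidHom.comp i) p.1 * e z ^ p.2) =
          e ∘ fun p : N₀ × ℤ => i p.1 * z ^ p.2 := by
        funext p
        show e (i p.1) * e z ^ p.2 = e (i p.1 * z ^ p.2)
        rw [map_mul, map_zpow]
      rw [this]
      exact e.bijective.comp hz
  | union N J K hdir htop _ ih =>
    intro M _ e
    refine TFSolv.union M J (fun j => (K j).map e.toMonoidHom) ?_ ?_ ?_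
    · intro a b
      obtain ⟨c, h1, h2⟩ := hdir a b
      exact ⟨c, Subgroup.map_mono h1, Subgroup.map_mono h2⟩
    · intro x
      obtain ⟨j, hj⟩ := htop (e.symm x)
      exact ⟨j, ⟨e.symm x, hj, e.apply_symm_apply x⟩⟩
    · intro j
      exact ih j ((K j).equivMapOfInjective e.toMonoidHom e.injective)

/-- product with an abelian torsion-free group -/
private theorem TFSolv.prod_comm' {N : Type u} [Group N] (hN : TFSolv N) (B : Type u) [Group B]
    (hB : ∀ x y : B, x * y = y * x) (htf : ∀ (x : B) (n : ℕ), n ≠ 0 → x ^ n = 1 → x = 1) :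
    TFSolv (N × B) := by
  induction hN with
  | triv N h =>
    refine TFSolv.comm _ (fun x y => Prod.ext ((h _).trans (h _).symm) (hB _ _)) ?_
    intro x n hn hx
    exact Prod.ext (h _) (htf x.2 n hn (congrArg Prod.snd hx))
  | step N₀ N i z h hz _ ih =>
    obtain ⟨σ, hσ⟩ := h
    refine TFSolv.step (N₀ × B) (N × B) (i.prodMap (MonoidHom.id B)) (z, 1)
      ⟨σ.prodCongr (MulEquiv.refl B), ?_⟩ ?_ ih
    · rintro ⟨x, b⟩
      refine Prod.ext (hσ x) ?_
      show 1 * b = b * 1
      rw [one_mul, mul_one]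
    · have hf : ∀ (x : N₀) (b : B) (k : ℤ),
          (i.prodMap (MonoidHom.id B)) (x, b) * ((z, 1) : N × B) ^ k = (i x * z ^ k, b) := by
        intro x b k
        refine Prod.ext rfl ?_
        show b * (1 : B) ^ k = b
        rw [one_zpow, mul_one]
      constructor
      · rintro ⟨⟨x, b⟩, k⟩ ⟨⟨x', b'⟩, k'⟩ he
        simp only [hf] at he
        obtain ⟨h1, h2⟩ := Prod.mk.inj he
        have h3 := hz.1 (a₁ := (x, k)) (a₂ := (x', k')) h1
        obtain ⟨h4, h5⟩ := Prod.mk.inj h3
        subst h2 h4 h5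
        rfl
      · rintro ⟨y, b⟩
        obtain ⟨⟨x, k⟩, hx⟩ := hz.2 y
        refine ⟨⟨⟨x, b⟩, k⟩, ?_⟩
        simp only [hf]
        exact Prod.ext hx rfl
  | union N J K hdir htop _ ih =>
    refine TFSolv.union (N × B) J (fun j => (K j).prod ⊤) ?_ ?_ ?_
    · intro a b
      obtain ⟨c, h1, h2⟩ := hdir a b
      exact ⟨c, Subgroup.prod_mono h1 le_rfl, Subgroup.prod_mono h2 le_rfl⟩
    · rintro ⟨x, b⟩
      obtain ⟨j, hj⟩ := htop x
      exact ⟨j, ⟨hj, trivial⟩⟩
    · intro j
      exact (ih j).of_equiv' (((MulEquiv.refl (K j)).prodCongr Subgroup.topEquiv.symm).trans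
        (Subgroup.prodEquiv (K j) ⊤).symm)

/-- functions from `ℤ` to the free abelian group on `T`, extended by the shift -/
private structure Wr (T : Type u) where
  /-- base -/
  f : ℤ → (T →₀ ℤ)
  /-- exponent of the shift -/
  n : ℤ

private theorem Wr.ext' {T : Type u} {a b : Wr T} (h1 : ∀ j, a.f j = b.f j) (h2 : a.n = b.n) :
    a = b := by
  cases a
  cases b
  congr
  exact funext h1

private noncomputable instance (T : Type u) : Mul (Wr T) := ⟨fun a b => ⟨fun j => a.f j + b.f (j - a.n), a.n + b.n⟩⟩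
private instance (T : Type u) : One (Wr T) := ⟨⟨fun _ => 0, 0⟩⟩
private noncomputable instance (T : Type u) : Inv (Wr T) := ⟨fun a => ⟨fun j => -(a.f (j + a.n)), -a.n⟩⟩

private theorem Wr.mul_f {T : Type u} (a b : Wr T) (j : ℤ) :
    (a * b).f j = a.f j + b.f (j - a.n) := rfl
private theorem Wr.mul_n {T : Type u} (a b : Wr T) : (a * b).n = a.n + b.n := rfl
private theorem Wr.one_f {T : Type u} (j : ℤ) : (1 : Wr T).f j = 0 := rfl
private theorem Wr.one_n {T : Type u} : (1 : Wr T).n = 0 := rfl
private theorem Wr.inv_f {T : Type u} (a : Wr T) (j : ℤ) : (a⁻¹).f j = -(a.f (j + a.n)) := rfl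
private theorem Wr.inv_n {T : Type u} (a : Wr T) : (a⁻¹).n = -a.n := rfl

private noncomputable instance (T : Type u) : Group (Wr T) :=
  Group.ofLeftAxioms
    (by
      intro a b c
      apply Wr.ext'
      · intro j
        simp only [Wr.mul_f, Wr.mul_n]
        rw [add_assoc, sub_sub]
      · simp only [Wr.mul_n]
        ring)
    (by
      intro a
      apply Wr.ext'
      · intro j
        simp only [Wr.mul_f, Wr.one_f, Wr.one_n, zero_add, sub_zero]
      · simp only [Wr.mul_n, Wr.one_n, zero_add])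
    (by
      intro a
      apply Wr.ext'
      · intro j
        simp only [Wr.mul_f, Wr.inv_f, Wr.inv_n, Wr.one_f, sub_neg_eq_add, neg_add_cancel]
      · simp only [Wr.mul_n, Wr.inv_n, Wr.one_n, neg_add_cancel])

private noncomputable def Wr.s (T : Type u) : Multiplicative ℤ →* Wr T where
  toFun m := ⟨fun _ => 0, m.toAdd⟩
  map_one' := rfl
  map_mul' a b := by
    apply Wr.ext'
    · intro j
      simp only [Wr.mul_f, add_zero]
    · rfl

private theorem Wr.zpow (T : Type u) (k : ℤ) : (⟨fun _ => 0, 1⟩ : Wr T) ^ k = ⟨fun _ => 0, k⟩ := by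
  have h : (⟨fun _ => 0, 1⟩ : Wr T) = Wr.s T (Multiplicative.ofAdd 1) := rfl
  rw [h, ← map_zpow, ← ofAdd_zsmul]
  show (⟨fun _ => 0, k • 1⟩ : Wr T) = _
  rw [smul_eq_mul, mul_one]

private noncomputable def Wr.base (T : Type u) : Multiplicative (ℤ → (T →₀ ℤ)) →* Wr T where
  toFun f := ⟨f.toAdd, 0⟩
  map_one' := rfl
  map_mul' a b := by
    apply Wr.ext'
    · intro j
      simp only [Wr.mul_f, sub_zero]
      rfl
    · rfl

private noncomputable def Wr.shift (T : Type u) :
    Multiplicative (ℤ → (T →₀ ℤ)) ≃* Multiplicative (ℤ → (T →₀ ℤ)) where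
  toFun f := Multiplicative.ofAdd fun j => f.toAdd (j - 1)
  invFun f := Multiplicative.ofAdd fun j => f.toAdd (j + 1)
  left_inv f := by
    apply Multiplicative.toAdd.injective
    funext j
    show f.toAdd (j + 1 - 1) = f.toAdd j
    rw [add_sub_cancel_right]
  right_inv f := by
    apply Multiplicative.toAdd.injective
    funext j
    show f.toAdd (j - 1 + 1) = f.toAdd j
    rw [sub_add_cancel]
  map_mul' _ _ := rfl

private theorem TFSolv.prod_wr {N : Type u} [Group N] (hN : TFSolv N) (T : Type u) :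
    TFSolv (N × Wr T) := by
  have hB : TFSolv (N × Multiplicative (ℤ → (T →₀ ℤ))) := by
    refine TFSolv.prod_comm' hN _ (fun x y => mul_comm x y) ?_
    intro x n hn hx
    apply Multiplicative.toAdd.injective
    funext j
    have h1 : (n • Multiplicative.toAdd x) j = 0 := by
      have := congrArg Multiplicative.toAdd hx
      rw [toAdd_pow] at this
      rw [this]
      rfl
    rw [Pi.smul_apply] at h1
    rw [toAdd_one, Pi.zero_apply]
    ext t
    have h2 := DFunLike.congr_fun h1 t
    rw [Finsupp.smul_apply, Finsupp.zero_apply, nsmul_eq_mul] at h2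
    rw [Finsupp.zero_apply]
    rcases mul_eq_zero.1 h2 with h3 | h3
    · exact absurd (by exact_mod_cast h3) hn
    · exact h3
  refine TFSolv.step (N × Multiplicative (ℤ → (T →₀ ℤ))) (N × Wr T)
    ((MonoidHom.id N).prodMap (Wr.base T)) (1, ⟨fun _ => 0, 1⟩)
    ⟨(MulEquiv.refl N).prodCongr (Wr.shift T), ?_⟩ ?_ hB
  · rintro ⟨x, b⟩
    refine Prod.ext ?_ ?_
    · show 1 * x = x * 1
      rw [one_mul, mul_one]
    · show (⟨fun _ => 0, 1⟩ : Wr T) * Wr.base T b = Wr.base T (Wr.shift T b) * ⟨fun _ => 0, 1⟩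
      apply Wr.ext'
      · intro j
        simp only [Wr.mul_f, zero_add, add_zero]
        rfl
      · simp only [Wr.mul_n]
        show (1 : ℤ) + 0 = 0 + 1
        ring
  · have hf : ∀ (x : N) (b : Multiplicative (ℤ → (T →₀ ℤ))) (k : ℤ),
        ((MonoidHom.id N).prodMap (Wr.base T)) (x, b) * ((1, ⟨fun _ => 0, 1⟩) : N × Wr T) ^ k =
          (x, ⟨b.toAdd, k⟩) := by
      intro x b k
      refine Prod.ext ?_ ?_
      · show x * (1 : N) ^ k = x
        rw [one_zpow, mul_one]
      · show Wr.base T b * (⟨fun _ => 0, 1⟩ : Wr T) ^ k = ⟨b.toAdd, k⟩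
        rw [Wr.zpow]
        apply Wr.ext'
        · intro j
          simp only [Wr.mul_f, add_zero]
          rfl
        · simp only [Wr.mul_n]
          show (0 : ℤ) + k = k
          rw [zero_add]
    constructor
    · rintro ⟨⟨x, b⟩, k⟩ ⟨⟨x', b'⟩, k'⟩ he
      simp only [hf] at he
      obtain ⟨h1, h2⟩ := Prod.mk.inj he
      obtain ⟨h3, h4⟩ := Wr.mk.inj h2
      have h5 : b = b' := Multiplicative.toAdd.injective h3
      subst h1 h5 h4
      rfl
    · rintro ⟨x, ⟨f, k⟩⟩
      exact ⟨⟨⟨x, Multiplicative.ofAdd f⟩, k⟩, hf _ _ _⟩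

/-- the embedding of the free monoid -/
private noncomputable def Wr.th (T : Type u) : FreeMonoid T →* Wr T :=
  FreeMonoid.lift fun x => ⟨fun j => if j = 0 then Finsupp.single x 1 else 0, 1⟩

private theorem Wr.th_cons (T : Type u) (x : T) (w : FreeMonoid T) :
    Wr.th T (FreeMonoid.of x * w) =
      (⟨fun j => if j = 0 then Finsupp.single x 1 else 0, 1⟩ : Wr T) * Wr.th T w := by
  rw [map_mul]
  rfl

private theorem Wr.th_neg (T : Type u) (w : FreeMonoid T) :
    ∀ j : ℤ, j < 0 → (Wr.th T w).f j = 0 := by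
  induction w using FreeMonoid.recOn with
  | one => intro j _; rw [map_one, Wr.one_f]
  | of_mul x w ihw =>
    intro j hj
    rw [Wr.th_cons, Wr.mul_f]
    simp only
    rw [if_neg (by omega), ihw _ (by omega), add_zero]

private theorem Wr.th_n (T : Type u) (w : FreeMonoid T) : 0 ≤ (Wr.th T w).n := by
  induction w using FreeMonoid.recOn with
  | one => rw [map_one, Wr.one_n]
  | of_mul x w ihw =>
    rw [Wr.th_cons, Wr.mul_n]
    simp only
    omega

private theorem Wr.th_inj (T : Type u) : Function.Injective (Wr.th T) := by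
  intro w
  induction w using FreeMonoid.recOn with
  | one =>
    intro v hv
    induction v using FreeMonoid.recOn with
    | one => rfl
    | of_mul x v _ =>
      exfalso
      have h1 := congrArg Wr.n hv
      rw [map_one, Wr.th_cons, Wr.one_n, Wr.mul_n] at h1
      simp only at h1
      have := Wr.th_n T v
      omega
  | of_mul x w ihw =>
    intro v hv
    induction v using FreeMonoid.recOn with
    | one =>
      exfalso
      have h1 := congrArg Wr.n hv
      rw [map_one, Wr.th_cons, Wr.one_n, Wr.mul_n] at h1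
      simp only at h1
      have := Wr.th_n T w
      omega
    | of_mul y v _ =>
      rw [Wr.th_cons, Wr.th_cons] at hv
      have h1 := congrArg (fun a : Wr T => a.f 0) hv
      simp only [Wr.mul_f, if_true] at h1
      rw [Wr.th_neg T w _ (by norm_num), Wr.th_neg T v _ (by norm_num), add_zero, add_zero] at h1
      have h2 : x = y := by
        have := Finsupp.single_left_injective (one_ne_zero : (1 : ℤ) ≠ 0) h1
        exact this
      subst h2
      rw [ihw (mul_left_cancel hv)]

theorem TFSolv.wreath {N : Type u} [Group N] (hN : TFSolv N) (T : Type u) (k : ℕ) :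
    ∃ (N' : Type u) (_ : Group N') (_ : TFSolv N') (ψ : N × (Fin k → FreeMonoid T) →* N'),
      Function.Injective ψ := by
  induction k generalizing N with
  | zero =>
    refine ⟨N, _, hN, MonoidHom.fst _ _, ?_⟩
    rintro ⟨x, f⟩ ⟨y, g⟩ h
    exact Prod.ext h (funext fun i => i.elim0)
  | succ k ih =>
    obtain ⟨N', hG, hN', ψ, hψ⟩ := ih (hN.prod_wr T)
    let χ : N × (Fin (k + 1) → FreeMonoid T) →* (N × Wr T) × (Fin k → FreeMonoid T) :=
      { toFun := fun p => ((p.1, Wr.th T (p.2 0)), fun i => p.2 i.succ)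
        map_one' := by
          refine Prod.ext (Prod.ext rfl ?_) rfl
          exact map_one (Wr.th T)
        map_mul' := by
          intro p p'
          refine Prod.ext (Prod.ext rfl ?_) rfl
          exact map_mul (Wr.th T) _ _ }
    refine ⟨N', hG, hN', ψ.comp χ, ?_⟩
    intro p p' h
    have h1 : χ p = χ p' := hψ h
    obtain ⟨h2, h3⟩ := Prod.mk.inj h1
    obtain ⟨h4, h5⟩ := Prod.mk.inj h2
    refine Prod.ext h4 (funext fun i => ?_)
    refine Fin.cases ?_ (fun i => ?_) i
    · exact Wr.th_inj T h5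
    · exact congrFun h3 i

end Pool.Agent.H36.OX
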