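import Pool.Agent.H36.OX.Base

/-!
# Project OX, module AlmA: left Ore domains satisfy the strong rank condition; commutators in the
division ring of fractions
-/

set_option autoImplicit false

namespace Pool.Agent.H36.OX

open Pool.Agent.H66.NCL

universe u

/-- `q + 1` vectors with `q` coordinates are left dependent -/
private theorem almA_dep {R : Type u} [Ring R] [IsDomain R]
    (hO : ∀ x y : R, y ≠ 0 → ∃ u v, v ≠ 0 ∧ v * x = u * y) (q : ℕ) :
    ∀ v : Fin (q + 1) → Fin q → R, ∃ c : Fin (q + 1) → R, c ≠ 0 ∧ ∀ t, ∑ i, c i * v i t = 0 := by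
  induction q with
  | zero =>
    intro v
    refine ⟨fun _ => 1, ?_, fun t => t.elim0⟩
    intro h
    exact one_ne_zero (congrFun h 0)
  | succ q ih =>
    intro v
    have hk : ∃ k : Fin (q + 1 + 1), ∀ i : Fin (q + 1), ∃ u w, w ≠ 0 ∧ w * v (k.succAbove i) 0 = u * v k 0 := by
      by_cases h : ∃ k, v k 0 ≠ 0
      · obtain ⟨k, hk⟩ := h
        exact ⟨k, fun i => hO _ _ hk⟩
      · push Not at h
        refine ⟨0, fun i => ⟨0, 1, one_ne_zero, ?_⟩⟩
        rw [h, h, mul_zero, mul_zero]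
    obtain ⟨k, hk⟩ := hk
    choose u w hw huw using hk
    obtain ⟨c, hc, hsum⟩ := ih (fun i t => w i * v (k.succAbove i) t.succ - u i * v k t.succ)
    have hmain : ∀ t, (∑ i, c i * (w i * v (k.succAbove i) t - u i * v k t) = 0) →
        ∑ j, (Fin.insertNth k (-∑ i, c i * u i) (fun i => c i * w i) : Fin (q + 1 + 1) → R) j * v j t = 0 := by
      intro t ht
      rw [Fin.sum_univ_succAbove _ k, Fin.insertNth_apply_same]
      have h1 : ∑ i, (Fin.insertNth k (-∑ i, c i * u i) (fun i => c i * w i) : Fin (q + 1 + 1) → R) (k.succAbove i) * v (k.succAbove i) t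
          = ∑ i, c i * w i * v (k.succAbove i) t := by
        refine Finset.sum_congr rfl fun i _ => ?_
        rw [Fin.insertNth_apply_succAbove]
      rw [h1, neg_mul, Finset.sum_mul, neg_add_eq_sub, ← Finset.sum_sub_distrib]
      rw [← ht]
      refine Finset.sum_congr rfl fun i _ => ?_
      rw [mul_sub, mul_assoc, mul_assoc]
    refine ⟨Fin.insertNth k (-∑ i, c i * u i) (fun i => c i * w i), ?_, ?_⟩
    · intro h
      apply hc
      funext i
      have h1 := congrFun h (k.succAbove i)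
      rw [Fin.insertNth_apply_succAbove] at h1
      exact (mul_eq_zero.1 h1).resolve_right (hw i)
    · intro t
      refine Fin.cases ?_ (fun t => ?_) t
      · apply hmain
        refine Finset.sum_eq_zero fun i _ => ?_
        rw [huw, sub_self, mul_zero]
      · exact hmain _ (hsum t)

theorem src_of_ore {R : Type u} [Ring R] [IsDomain R]
    (hO : ∀ x y : R, y ≠ 0 → ∃ u v, v ≠ 0 ∧ v * x = u * y) : StrongRankCondition R := by
  rw [strongRankCondition_iff_succ]
  intro n f hf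
  obtain ⟨c, hc, hsum⟩ := almA_dep hO n (fun i => f (Pi.single i 1))
  apply hc
  apply hf
  rw [map_zero]
  have h1 : c = ∑ i, c i • (Pi.single i 1 : Fin (n + 1) → R) := by
    funext j
    rw [Finset.sum_apply, Finset.sum_eq_single j]
    · simp
    · intro i _ hi
      rw [Pi.smul_apply, Pi.single_eq_of_ne (Ne.symm hi), smul_zero]
    · simp
  have h2 : f c = ∑ i, c i • f (Pi.single i 1) := by
    conv_lhs => rw [h1]
    rw [map_sum]
    exact Finset.sum_congr rfl fun i _ => map_smul f _ _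
  rw [h2]
  funext t
  rw [Finset.sum_apply]
  exact hsum t

private theorem almA_one {D : Type u} [DivisionRing D] {nv : D → ℝ} (hU : IsUltra nv) : nv 1 = 1 := by
  have h1 := hU.mul 1 1
  rw [mul_one] at h1
  have h2 : nv 1 ≠ 0 := fun h => one_ne_zero ((hU.eq_zero 1).1 h)
  exact (mul_eq_right₀ h2).1 h1.symm

private theorem almA_neg {D : Type u} [DivisionRing D] {nv : D → ℝ} (hU : IsUltra nv) (x : D) : nv (-x) = nv x := by
  have h1 := hU.mul (-1) (-1)
  rw [neg_one_mul, neg_neg, almA_one hU] at h1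
  have h2 := hU.nonneg (-1)
  have h3 : nv (-1) = 1 := by nlinarith
  rw [← neg_one_mul, hU.mul, h3, one_mul]

private theorem almA_pos {D : Type u} [DivisionRing D] {nv : D → ℝ} (hU : IsUltra nv) {x : D} (hx : x ≠ 0) : 0 < nv x :=
  lt_of_le_of_ne (hU.nonneg x) fun h => hx ((hU.eq_zero x).1 h.symm)

private theorem almA_inv {D : Type u} [DivisionRing D] {nv : D → ℝ} (hU : IsUltra nv) {x y : D} (hx : x ≠ 0)
    (h : nv (x * y - y * x) < nv x * nv y) : nv (x⁻¹ * y - y * x⁻¹) < nv x⁻¹ * nv y := by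
  have h1 : x⁻¹ * y - y * x⁻¹ = -(x⁻¹ * (x * y - y * x) * x⁻¹) := by
    rw [mul_sub, sub_mul, neg_sub]
    rw [← mul_assoc x⁻¹ x y, inv_mul_cancel₀ hx, one_mul, mul_assoc x⁻¹ (y * x) x⁻¹, mul_assoc y x x⁻¹,
      mul_inv_cancel₀ hx, mul_one]
  have h2 : nv x⁻¹ * nv x = 1 := by rw [← hU.mul, inv_mul_cancel₀ hx, almA_one hU]
  have h3 : 0 < nv x⁻¹ := almA_pos hU (inv_ne_zero hx)
  rw [h1, almA_neg hU, hU.mul, hU.mul]
  calc nv x⁻¹ * nv (x * y - y * x) * nv x⁻¹ < nv x⁻¹ * (nv x * nv y) * nv x⁻¹ := by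
        apply mul_lt_mul_of_pos_right _ h3
        exact mul_lt_mul_of_pos_left h h3
    _ = (nv x⁻¹ * nv x) * nv y * nv x⁻¹ := by ring
    _ = nv x⁻¹ * nv y := by rw [h2]; ring

private theorem almA_mul {D : Type u} [DivisionRing D] {nv : D → ℝ} (hU : IsUltra nv) {a b y : D} (ha : a ≠ 0) (hb : b ≠ 0)
    (h1 : nv (a * y - y * a) < nv a * nv y) (h2 : nv (b * y - y * b) < nv b * nv y) :
    nv (a * b * y - y * (a * b)) < nv (a * b) * nv y := by
  have h3 : a * b * y - y * (a * b) = a * (b * y - y * b) + (a * y - y * a) * b := by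
    rw [mul_sub, sub_mul]
    simp only [mul_assoc]
    abel
  rw [h3]
  refine lt_of_le_of_lt (hU.add_le_max _ _) (max_lt ?_ ?_)
  · rw [hU.mul, hU.mul, mul_assoc]
    exact mul_lt_mul_of_pos_left h2 (almA_pos hU ha)
  · rw [hU.mul, hU.mul]
    calc nv (a * y - y * a) * nv b < nv a * nv y * nv b := mul_lt_mul_of_pos_right h1 (almA_pos hU hb)
      _ = nv a * nv b * nv y := by ring

/-- from `j R` to `D` in the first variable -/
private theorem almA_ext {R D : Type u} [Ring R] [DivisionRing D] (j : R →+* D)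
    (hfrac : ∀ d : D, ∃ s : R, s ≠ 0 ∧ ∃ a, j s * d = j a)
    (hj : Function.Injective j) {nv : D → ℝ} (hU : IsUltra nv) (y : D)
    (h : ∀ a : R, a ≠ 0 → nv (j a * y - y * j a) < nv (j a) * nv y) (x : D) (hx : x ≠ 0) :
    nv (x * y - y * x) < nv x * nv y := by
  obtain ⟨s, hs, a, ha⟩ := hfrac x
  have hjs : j s ≠ 0 := fun h => hs (hj (by rw [h, map_zero]))
  have hja : j a ≠ 0 := by
    rw [← ha]
    exact mul_ne_zero hjs hx
  have ha0 : a ≠ 0 := fun h => hja (by rw [h, map_zero])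
  have hx' : x = (j s)⁻¹ * j a := by
    rw [← ha, ← mul_assoc, inv_mul_cancel₀ hjs, one_mul]
  rw [hx']
  exact almA_mul hU (inv_ne_zero hjs) hja (almA_inv hU hjs (h s hs)) (h a ha0)

theorem comm_frac {R D : Type u} [Ring R] [DivisionRing D] (j : R →+* D)
    (hj : Function.Injective j) (hfrac : ∀ d : D, ∃ s : R, s ≠ 0 ∧ ∃ a, j s * d = j a)
    (nv : D → ℝ) (hU : IsUltra nv)
    (hR : ∀ a b : R, a ≠ 0 → b ≠ 0 → nv (j (a * b - b * a)) < nv (j a) * nv (j b)) :
    ∀ x y : D, x ≠ 0 → y ≠ 0 → nv (x * y - y * x) < nv x * nv y := by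
  have h1 : ∀ (x : D) (b : R), x ≠ 0 → b ≠ 0 → nv (x * j b - j b * x) < nv x * nv (j b) := by
    intro x b hx hb
    refine almA_ext j hfrac hj hU (j b) (fun a ha => ?_) x hx
    have h := hR a b ha hb
    rwa [map_sub, map_mul, map_mul] at h
  intro x y hx hy
  refine almA_ext j hfrac hj hU y (fun a ha => ?_) x hx
  have h := h1 y a hy ha
  rw [← almA_neg hU, neg_sub, mul_comm (nv y)] at h
  exact h

end Pool.Agent.H36.OX
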