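import Pool.Agent.H36.OX.Base

/-!
# Project OX: the residue field and the reduction of a lattice
-/

set_option autoImplicit false

namespace Pool.Agent.H36.OX

open Pool.Agent.H66.NCL

universe u v w

/-- linear representation over a residue field, the field being given -/
private theorem alb_lin {O : Type u} [Ring O] {K : Type u} [Field K] (π : O →+* K)
    (hπ : Function.Surjective π) {W : Type v} [AddCommGroup W] [Module O W] [Module K W]
    (hs : ∀ (a : O) (w : W), π a • w = a • w) (r : ℕ)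
    (hr : ∀ w : Fin (r + 1) → W, ∃ c : Fin (r + 1) → O, (∃ i, π (c i) ≠ 0) ∧ ∑ i, c i • w i = 0)
    {T : Type w} [Group T] (τ : T →* Module.End O W) :
    ∃ (m : ℕ) (θ : T →* (Matrix (Fin m) (Fin m) K)ˣ), ∀ s, θ s = 1 → τ s = 1 := by
  have hrank : Module.rank K W ≤ r := by
    refine rank_le fun s hsi => ?_
    by_contra hcard
    push Not at hcard
    have h1 : Fintype.card (Fin (r + 1)) ≤ Fintype.card s := by
      rw [Fintype.card_fin, Fintype.card_coe]
      exact hcard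
    obtain ⟨e⟩ := Function.Embedding.nonempty_of_card_le h1
    have h2 : LinearIndependent K fun i => ((e i : s) : W) := hsi.comp e e.injective
    obtain ⟨c, ⟨i, hi⟩, hc⟩ := hr fun i => ((e i : s) : W)
    apply hi
    have h3 : ∑ i, π (c i) • ((e i : s) : W) = 0 := by
      rw [← hc]
      exact Finset.sum_congr rfl fun i _ => hs _ _
    exact Fintype.linearIndependent_iff.1 h2 (fun i => π (c i)) h3 i
  have hfin : Module.Finite K W := by
    rw [← Module.rank_lt_aleph0_iff]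
    exact hrank.trans_lt (Cardinal.natCast_lt_aleph0)
  let L : T →* Module.End K W :=
    { toFun := fun s =>
        { toFun := fun w => τ s w
          map_add' := fun a b => map_add _ _ _
          map_smul' := fun k w => by
            obtain ⟨a, rfl⟩ := hπ k
            rw [hs, map_smul, RingHom.id_apply, hs] }
      map_one' := by
        ext w
        show τ 1 w = w
        rw [map_one]
        rfl
      map_mul' := fun a b => by
        ext w
        show τ (a * b) w = τ a (τ b w)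
        rw [map_mul]
        rfl }
  let b := Module.finBasis K W
  refine ⟨_, (Units.map ((LinearMap.toMatrixAlgEquiv b).toRingEquiv.toRingHom.toMonoidHom)).comp
    L.toHomUnits, fun s h => ?_⟩
  have h1 : LinearMap.toMatrixAlgEquiv b (L s) = 1 := congrArg Units.val h
  have h2 : L s = 1 := (LinearMap.toMatrixAlgEquiv b).injective (by rw [h1, map_one])
  ext w
  exact congrArg (fun f : Module.End K W => f w) h2

/-- linear representation over a residue field -/
private theorem alb_res {O : Type u} [Ring O] (I : Ideal O) [I.IsTwoSided] (h1 : (1 : O) ∉ I)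
    (hcomm : ∀ x y : O, x * y - y * x ∈ I) (hinv : ∀ x, x ∉ I → ∃ y, x * y - 1 ∈ I)
    {W : Type v} [AddCommGroup W] [Module O W] (hW : ∀ a ∈ I, ∀ w : W, a • w = 0) (r : ℕ)
    (hr : ∀ w : Fin (r + 1) → W, ∃ c : Fin (r + 1) → O, (∃ i, c i ∉ I) ∧ ∑ i, c i • w i = 0)
    {T : Type w} [Group T] (τ : T →* Module.End O W) :
    ∃ (K : Type u) (_ : Field K) (m : ℕ) (θ : T →* (Matrix (Fin m) (Fin m) K)ˣ),
      ∀ s, θ s = 1 → τ s = 1 := by
  have hF : IsField (O ⧸ I) := by
    refine ⟨⟨1, 0, fun h => h1 ?_⟩, fun x y => ?_, fun {x} hx => ?_⟩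
    · rw [← map_one (Ideal.Quotient.mk I)] at h
      exact Ideal.Quotient.eq_zero_iff_mem.1 h
    · obtain ⟨x, rfl⟩ := Ideal.Quotient.mk_surjective x
      obtain ⟨y, rfl⟩ := Ideal.Quotient.mk_surjective y
      rw [← map_mul, ← map_mul]
      exact Ideal.Quotient.mk_eq_mk_iff_sub_mem _ _ |>.2 (hcomm x y)
    · obtain ⟨x, rfl⟩ := Ideal.Quotient.mk_surjective x
      obtain ⟨y, hy⟩ := hinv x fun h => hx (Ideal.Quotient.eq_zero_iff_mem.2 h)
      refine ⟨Ideal.Quotient.mk I y, ?_⟩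
      rw [← map_mul, ← map_one (Ideal.Quotient.mk I)]
      exact Ideal.Quotient.mk_eq_mk_iff_sub_mem _ _ |>.2 hy
  let : Field (O ⧸ I) := hF.toField
  have hM : Module.IsTorsionBySet O W I := fun w a => hW a.1 a.2 w
  let π : O →+* (O ⧸ I) := Ideal.Quotient.mk I
  let : SMul (O ⧸ I) W := hM.hasSMul
  let : Module (O ⧸ I) W :=
    Function.Surjective.moduleLeft π Ideal.Quotient.mk_surjective fun _ _ => rfl
  refine ⟨O ⧸ I, inferInstance, alb_lin π Ideal.Quotient.mk_surjective (fun _ _ => rfl) r ?_ τ⟩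
  intro w
  obtain ⟨c, ⟨i, hi⟩, hc⟩ := hr w
  exact ⟨c, ⟨i, fun h => hi (Ideal.Quotient.eq_zero_iff_mem.1 h)⟩, hc⟩

section

variable {D : Type u} [DivisionRing D] {nv : D → ℝ}

private theorem alb_one (hU : IsUltra nv) : nv 1 = 1 := by
  have h1 := hU.mul 1 1
  rw [mul_one] at h1
  have h2 : nv (1 : D) ≠ 0 := fun h => one_ne_zero ((hU.eq_zero 1).1 h)
  exact (mul_eq_left₀ h2).1 h1.symm

private theorem alb_zero (hU : IsUltra nv) : nv 0 = 0 := (hU.eq_zero 0).2 rfl

private theorem alb_pos (hU : IsUltra nv) {x : D} (hx : x ≠ 0) : 0 < nv x :=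
  lt_of_le_of_ne (hU.nonneg x) fun h => hx ((hU.eq_zero x).1 h.symm)

private theorem alb_neg (hU : IsUltra nv) (x : D) : nv (-x) = nv x := by
  have h1 : nv (-1 : D) * nv (-1) = 1 := by
    rw [← hU.mul, neg_mul_neg, mul_one, alb_one hU]
  have h2 : nv (-1 : D) = 1 := by
    rcases mul_self_eq_one_iff.1 h1 with h | h
    · exact h
    · have := hU.nonneg (-1)
      linarith
  rw [← neg_one_mul, hU.mul, h2, one_mul]

private theorem alb_inv (hU : IsUltra nv) (x : D) : nv x⁻¹ = (nv x)⁻¹ := by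
  by_cases hx : x = 0
  · rw [hx, inv_zero, alb_zero hU, inv_zero]
  · apply eq_inv_of_mul_eq_one_left
    rw [← hU.mul, inv_mul_cancel₀ hx, alb_one hU]

/-- the valuation ring -/
private def albO (hU : IsUltra nv) : Subring D where
  carrier := {x | nv x ≤ 1}
  mul_mem' := by
    intro a b ha hb
    show nv (a * b) ≤ 1
    rw [hU.mul]
    exact mul_le_one₀ ha (hU.nonneg _) hb
  one_mem' := (alb_one hU).le
  add_mem' := by
    intro a b ha hb
    exact (hU.add_le_max a b).trans (max_le ha hb)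
  zero_mem' := by
    show nv 0 ≤ 1
    rw [alb_zero hU]
    exact zero_le_one
  neg_mem' := by
    intro a ha
    show nv (-a) ≤ 1
    rw [alb_neg hU]
    exact ha

/-- the maximal ideal -/
private def albI (hU : IsUltra nv) : Ideal (albO hU) where
  carrier := {x | nv x.1 < 1}
  add_mem' := by
    intro a b ha hb
    exact (hU.add_le_max a.1 b.1).trans_lt (max_lt ha hb)
  zero_mem' := by
    show nv 0 < 1
    rw [alb_zero hU]
    exact zero_lt_one
  smul_mem' := by
    intro c x hx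
    show nv (c.1 * x.1) < 1
    rw [hU.mul]
    exact mul_lt_one_of_nonneg_of_lt_one_right c.2 (hU.nonneg _) hx

private instance albI_two (hU : IsUltra nv) : (albI hU).IsTwoSided := by
  constructor
  intro a b ha
  show nv (a.1 * b.1) < 1
  rw [hU.mul]
  exact mul_lt_one_of_nonneg_of_lt_one_left (hU.nonneg _) ha b.2

/-- the lattice as a module over the valuation ring -/
private def albM (hU : IsUltra nv) {r : ℕ} {M : AddSubgroup (Fin r → D)} (hM : IsLat nv M) :
    Submodule (albO hU) (Fin r → D) where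
  carrier := M
  add_mem' := fun ha hb => M.add_mem ha hb
  zero_mem' := M.zero_mem
  smul_mem' := fun c x hx => hM.smul c.1 c.2 x hx

/-- the submodule `ϖ M` -/
private def albN (hU : IsUltra nv) {r : ℕ} {M : AddSubgroup (Fin r → D)} (hM : IsLat nv M) {ϖ : D}
    (h0 : ϖ ≠ 0) : Submodule (albO hU) (albM hU hM) where
  carrier := {x | ∃ y ∈ M, x.1 = ϖ • y}
  add_mem' := by
    rintro a b ⟨y, hy, ha⟩ ⟨z, hz, hb⟩
    exact ⟨y + z, M.add_mem hy hz, by rw [smul_add, ← ha, ← hb]; rfl⟩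
  zero_mem' := ⟨0, M.zero_mem, by rw [smul_zero]; rfl⟩
  smul_mem' := by
    rintro c x ⟨y, hy, hx⟩
    refine ⟨(ϖ⁻¹ * c.1 * ϖ) • y, hM.smul _ ?_ y hy, ?_⟩
    · rw [hU.mul, hU.mul, alb_inv hU, mul_comm _ (nv c.1), mul_assoc,
        inv_mul_cancel₀ (alb_pos hU h0).ne', mul_one]
      exact c.2
    · show c.1 • x.1 = _
      rw [hx, smul_smul, smul_smul, ← mul_assoc, ← mul_assoc, mul_inv_cancel₀ h0, one_mul]

private theorem alb_vec_mem {r : ℕ} {H : Type u} [Group H] (ρ : H →* (Matrix (Fin r) (Fin r) D)ˣ)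
    (M : AddSubgroup (Fin r → D)) (s : stabL ρ M) {x : Fin r → D} (hx : x ∈ M) :
    Matrix.vecMul x (ρ (s⁻¹ : stabL ρ M).1).val ∈ M := ((s⁻¹ : stabL ρ M).2 x).2 hx

/-- the action of the stabilizer on the lattice -/
private def albL (hU : IsUltra nv) {r : ℕ} {H : Type u} [Group H]
    (ρ : H →* (Matrix (Fin r) (Fin r) D)ˣ) {M : AddSubgroup (Fin r → D)} (hM : IsLat nv M)
    (s : stabL ρ M) : albM hU hM →ₗ[albO hU] albM hU hM where
  toFun x := ⟨Matrix.vecMul x.1 (ρ (s⁻¹ : stabL ρ M).1).val, alb_vec_mem ρ M s x.2⟩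
  map_add' a b := Subtype.ext (by
    show Matrix.vecMul (a.1 + b.1) _ = Matrix.vecMul a.1 _ + Matrix.vecMul b.1 _
    exact Matrix.add_vecMul _ _ _)
  map_smul' c x := Subtype.ext (by
    show Matrix.vecMul (c.1 • x.1) _ = c.1 • Matrix.vecMul x.1 _
    exact Matrix.smul_vecMul _ _ _)

private theorem albL_one (hU : IsUltra nv) {r : ℕ} {H : Type u} [Group H]
    (ρ : H →* (Matrix (Fin r) (Fin r) D)ˣ) {M : AddSubgroup (Fin r → D)} (hM : IsLat nv M) :
    albL hU ρ hM 1 = LinearMap.id := by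
  ext x : 2
  show Matrix.vecMul x.1 (ρ ((1 : stabL ρ M)⁻¹ : stabL ρ M).1).val = x.1
  rw [inv_one, OneMemClass.coe_one, map_one, Units.val_one, Matrix.vecMul_one]

private theorem albL_mul (hU : IsUltra nv) {r : ℕ} {H : Type u} [Group H]
    (ρ : H →* (Matrix (Fin r) (Fin r) D)ˣ) {M : AddSubgroup (Fin r → D)} (hM : IsLat nv M)
    (a b : stabL ρ M) : albL hU ρ hM (a * b) = (albL hU ρ hM a).comp (albL hU ρ hM b) := by
  ext x : 2
  show Matrix.vecMul x.1 (ρ ((a * b)⁻¹ : stabL ρ M).1).val =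
    Matrix.vecMul (Matrix.vecMul x.1 (ρ (b⁻¹ : stabL ρ M).1).val) (ρ (a⁻¹ : stabL ρ M).1).val
  rw [Matrix.vecMul_vecMul, ← Units.val_mul, ← map_mul, mul_inv_rev]
  rfl

end

theorem exists_residue {D : Type u} [DivisionRing D] {nv : D → ℝ} (hU : IsUltra nv) (ϖ : D)
    (h0 : 0 < nv ϖ) (h1 : nv ϖ < 1) (hd : ∀ x, x ≠ 0 → ∃ k : ℤ, nv x = nv ϖ ^ k)
    (hc : ∀ x y : D, x ≠ 0 → y ≠ 0 → nv (x * y - y * x) < nv x * nv y) {r : ℕ}
    {H : Type u} [Group H] (ρ : H →* (Matrix (Fin r) (Fin r) D)ˣ) (M : AddSubgroup (Fin r → D))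
    (hM : IsLat nv M) :
    ∃ (K : Type u) (_ : Field K) (m : ℕ) (θ : stabL ρ M →* (Matrix (Fin m) (Fin m) K)ˣ),
      ∀ s, θ s = 1 → ∀ x ∈ M, ∃ y ∈ M, Matrix.vecMul x (ρ s.1).val - x = ϖ • y := by
  have hϖ : ϖ ≠ 0 := by
    rintro rfl
    rw [alb_zero hU] at h0
    exact lt_irrefl _ h0
  let N := albN hU hM hϖ
  have hN : ∀ s : stabL ρ M, N ≤ N.comap (albL hU ρ hM s) := by
    rintro s x ⟨y, hy, hx⟩
    refine ⟨Matrix.vecMul y (ρ (s⁻¹ : stabL ρ M).1).val, alb_vec_mem ρ M s hy, ?_⟩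
    show Matrix.vecMul x.1 (ρ (s⁻¹ : stabL ρ M).1).val = _
    rw [hx, Matrix.smul_vecMul]
  let τ : stabL ρ M →* Module.End (albO hU) (albM hU hM ⧸ N) :=
    { toFun := fun s => N.mapQ N (albL hU ρ hM s) (hN s)
      map_one' := by
        refine LinearMap.ext fun x => ?_
        obtain ⟨x, rfl⟩ := N.mkQ_surjective x
        show N.mkQ (albL hU ρ hM 1 x) = _
        rw [albL_one]
        rfl
      map_mul' := fun a b => by
        refine LinearMap.ext fun x => ?_
        obtain ⟨x, rfl⟩ := N.mkQ_surjective x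
        show N.mkQ (albL hU ρ hM (a * b) x) = N.mkQ (albL hU ρ hM a (albL hU ρ hM b x))
        rw [albL_mul]
        rfl }
  have key : ∃ (K : Type u) (_ : Field K) (m : ℕ)
      (θ : stabL ρ M →* (Matrix (Fin m) (Fin m) K)ˣ), ∀ s, θ s = 1 → τ s = 1 := by
    refine alb_res (albI hU) ?_ ?_ ?_ ?_ r ?_ τ
    · intro h
      have h2 : nv 1 < 1 := h
      rw [alb_one hU] at h2
      exact lt_irrefl _ h2
    · intro x y
      show nv (x.1 * y.1 - y.1 * x.1) < 1
      by_cases hx : x.1 = 0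
      · rw [hx, zero_mul, mul_zero, sub_zero, alb_zero hU]
        exact zero_lt_one
      by_cases hy : y.1 = 0
      · rw [hy, zero_mul, mul_zero, sub_zero, alb_zero hU]
        exact zero_lt_one
      exact (hc _ _ hx hy).trans_le (mul_le_one₀ x.2 (hU.nonneg _) y.2)
    · intro x hx
      have h2 : nv x.1 = 1 := le_antisymm x.2 (not_lt.1 hx)
      have h3 : x.1 ≠ 0 := by
        intro h
        rw [h, alb_zero hU] at h2
        exact zero_ne_one h2
      refine ⟨⟨x.1⁻¹, ?_⟩, ?_⟩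
      · show nv x.1⁻¹ ≤ 1
        rw [alb_inv hU, h2, inv_one]
      · show nv (x.1 * x.1⁻¹ - 1) < 1
        rw [mul_inv_cancel₀ h3, sub_self, alb_zero hU]
        exact zero_lt_one
    · intro a ha w
      obtain ⟨x, rfl⟩ := N.mkQ_surjective w
      rw [← map_smul]
      refine (Submodule.Quotient.mk_eq_zero N).2 ?_
      refine ⟨(ϖ⁻¹ * a.1) • x.1, hM.smul _ ?_ _ x.2, ?_⟩
      · rw [hU.mul, alb_inv hU, inv_mul_le_iff₀ h0, mul_one]
        have ha' : nv a.1 < 1 := ha
        by_cases ha0 : a.1 = 0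
        · rw [ha0, alb_zero hU]
          exact h0.le
        · obtain ⟨k, hk⟩ := hd a.1 ha0
          rw [hk] at ha' ⊢
          have hk1 : 1 ≤ k := by
            by_contra hk0
            have h2 : k ≤ 0 := by omega
            have h3 := one_le_zpow_of_nonpos₀ h0 h1.le h2
            linarith
          calc nv ϖ ^ k ≤ nv ϖ ^ (1 : ℤ) := zpow_le_zpow_right_of_le_one₀ h0 h1.le hk1
            _ = nv ϖ := zpow_one _
      · show a.1 • x.1 = _
        rw [smul_smul, ← mul_assoc, mul_inv_cancel₀ hϖ, one_mul]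
    · intro w
      choose x hx using fun i => N.mkQ_surjective (w i)
      have h2 : ¬ LinearIndependent D fun i : Fin (r + 1) => (x i).1 := by
        intro h
        have h3 := h.fintype_card_le_finrank
        rw [Fintype.card_fin, Module.finrank_fin_fun] at h3
        omega
      rw [Fintype.not_linearIndependent_iff] at h2
      obtain ⟨g, hg, i, hi⟩ := h2
      obtain ⟨i₀, hi₀⟩ := Finite.exists_max fun i => nv (g i)
      have h3 : g i₀ ≠ 0 := by
        intro h
        have h4 := hi₀ i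
        rw [h, alb_zero hU] at h4
        exact absurd (alb_pos hU hi) (not_lt.2 h4)
      refine ⟨fun i => ⟨(g i₀)⁻¹ * g i, ?_⟩, ⟨i₀, ?_⟩, ?_⟩
      · show nv _ ≤ 1
        rw [hU.mul, alb_inv hU, inv_mul_le_iff₀ (alb_pos hU h3), mul_one]
        exact hi₀ i
      · intro h
        have h4 : nv ((g i₀)⁻¹ * g i₀) < 1 := h
        rw [inv_mul_cancel₀ h3, alb_one hU] at h4
        exact lt_irrefl _ h4
      · have h5 : ∑ i, (⟨(g i₀)⁻¹ * g i, by
            show nv _ ≤ 1
            rw [hU.mul, alb_inv hU, inv_mul_le_iff₀ (alb_pos hU h3), mul_one]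
            exact hi₀ i⟩ : albO hU) • x i = 0 := by
          apply Subtype.ext
          rw [Submodule.coe_sum]
          show ∑ i, ((g i₀)⁻¹ * g i) • (x i).1 = 0
          rw [← smul_zero (g i₀)⁻¹, ← hg, Finset.smul_sum]
          exact Finset.sum_congr rfl fun i _ => mul_smul _ _ _
        have h6 := congrArg N.mkQ h5
        rw [map_sum, map_zero] at h6
        rw [← h6]
        refine Finset.sum_congr rfl fun i _ => ?_
        rw [map_smul, hx]
  obtain ⟨K, hK, m, θ, hθ⟩ := key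
  refine ⟨K, hK, m, θ, fun s hs x hx => ?_⟩
  have h2 := hθ s hs
  have h3 : Matrix.vecMul x (ρ s.1).val ∈ M := (s.2 x).2 hx
  have h4 : N.mkQ (albL hU ρ hM s ⟨_, h3⟩) = N.mkQ ⟨_, h3⟩ :=
    congrArg (fun f : Module.End (albO hU) (albM hU hM ⧸ N) => f (N.mkQ ⟨_, h3⟩)) h2
  have h5 : (albL hU ρ hM s ⟨_, h3⟩ - ⟨_, h3⟩ : albM hU hM) ∈ N := by
    rw [← Submodule.Quotient.mk_eq_zero]
    have h6 : N.mkQ (albL hU ρ hM s ⟨_, h3⟩ - ⟨_, h3⟩) = 0 := by
      rw [map_sub, h4, sub_self]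
    exact h6
  obtain ⟨y, hy, h7⟩ := h5
  refine ⟨-y, M.neg_mem hy, ?_⟩
  have h8 : Matrix.vecMul (Matrix.vecMul x (ρ s.1).val) (ρ (s⁻¹ : stabL ρ M).1).val = x := by
    rw [Matrix.vecMul_vecMul, ← Units.val_mul, ← map_mul]
    have h9 : s.1 * (s⁻¹ : stabL ρ M).1 = 1 := by
      rw [← Subgroup.coe_mul, mul_inv_cancel]
      rfl
    rw [h9, map_one, Units.val_one, Matrix.vecMul_one]
  have h10 : x - Matrix.vecMul x (ρ s.1).val = ϖ • y := by
    rw [← h7]
    show _ = Matrix.vecMul (Matrix.vecMul x (ρ s.1).val) (ρ (s⁻¹ : stabL ρ M).1).val -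
      Matrix.vecMul x (ρ s.1).val
    rw [h8]
  rw [smul_neg, ← h10, neg_sub]

end Pool.Agent.H36.OX
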