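import Pool.Agent.H36.OX.Base
import Pool.Agent.H66.NCL.Abel
import Pool.Agent.H66.NCL.Ext

/-!
# Project OX: groups of unipotent automorphisms
-/

set_option autoImplicit false

namespace Pool.Agent.H36.OX

open Pool.Agent.H66.NCL
open scoped commutatorElement

universe u

private theorem alc_ce_comm (H : Type u) [Group H] (hk : CE.{u, u} (commutator H)) :
    CE.{u, u} H := by
  refine CE.extension (Abelianization.of : H →* Abelianization H) (CE.of_comm _) ?_
  have e : (Abelianization.of : H →* Abelianization H).ker = commutator H :=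
    Abelianization.ker_of H
  rw [e]
  exact hk

private theorem alc_ce_derived {G : Type u} [Group G] {n : ℕ} (h : derivedSeries G n = ⊥) :
    ∀ k j, j + k = n → CE.{u, u} (derivedSeries G j) := by
  intro k
  induction k with
  | zero =>
    intro j hj
    rw [add_zero] at hj
    rw [hj, h]
    exact CE.of_finite _
  | succ k ih =>
    intro j hj
    have h1 := ih (j + 1) (by omega)
    refine alc_ce_comm _ ?_
    have h2 : ∀ x : commutator (derivedSeries G j), (x.1 : G) ∈ derivedSeries G (j + 1) := by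
      intro x
      rw [derivedSeries_succ, ← Subgroup.map_subtype_commutator]
      exact ⟨x.1, x.2, rfl⟩
    refine CE.of_injective (G' := derivedSeries G (j + 1))
      { toFun := fun x => ⟨x.1.1, h2 x⟩
        map_one' := rfl
        map_mul' := fun _ _ => rfl } ?_ h1
    intro x y hxy
    have h3 : (x.1.1 : G) = y.1.1 := congrArg (fun z : derivedSeries G (j + 1) => (z : G)) hxy
    exact Subtype.ext (Subtype.ext h3)

private theorem alc_ce_solv {G : Type u} [Group G] {n : ℕ} (h : derivedSeries G n = ⊥) :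
    CE.{u, u} G := by
  have h1 := alc_ce_derived h n 0 (zero_add n)
  refine CE.of_injective (G' := derivedSeries G 0)
    { toFun := fun x => ⟨x, by rw [derivedSeries_zero]; trivial⟩
      map_one' := rfl
      map_mul' := fun _ _ => rfl } ?_ h1
  intro x y hxy
  exact congrArg (fun z : derivedSeries G 0 => (z : G)) hxy

section

variable {K W : Type u} [Group K] [AddCommGroup W] (τ : K →* (W ≃ₗ[ℤ] W))
  (F : ℕ → AddSubgroup W)

private theorem alc_mul (g h : K) (w : W) : τ (g * h) w = τ g (τ h w) := by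
  rw [map_mul]
  rfl

private theorem alc_inv (g : K) (w : W) : τ g (τ g⁻¹ w) = w := by
  rw [← alc_mul, mul_inv_cancel, map_one]
  rfl

/-- the elements which move `F i` by elements of `F (i + j)` -/
private def alcK (hst : ∀ g i w, w ∈ F i → τ g w ∈ F i) (j : ℕ) : Subgroup K where
  carrier := {g | ∀ i w, w ∈ F i → τ g w - w ∈ F (i + j)}
  one_mem' := by
    intro i w _
    rw [map_one]
    show w - w ∈ F (i + j)
    rw [sub_self]
    exact (F _).zero_mem
  mul_mem' := by
    intro g h hg hh i w hw
    have e : τ (g * h) w - w = (τ g (τ h w) - τ h w) + (τ h w - w) := by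
      rw [alc_mul]
      abel
    rw [e]
    exact (F _).add_mem (hg i _ (hst h i w hw)) (hh i w hw)
  inv_mem' := by
    intro g hg i w hw
    have e : τ g⁻¹ w - w = -(τ g (τ g⁻¹ w) - τ g⁻¹ w) := by
      rw [alc_inv]
      abel
    rw [e]
    exact (F _).neg_mem (hg i _ (hst g⁻¹ i w hw))

private theorem alc_comm (hst : ∀ g i w, w ∈ F i → τ g w ∈ F i) (hanti : Antitone F) (j : ℕ) :
    ⁅alcK τ F hst (j + 1), alcK τ F hst (j + 1)⁆ ≤ alcK τ F hst (j + 2) := by
  rw [Subgroup.commutator_le]
  intro g hg h hh i w hw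
  have hu := hst (h * g)⁻¹ i w hw
  have e0 : ⁅g, h⁆ = (g * h) * (h * g)⁻¹ := by
    rw [commutatorElement_def, mul_inv_rev]
    group
  have e1 : τ ⁅g, h⁆ w - w = τ (g * h) (τ (h * g)⁻¹ w) - τ (h * g) (τ (h * g)⁻¹ w) := by
    rw [e0, alc_mul, alc_inv]
  rw [e1]
  revert hu
  generalize τ (h * g)⁻¹ w = v
  intro hv
  have a1 := hg _ _ (hh i v hv)
  have a2 := hh _ _ (hg i v hv)
  have e2 : τ (g * h) v - τ (h * g) v =
      (τ g (τ h v - v) - (τ h v - v)) - (τ h (τ g v - v) - (τ g v - v)) := by
    rw [alc_mul, alc_mul, map_sub, map_sub]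
    abel
  rw [e2]
  exact (F _).sub_mem (hanti (by omega) a1) (hanti (by omega) a2)

end

theorem ce_of_unipotent {K W : Type u} [Group K] [AddCommGroup W] (τ : K →* (W ≃ₗ[ℤ] W))
    (hτ : Function.Injective τ) (F : ℕ → AddSubgroup W) (n : ℕ) (h0 : F 0 = ⊤) (hn : F n = ⊥)
    (hanti : Antitone F) (h : ∀ g i w, w ∈ F i → τ g w - w ∈ F (i + 1)) : CE.{u, u} K := by
  have hst : ∀ g i w, w ∈ F i → τ g w ∈ F i := by
    intro g i w hw
    have e : τ g w = (τ g w - w) + w := by abel
    rw [e]
    exact (F i).add_mem (hanti (Nat.le_succ i) (h g i w hw)) hw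
  have hle : ∀ j, derivedSeries K j ≤ alcK τ F hst (j + 1) := by
    intro j
    induction j with
    | zero =>
      intro g _ i w hw
      exact h g i w hw
    | succ j ih =>
      rw [derivedSeries_succ]
      exact (Subgroup.commutator_mono ih ih).trans (alc_comm τ F hst hanti j)
  refine alc_ce_solv (n := n) ?_
  rw [eq_bot_iff]
  intro g hg
  rw [Subgroup.mem_bot]
  apply hτ
  ext w
  rw [map_one]
  have h1 := hle n hg 0 w (by rw [h0]; trivial)
  have h2 : τ g w - w ∈ F n := hanti (by omega) h1
  rw [hn, AddSubgroup.mem_bot, sub_eq_zero] at h2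
  exact h2

end Pool.Agent.H36.OX
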