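import Pool.Agent.H36.OX.Base
import Mathlib.LinearAlgebra.Dimension.Localization
import Mathlib.RingTheory.OreLocalization.Ring

/-!
# Project OX, module Frac: the division ring of fractions and the extension of the valuations
-/

set_option autoImplicit false

namespace Pool.Agent.H36.OX

open Pool.Agent.H66.NCL
open scoped nonZeroDivisors

universe u

theorem exists_frac (R : Type u) [Ring R] [IsDomain R] [StrongRankCondition R] :
    ∃ (D : Type u) (_ : DivisionRing D) (j : R →+* D), Function.Injective j ∧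
      ∀ d : D, ∃ s : R, s ≠ 0 ∧ ∃ a, j s * d = j a := by
  obtain ⟨hS⟩ := nonempty_oreSet_of_strongRankCondition (R := R)
  let _ : OreLocalization.OreSet R⁰ := hS
  refine ⟨OreLocalization R⁰ R, inferInstance, OreLocalization.numeratorRingHom, ?_, ?_⟩
  · exact OreLocalization.numeratorHom_inj inf_le_left
  · intro d
    induction d using OreLocalization.ind with
    | _ r s =>
      refine ⟨s.1, nonZeroDivisors.coe_ne_zero s, r, ?_⟩
      exact OreLocalization.mul_cancel

private theorem frac_common {R D : Type u} [Ring R] [DivisionRing D] {j : R →+* D}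
    (hj : Function.Injective j) (hfrac : ∀ d : D, ∃ s : R, s ≠ 0 ∧ ∃ a, j s * d = j a)
    (a s : R) (hs : s ≠ 0) : ∃ u b : R, u ≠ 0 ∧ u * a = b * s := by
  have hs' : j s ≠ 0 := fun h => hs (hj (by rw [h, map_zero]))
  obtain ⟨u, hu, b, h⟩ := hfrac (j a * (j s)⁻¹)
  refine ⟨u, b, hu, hj ?_⟩
  rw [map_mul, map_mul, ← h, mul_assoc, mul_assoc, inv_mul_cancel₀ hs', mul_one]

theorem exists_nv {R D : Type u} [Ring R] [DivisionRing D] (j : R →+* D)
    (hj : Function.Injective j) (hfrac : ∀ d : D, ∃ s : R, s ≠ 0 ∧ ∃ a, j s * d = j a)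
    (nu : R → ℝ) (h : IsVal nu) : ∃ nv : D → ℝ, IsDisc nv ∧ ∀ x, nv (j x) = nu x := by
  classical
  have hpos : ∀ x, x ≠ 0 → 0 < nu x := by
    intro x hx
    obtain ⟨k, hk⟩ := h.pow x hx
    rw [hk]
    positivity
  have hnn : ∀ x, 0 ≤ nu x := by
    intro x
    by_cases hx : x = 0
    · rw [hx, h.zero]
    · exact (hpos x hx).le
  have hj0 : ∀ x, x ≠ 0 → j x ≠ 0 := fun x hx h => hx (hj (by rw [h, map_zero]))
  have h10 : (1 : R) ≠ 0 := by
    intro h1
    have := congrArg j h1
    rw [map_one, map_zero] at this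
    exact one_ne_zero this
  have hmul0 : ∀ x y : R, x ≠ 0 → y ≠ 0 → x * y ≠ 0 := by
    intro x y hx hy hxy
    have := congrArg j hxy
    rw [map_mul, map_zero] at this
    exact mul_ne_zero (hj0 x hx) (hj0 y hy) this
  have h1 : nu 1 = 1 := by
    have h2 := h.mul 1 1
    rw [mul_one] at h2
    have h3 := (hpos 1 h10).ne'
    exact (mul_left_cancel₀ h3 (by rw [mul_one]; exact h2)).symm
  -- well defined
  have hwd : ∀ (d : D) (s a s' a' : R), s ≠ 0 → s' ≠ 0 → j s * d = j a → j s' * d = j a' →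
      nu a / nu s = nu a' / nu s' := by
    intro d s a s' a' hs hs' e1 e2
    obtain ⟨u, u', hu, e3⟩ := frac_common hj hfrac s s' hs'
    have hu' : u' ≠ 0 := by
      rintro rfl
      rw [zero_mul] at e3
      exact hmul0 u s hu hs e3
    have e4 : u * a = u' * a' := by
      apply hj
      rw [map_mul, map_mul, ← e1, ← e2, ← mul_assoc, ← mul_assoc, ← map_mul, ← map_mul, e3]
    have e5 := congrArg nu e3
    have e6 := congrArg nu e4
    rw [h.mul, h.mul] at e5 e6
    have p1 := hpos u hu
    have p2 := hpos u' hu'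
    have p3 := hpos s hs
    have p4 := hpos s' hs'
    rw [div_eq_div_iff p3.ne' p4.ne']
    have e7 : nu u * nu u' * (nu a * nu s') = nu u * nu u' * (nu a' * nu s) := by
      calc nu u * nu u' * (nu a * nu s') = (nu u * nu a) * (nu u' * nu s') := by ring
        _ = (nu u' * nu a') * (nu u * nu s) := by rw [e6, e5]
        _ = nu u * nu u' * (nu a' * nu s) := by ring
    exact mul_left_cancel₀ (mul_pos p1 p2).ne' e7
  choose S hS A hA using hfrac
  have hfrac' : ∀ d : D, ∃ s : R, s ≠ 0 ∧ ∃ a, j s * d = j a := fun d => ⟨S d, hS d, A d, hA d⟩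
  set nv : D → ℝ := fun d => nu (A d) / nu (S d) with hnv
  have hval : ∀ (d : D) (s a : R), s ≠ 0 → j s * d = j a → nv d = nu a / nu s := fun d s a hs e =>
    hwd d (S d) (A d) s a (hS d) hs (hA d) e
  have hj' : ∀ x, nv (j x) = nu x := by
    intro x
    rw [hval (j x) 1 x h10 (by rw [map_one, one_mul]), h1, div_one]
  have hnn' : ∀ d, 0 ≤ nv d := fun d => div_nonneg (hnn _) (hnn _)
  have hzero : ∀ d, nv d = 0 ↔ d = 0 := by
    intro d
    constructor
    · intro hd
      have h2 : nu (A d) = 0 := by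
        rcases div_eq_zero_iff.1 hd with h3 | h3
        · exact h3
        · exact absurd h3 (hpos _ (hS d)).ne'
      have h3 : A d = 0 := by
        by_contra h4
        exact (hpos _ h4).ne' h2
      have h4 := hA d
      rw [h3, map_zero] at h4
      exact (mul_eq_zero.1 h4).resolve_left (hj0 _ (hS d))
    · rintro rfl
      have := hj' 0
      rw [map_zero, h.zero] at this
      exact this
  have hmul : ∀ d d', nv (d * d') = nv d * nv d' := by
    intro d d'
    obtain ⟨u, b, hu, e1⟩ := frac_common hj hfrac' (A d) (S d') (hS d')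
    have e2 : j (u * S d) * (d * d') = j (b * A d') := by
      calc j (u * S d) * (d * d') = j u * (j (S d) * d) * d' := by
            rw [map_mul]
            simp only [mul_assoc]
        _ = j (u * A d) * d' := by rw [hA d, map_mul]
        _ = j b * (j (S d') * d') := by rw [e1, map_mul, mul_assoc]
        _ = j (b * A d') := by rw [hA d', map_mul]
    rw [hval _ _ _ (hmul0 u _ hu (hS d)) e2, h.mul, h.mul]
    have e3 := congrArg nu e1
    rw [h.mul, h.mul] at e3
    have p1 := hpos u hu
    have p2 := hpos _ (hS d)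
    have p3 := hpos _ (hS d')
    have e4 : nu b = nu u * nu (A d) / nu (S d') := by
      rw [e3]
      field_simp
    rw [e4]
    simp only [hnv]
    field_simp
  have hmax : ∀ d d', nv (d + d') ≤ max (nv d) (nv d') := by
    intro d d'
    obtain ⟨u, u', hu, e1⟩ := frac_common hj hfrac' (S d) (S d') (hS d')
    have e2 : j (u * S d) * d = j (u * A d) := by
      rw [map_mul, mul_assoc, hA d, map_mul]
    have e3 : j (u * S d) * d' = j (u' * A d') := by
      rw [e1, map_mul, mul_assoc, hA d', map_mul]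
    have hs := hmul0 u _ hu (hS d)
    have e4 : j (u * S d) * (d + d') = j (u * A d + u' * A d') := by
      rw [mul_add, e2, e3, map_add]
    rw [hval _ _ _ hs e2, hval _ _ _ hs e3, hval _ _ _ hs e4]
    have p := hpos _ hs
    rw [max_div_div_right p.le]
    exact div_le_div_of_nonneg_right (h.add_le_max _ _) p.le
  have hinv : ∀ d, d ≠ 0 → nv d⁻¹ = (nv d)⁻¹ := by
    intro d hd
    have h2 := hmul d d⁻¹
    rw [mul_inv_cancel₀ hd] at h2
    have h3 := hj' 1
    rw [map_one, h1] at h3
    rw [h3] at h2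
    exact (inv_eq_of_mul_eq_one_right h2.symm).symm
  have hpow : ∀ d, d ≠ 0 → ∃ k : ℤ, nv d = (2⁻¹ : ℝ) ^ k := by
    intro d hd
    have hA0 : A d ≠ 0 := by
      intro h2
      have h3 := hA d
      rw [h2, map_zero] at h3
      exact mul_ne_zero (hj0 _ (hS d)) hd h3
    obtain ⟨k, hk⟩ := h.pow _ hA0
    obtain ⟨l, hl⟩ := h.pow _ (hS d)
    refine ⟨l - k, ?_⟩
    simp only [hnv]
    rw [hk, hl, ← zpow_sub₀ (by norm_num : (2 : ℝ) ≠ 0), inv_zpow', neg_sub]
  refine ⟨nv, ?_, hj'⟩
  have hdisc : ∃ ϖ : D, 0 < nv ϖ ∧ nv ϖ < 1 ∧ ∀ x, x ≠ 0 → ∃ k : ℤ, nv x = nv ϖ ^ k := by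
    obtain ⟨t, ht⟩ := h.gen
    have ht0 : t ≠ 0 := by
      rintro rfl
      rw [h.zero] at ht
      rcases ht with h2 | h2 <;> norm_num at h2
    have hex : ∃ ϖ : D, nv ϖ = 2⁻¹ := by
      rcases ht with h2 | h2
      · refine ⟨(j t)⁻¹, ?_⟩
        rw [hinv _ (hj0 t ht0), hj', h2]
      · exact ⟨j t, by rw [hj', h2]⟩
    obtain ⟨ϖ, hϖ⟩ := hex
    refine ⟨ϖ, ?_, ?_, ?_⟩
    · rw [hϖ]
      norm_num
    · rw [hϖ]
      norm_num
    · intro x hx
      rw [hϖ]
      exact hpow x hx
  exact
    { nonneg := hnn'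
      eq_zero := hzero
      mul := hmul
      add_le := fun x y => (hmax x y).trans (max_le (by linarith [hnn' y]) (by linarith [hnn' x]))
      add_le_max := hmax
      disc := hdisc }

end Pool.Agent.H36.OX
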