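import Pool.Agent.H36.OX.Base

/-!
# Project OX, module Rep: extension of `R`-automorphisms to `D`-linear maps
-/

set_option autoImplicit false

namespace Pool.Agent.H36.OX

universe u

section

variable {R D : Type u} [Ring R] [DivisionRing D] (j : R →+* D)

/-- common left denominators -/
private theorem rep_denom (hj : Function.Injective j) (hfrac : ∀ d : D, ∃ s : R, s ≠ 0 ∧ ∃ a, j s * d = j a)
    {r : ℕ} (c : Fin r → D) : ∃ s : R, s ≠ 0 ∧ ∀ k, ∃ a, j s * c k = j a := by
  induction r with
  | zero =>
    obtain ⟨s, hs, _⟩ := hfrac 0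
    exact ⟨s, hs, fun k => k.elim0⟩
  | succ r ih =>
    obtain ⟨s, hs, h1⟩ := ih (fun k => c k.castSucc)
    obtain ⟨u, hu, a, ha⟩ := hfrac (j s * c (Fin.last r))
    have hjs : j s ≠ 0 := fun h => hs (hj (by rw [h, map_zero]))
    have hju : j u ≠ 0 := fun h => hu (hj (by rw [h, map_zero]))
    refine ⟨u * s, ?_, ?_⟩
    · intro h
      have h2 : j u * j s = 0 := by rw [← map_mul, h, map_zero]
      exact mul_ne_zero hju hjs h2
    · intro k
      refine Fin.lastCases ?_ (fun k => ?_) k
      · exact ⟨a, by rw [map_mul, mul_assoc, ha]⟩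
      · obtain ⟨b, hb⟩ := h1 k
        exact ⟨u * b, by rw [map_mul, mul_assoc, hb, ← map_mul]⟩

variable {N : ℕ} {W : Type u} [AddCommGroup W] [Module R W] (f : W →ₗ[R] (Fin N → R))

/-- the map `w ↦ j (f w)` -/
private def repJf : W →+ (Fin N → D) where
  toFun w n := j (f w n)
  map_zero' := by
    funext n
    simp
  map_add' := by
    intro a b
    funext n
    simp

private theorem repJf_smul (x : R) (w : W) : repJf j f (x • w) = j x • repJf j f w := by
  funext n
  simp [repJf]

private theorem repJf_inj (hj : Function.Injective j) (hf : Function.Injective f) : Function.Injective (repJf j f) := by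
  intro a b h
  apply hf
  funext n
  apply hj
  exact congrFun h n

private theorem rep_key (hj : Function.Injective j) (hfrac : ∀ d : D, ∃ s : R, s ≠ 0 ∧ ∃ a, j s * d = j a)
    (hf : Function.Injective f) (g : W →ₗ[R] W) {r : ℕ} (v : Fin r → W) (c : Fin r → D) (w : W)
    (h : repJf j f w = ∑ k, c k • repJf j f (v k)) :
    repJf j f (g w) = ∑ k, c k • repJf j f (g (v k)) := by
  obtain ⟨s, hs, h1⟩ := rep_denom j hj hfrac c
  choose a ha using h1
  have hjs : j s ≠ 0 := fun h => hs (hj (by rw [h, map_zero]))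
  have h2 : s • w = ∑ k, a k • v k := by
    apply repJf_inj j f hj hf
    rw [repJf_smul, h, map_sum, Finset.smul_sum]
    refine Finset.sum_congr rfl fun k _ => ?_
    rw [repJf_smul, ← ha, smul_smul]
  have h3 : s • g w = ∑ k, a k • g (v k) := by
    rw [← map_smul, h2, map_sum]
    refine Finset.sum_congr rfl fun k _ => ?_
    rw [map_smul]
  have h4 : j s • repJf j f (g w) = j s • ∑ k, c k • repJf j f (g (v k)) := by
    rw [← repJf_smul, h3, map_sum, Finset.smul_sum]
    refine Finset.sum_congr rfl fun k _ => ?_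
    rw [repJf_smul, ← ha, smul_smul]
  exact smul_right_injective _ hjs h4

/-- a basis of the span among the vectors `jf w` -/
private theorem rep_basis : ∃ (r : ℕ) (v : Fin r → W), LinearIndependent D (fun k => repJf j f (v k)) ∧
    ∀ w, repJf j f w ∈ Submodule.span D (Set.range fun k => repJf j f (v k)) := by
  classical
  obtain ⟨b, hb, hspan, hli⟩ := exists_linearIndependent D (Set.range (repJf j f))
  have hfin : Finite b := hli.finite
  obtain ⟨r, ⟨e⟩⟩ := Finite.exists_equiv_fin b
  have h1 : ∀ k : Fin r, ∃ w, repJf j f w = (e.symm k : Fin N → D) := fun k => hb (e.symm k).2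
  choose v hv using h1
  have h2 : (fun k => repJf j f (v k)) = (fun x : b => (x : Fin N → D)) ∘ e.symm := by
    funext k
    exact hv k
  refine ⟨r, v, ?_, ?_⟩
  · rw [h2]
    exact hli.comp _ e.symm.injective
  · intro w
    rw [h2, Set.range_comp, e.symm.surjective.range_eq, Set.image_univ, Subtype.range_coe, hspan]
    exact Submodule.subset_span ⟨w, rfl⟩

end

theorem exists_rep {R D : Type u} [Ring R] [DivisionRing D] (j : R →+* D)
    (hj : Function.Injective j) (hfrac : ∀ d : D, ∃ s : R, s ≠ 0 ∧ ∃ a, j s * d = j a) {N : ℕ}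
    {W : Type u} [AddCommGroup W] [Module R W] (f : W →ₗ[R] (Fin N → R))
    (hf : Function.Injective f) {H : Type u} [Group H] (τ : H →* (W ≃ₗ[R] W)) :
    ∃ (r : ℕ) (ρ : H →* (Matrix (Fin r) (Fin r) D)ˣ) (κ : W →+ (Fin r → D)) (v : Fin r → W)
      (β : Fin r → Fin N → D), (∀ (x : R) w, κ (x • w) = j x • κ w) ∧
      (∀ h w, κ (τ h w) = Matrix.vecMul (κ w) (ρ h⁻¹).val) ∧
      (∀ k, κ (v k) = Pi.single k 1) ∧ (∀ w n, j (f w n) = ∑ k, κ w k * β k n) := by
  classical
  obtain ⟨r, v, hli, hsp⟩ := rep_basis j f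
  -- the coordinates
  let κ : W →+ (Fin r → D) :=
    { toFun := fun w => ⇑(hli.repr ⟨repJf j f w, hsp w⟩)
      map_zero' := by
        have h : (⟨repJf j f 0, hsp 0⟩ : Submodule.span D (Set.range fun k => repJf j f (v k))) = 0 := by
          apply Subtype.ext
          simp
        rw [h, map_zero]
        rfl
      map_add' := by
        intro a b
        have h : (⟨repJf j f (a + b), hsp (a + b)⟩ : Submodule.span D (Set.range fun k => repJf j f (v k)))
            = ⟨repJf j f a, hsp a⟩ + ⟨repJf j f b, hsp b⟩ := by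
          apply Subtype.ext
          simp
        rw [h, map_add]
        rfl }
  have hκ : ∀ w, κ w = ⇑(hli.repr ⟨repJf j f w, hsp w⟩) := fun _ => rfl
  have hsmul : ∀ (x : R) w, κ (x • w) = j x • κ w := by
    intro x w
    have h : (⟨repJf j f (x • w), hsp (x • w)⟩ : Submodule.span D (Set.range fun k => repJf j f (v k)))
        = j x • ⟨repJf j f w, hsp w⟩ := by
      apply Subtype.ext
      rw [Submodule.coe_smul]
      exact repJf_smul j f x w
    rw [hκ, hκ, h, map_smul]
    rfl
  have hsum : ∀ w, repJf j f w = ∑ k, κ w k • repJf j f (v k) := by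
    intro w
    have h := hli.linearCombination_repr ⟨repJf j f w, hsp w⟩
    rw [Finsupp.linearCombination_apply, Finsupp.sum_fintype _ _ (fun i => zero_smul D (repJf j f (v i)))] at h
    exact h.symm
  have huniq : ∀ (c : Fin r → D) (w : W), repJf j f w = ∑ k, c k • repJf j f (v k) → κ w = c := by
    intro c w h
    have h1 : ∑ k, (κ w k - c k) • repJf j f (v k) = 0 := by
      simp_rw [sub_smul]
      rw [Finset.sum_sub_distrib, ← h, ← hsum, sub_self]
    have h2 := Fintype.linearIndependent_iff.1 hli _ h1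
    funext k
    exact sub_eq_zero.1 (h2 k)
  have hsingle : ∀ k, κ (v k) = Pi.single k 1 := by
    intro k
    apply huniq
    rw [Finset.sum_eq_single k]
    · simp
    · intro b _ hb
      rw [Pi.single_eq_of_ne hb, zero_smul]
    · simp
  -- the matrices
  let M : H → Matrix (Fin r) (Fin r) D := fun h => Matrix.of fun k => κ (τ h (v k))
  have hM : ∀ h w, κ (τ h w) = Matrix.vecMul (κ w) (M h) := by
    intro h w
    apply huniq
    have h1 := rep_key j f hj hfrac hf (τ h).toLinearMap v (κ w) w (hsum w)
    have h2 : repJf j f (τ h w) = ∑ k, κ w k • repJf j f (τ h (v k)) := h1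
    rw [h2]
    calc ∑ k, κ w k • repJf j f (τ h (v k))
        = ∑ k, κ w k • ∑ l, κ (τ h (v k)) l • repJf j f (v l) :=
          Finset.sum_congr rfl fun k _ => by rw [← hsum]
      _ = ∑ k, ∑ l, (κ w k * κ (τ h (v k)) l) • repJf j f (v l) := by
          refine Finset.sum_congr rfl fun k _ => ?_
          rw [Finset.smul_sum]
          exact Finset.sum_congr rfl fun l _ => smul_smul _ _ _
      _ = ∑ l, ∑ k, (κ w k * κ (τ h (v k)) l) • repJf j f (v l) := Finset.sum_comm
      _ = ∑ l, Matrix.vecMul (κ w) (M h) l • repJf j f (v l) := by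
          refine Finset.sum_congr rfl fun l _ => ?_
          rw [← Finset.sum_smul]
          rfl
  have hM1 : M 1 = 1 := by
    ext k l
    change κ (τ 1 (v k)) l = _
    rw [map_one]
    change κ (v k) l = _
    rw [hsingle, Matrix.one_apply, Pi.single_apply]
    by_cases h : k = l
    · rw [if_pos h, if_pos h.symm]
    · rw [if_neg h, if_neg (fun h' => h h'.symm)]
  have hMm : ∀ h h', M (h * h') = M h' * M h := by
    intro h h'
    ext k l
    change κ (τ (h * h') (v k)) l = _
    rw [map_mul]
    change κ (τ h (τ h' (v k))) l = _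
    rw [hM]
    rfl
  let ρ : H →* (Matrix (Fin r) (Fin r) D)ˣ :=
    { toFun := fun h => ⟨M h⁻¹, M h, by rw [← hMm, mul_inv_cancel, hM1], by rw [← hMm, inv_mul_cancel, hM1]⟩
      map_one' := by
        apply Units.ext
        change M (1 : H)⁻¹ = 1
        rw [inv_one, hM1]
      map_mul' := by
        intro h h'
        apply Units.ext
        change M (h * h')⁻¹ = M h⁻¹ * M h'⁻¹
        rw [mul_inv_rev, hMm] }
  refine ⟨r, ρ, κ, v, fun k n => j (f (v k) n), hsmul, ?_, hsingle, ?_⟩
  · intro h w
    have h1 : (ρ h⁻¹).val = M h := by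
      change M (h⁻¹)⁻¹ = M h
      rw [inv_inv]
    rw [h1, hM]
  · intro w n
    have h1 := congrFun (hsum w) n
    rw [Finset.sum_apply] at h1
    exact h1

end Pool.Agent.H36.OX
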