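import Pool.Agent.H36.OX.Base

/-!
# Project OX: degree and order of a skew Laurent extension
-/

set_option autoImplicit false
set_option linter.style.haveILetI false

namespace Pool.Agent.H36.OX

universe u

namespace Lau

section

variable {A R : Type u} [Ring A] [Ring R] {i : A →+* R} {t : Rˣ}

/-- the coefficients -/
noncomputable def co (h : IsLaurent i t) (x : R) : ℤ →₀ A := (Equiv.ofBijective _ h.basis).symm x

lemma sum_co (h : IsLaurent i t) (x : R) :
    ((co h x).sum fun k a => i a * ((t ^ k : Rˣ) : R)) = x :=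
  (Equiv.ofBijective _ h.basis).apply_symm_apply x

lemma co_sum (h : IsLaurent i t) (f : ℤ →₀ A) :
    co h (f.sum fun k a => i a * ((t ^ k : Rˣ) : R)) = f :=
  (Equiv.ofBijective _ h.basis).symm_apply_apply f

lemma co_add (h : IsLaurent i t) (x y : R) : co h (x + y) = co h x + co h y := by
  have h1 : ((co h x + co h y).sum fun k a => i a * ((t ^ k : Rˣ) : R)) = x + y := by
    rw [Finsupp.sum_add_index' (fun k => by rw [map_zero, zero_mul])
      (fun k a b => by rw [map_add, add_mul]), sum_co, sum_co]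
  rw [← h1, co_sum]

/-- the coefficients, as a homomorphism -/
noncomputable def coHom (h : IsLaurent i t) : R →+ (ℤ →₀ A) := AddMonoidHom.mk' (co h) (co_add h)

lemma co_zero (h : IsLaurent i t) : co h 0 = 0 := (coHom h).map_zero

lemma co_monomial (h : IsLaurent i t) (a : A) (k : ℤ) :
    co h (i a * ((t ^ k : Rˣ) : R)) = Finsupp.single k a := by
  have h1 := co_sum h (Finsupp.single k a)
  rwa [Finsupp.sum_single_index (by rw [map_zero, zero_mul])] at h1

lemma co_eq_zero (h : IsLaurent i t) {x : R} (hx : co h x = 0) : x = 0 := by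
  have h1 := sum_co h x
  rw [hx, Finsupp.sum_zero_index] at h1
  exact h1.symm

lemma co_inj (h : IsLaurent i t) {x y : R} (hxy : co h x = co h y) : x = y := by
  rw [← sum_co h x, ← sum_co h y, hxy]

lemma zpow_comm {σ : A ≃+* A} (hσ : ∀ a, (t : R) * i a = i (σ a) * t) (k : ℤ) (b : A) :
    ((t ^ k : Rˣ) : R) * i b = i ((σ ^ k : RingAut A) b) * ((t ^ k : Rˣ) : R) := by
  have hinv : ∀ b, ((t⁻¹ : Rˣ) : R) * i b = i ((σ⁻¹ : RingAut A) b) * ((t⁻¹ : Rˣ) : R) := by
    intro b
    have h1 := hσ ((σ⁻¹ : RingAut A) b)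
    have h2 : σ ((σ⁻¹ : RingAut A) b) = b := σ.apply_symm_apply b
    rw [h2] at h1
    have h3 : ((t⁻¹ : Rˣ) : R) * ((t : R) * i ((σ⁻¹ : RingAut A) b)) * ((t⁻¹ : Rˣ) : R) =
        ((t⁻¹ : Rˣ) : R) * (i b * t) * ((t⁻¹ : Rˣ) : R) := by rw [h1]
    rw [← mul_assoc, Units.inv_mul, one_mul, mul_assoc, mul_assoc, Units.mul_inv, mul_one] at h3
    exact h3.symm
  induction k generalizing b with
  | zero => simp
  | succ n ih =>
    rw [zpow_add_one, zpow_add_one, Units.val_mul, mul_assoc, hσ, ← mul_assoc, ih, mul_assoc]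
    rfl
  | pred n ih =>
    rw [zpow_sub_one, zpow_sub_one, Units.val_mul, mul_assoc, hinv, ← mul_assoc, ih, mul_assoc]
    rfl

lemma monomial_mul {σ : A ≃+* A} (hσ : ∀ a, (t : R) * i a = i (σ a) * t) (k l : ℤ) (a b : A) :
    (i a * ((t ^ k : Rˣ) : R)) * (i b * ((t ^ l : Rˣ) : R)) =
      i (a * (σ ^ k : RingAut A) b) * ((t ^ (k + l) : Rˣ) : R) := by
  rw [zpow_add, Units.val_mul, map_mul, mul_assoc, ← mul_assoc ((t ^ k : Rˣ) : R) (i b),
    zpow_comm hσ]
  simp only [mul_assoc]

/-- the support of a product -/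
lemma supp_mul (h : IsLaurent i t) (x y : R) {k : ℤ} (hk : co h (x * y) k ≠ 0) :
    ∃ a b, co h x a ≠ 0 ∧ co h y b ≠ 0 ∧ a + b = k := by
  obtain ⟨σ, hσ⟩ := h.comm
  have h1 : x * y = ∑ a ∈ (co h x).support, ∑ b ∈ (co h y).support,
      i (co h x a * (σ ^ a : RingAut A) (co h y b)) * ((t ^ (a + b) : Rˣ) : R) := by
    conv_lhs => rw [← sum_co h x, ← sum_co h y]
    rw [Finsupp.sum, Finsupp.sum, Finset.sum_mul_sum]
    exact Finset.sum_congr rfl fun a _ => Finset.sum_congr rfl fun b _ => monomial_mul hσ _ _ _ _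
  by_contra hcon
  push Not at hcon
  apply hk
  have h2 : co h (x * y) = ∑ a ∈ (co h x).support, ∑ b ∈ (co h y).support,
      Finsupp.single (a + b) (co h x a * (σ ^ a : RingAut A) (co h y b)) := by
    rw [h1]
    change coHom h _ = _
    rw [map_sum]
    refine Finset.sum_congr rfl fun a _ => ?_
    rw [map_sum]
    exact Finset.sum_congr rfl fun b _ => co_monomial h _ _
  rw [h2, Finsupp.finsetSum_apply]
  refine Finset.sum_eq_zero fun a ha => ?_
  rw [Finsupp.finsetSum_apply]
  refine Finset.sum_eq_zero fun b hb => ?_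
  rw [Finsupp.single_apply, if_neg]
  exact hcon a b (Finsupp.mem_support_iff.1 ha) (Finsupp.mem_support_iff.1 hb)

/-- `m` is the degree of `x` -/
def Top (h : IsLaurent i t) (x : R) (m : ℤ) : Prop := co h x m ≠ 0 ∧ ∀ k, m < k → co h x k = 0

lemma exists_top (h : IsLaurent i t) {x : R} (hx : x ≠ 0) : ∃ m, Top h x m := by
  have h1 : (co h x).support.Nonempty := by
    rw [Finsupp.support_nonempty_iff]
    exact fun h0 => hx (co_eq_zero h h0)
  refine ⟨(co h x).support.max' h1, Finsupp.mem_support_iff.1 (Finset.max'_mem _ h1), ?_⟩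
  intro k hk
  by_contra hcon
  have := Finset.le_max' _ k (Finsupp.mem_support_iff.2 hcon)
  omega

lemma Top.unique {h : IsLaurent i t} {x : R} {m n : ℤ} (hm : Top h x m) (hn : Top h x n) :
    m = n := by
  rcases lt_trichotomy m n with h1 | h1 | h1
  · exact absurd (hm.2 n h1) hn.1
  · exact h1
  · exact absurd (hn.2 m h1) hm.1

lemma Top.le {h : IsLaurent i t} {x : R} {m k : ℤ} (hm : Top h x m) (hk : co h x k ≠ 0) :
    k ≤ m := by
  by_contra hcon
  exact hk (hm.2 k (not_le.1 hcon))

lemma Top.ne_zero {h : IsLaurent i t} {x : R} {m : ℤ} (hm : Top h x m) : x ≠ 0 := by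
  rintro rfl
  apply hm.1
  rw [co_zero]
  rfl

lemma Top.mul [IsDomain A] {h : IsLaurent i t} {x y : R} {m n : ℤ} (hm : Top h x m)
    (hn : Top h y n) : Top h (x * y) (m + n) := by
  constructor
  · obtain ⟨σ, hσ⟩ := h.comm
    obtain ⟨x', hx'⟩ : ∃ x', x' = x - i (co h x m) * ((t ^ m : Rˣ) : R) := ⟨_, rfl⟩
    obtain ⟨y', hy'⟩ : ∃ y', y' = y - i (co h y n) * ((t ^ n : Rˣ) : R) := ⟨_, rfl⟩
    have hlow : ∀ {z : R} {l : ℤ}, Top h z l → ∀ k, co h (z - i (co h z l) * ((t ^ l : Rˣ) : R)) k
        ≠ 0 → k < l := by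
      intro z l hz k hk
      have h1 : co h (z - i (co h z l) * ((t ^ l : Rˣ) : R)) =
          co h z - Finsupp.single l (co h z l) := by
        change coHom h _ = _
        rw [map_sub]
        congr 1
        exact co_monomial h _ _
      rw [h1, Finsupp.sub_apply, Finsupp.single_apply] at hk
      by_contra hcon
      rcases lt_or_eq_of_le (not_lt.1 hcon) with h2 | h2
      · rw [if_neg (by omega), sub_zero] at hk
        exact hk (hz.2 k h2)
      · subst h2
        rw [if_pos rfl, sub_self] at hk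
        exact hk rfl
    have hxe : x = x' + i (co h x m) * ((t ^ m : Rˣ) : R) := by rw [hx']; abel
    have hye : y = y' + i (co h y n) * ((t ^ n : Rˣ) : R) := by rw [hy']; abel
    have e : x * y = x' * y + i (co h x m) * ((t ^ m : Rˣ) : R) * y' +
        i (co h x m * (σ ^ m : RingAut A) (co h y n)) * ((t ^ (m + n) : Rˣ) : R) := by
      rw [← monomial_mul hσ]
      obtain ⟨p, hp⟩ : ∃ p, p = i (co h x m) * ((t ^ m : Rˣ) : R) := ⟨_, rfl⟩
      obtain ⟨q, hq⟩ : ∃ q, q = i (co h y n) * ((t ^ n : Rˣ) : R) := ⟨_, rfl⟩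
      rw [← hp] at hxe ⊢
      rw [← hq] at hye ⊢
      calc x * y = (x' + p) * y := congrArg (· * y) hxe
        _ = x' * y + p * y := add_mul _ _ _
        _ = x' * y + p * (y' + q) := congrArg (fun z => x' * y + p * z) hye
        _ = x' * y + p * y' + p * q := by rw [mul_add, add_assoc]
    have hz1 : co h (x' * y) (m + n) = 0 := by
      by_contra hcon
      obtain ⟨a, b, ha, hb, hab⟩ := supp_mul h _ _ hcon
      rw [hx'] at ha
      have := hlow hm a ha
      have := hn.le hb
      omega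
    have hz2 : co h (i (co h x m) * ((t ^ m : Rˣ) : R) * y') (m + n) = 0 := by
      by_contra hcon
      obtain ⟨a, b, ha, hb, hab⟩ := supp_mul h _ _ hcon
      rw [hy'] at hb
      have h1 := hlow hn b hb
      rw [co_monomial, Finsupp.single_apply] at ha
      have h2 : m = a := by
        by_contra hne
        rw [if_neg hne] at ha
        exact ha rfl
      omega
    rw [e, co_add, co_add, Finsupp.add_apply, Finsupp.add_apply, hz1, hz2, zero_add, zero_add,
      co_monomial, Finsupp.single_eq_same]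
    refine mul_ne_zero hm.1 fun h0 => hn.1 ?_
    exact (map_eq_zero_iff (σ ^ m : RingAut A) (σ ^ m : RingAut A).injective).1 h0
  · intro k hk
    by_contra hcon
    obtain ⟨a, b, ha, hb, hab⟩ := supp_mul h x y hcon
    have := hm.le ha
    have := hn.le hb
    omega

/-- the inverse generator -/
lemma inv (h : IsLaurent i t) : IsLaurent i t⁻¹ := by
  constructor
  · obtain ⟨σ, hσ⟩ := h.comm
    refine ⟨σ.symm, fun a => ?_⟩
    have h1 := zpow_comm hσ (-1) a
    rw [zpow_neg_one] at h1
    exact h1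
  · have h1 : (fun f : ℤ →₀ A => f.sum fun k a => i a * (((t⁻¹) ^ k : Rˣ) : R)) =
        (fun f : ℤ →₀ A => f.sum fun k a => i a * ((t ^ k : Rˣ) : R)) ∘
          Finsupp.equivMapDomain (Equiv.neg ℤ) := by
      funext f
      rw [Function.comp_apply, Finsupp.sum_equivMapDomain]
      refine Finsupp.sum_congr fun k _ => ?_
      rw [inv_zpow', Equiv.neg_apply]
    rw [h1]
    exact h.basis.comp (Finsupp.equivCongrLeft (M := A) (Equiv.neg ℤ)).bijective

lemma co_inv (h : IsLaurent i t) (x : R) (k : ℤ) : co (inv h) x k = co h x (-k) := by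
  have h1 : co (inv h) x = Finsupp.equivMapDomain (Equiv.neg ℤ) (co h x) := by
    have h2 : ((Finsupp.equivMapDomain (Equiv.neg ℤ) (co h x)).sum fun k a =>
        i a * (((t⁻¹) ^ k : Rˣ) : R)) = x := by
      rw [Finsupp.sum_equivMapDomain]
      conv_rhs => rw [← sum_co h x]
      refine Finsupp.sum_congr fun k _ => ?_
      rw [inv_zpow', Equiv.neg_apply, neg_neg]
    conv_lhs => rw [← h2]
    exact co_sum (inv h) _
  rw [h1, Finsupp.equivMapDomain_apply]
  rfl

open Classical in
/-- the degree -/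
noncomputable def deg (h : IsLaurent i t) (x : R) : ℤ :=
  if hx : x = 0 then 0 else (exists_top h hx).choose

lemma Top.deg {h : IsLaurent i t} {x : R} {m : ℤ} (hm : Top h x m) : deg h x = m := by
  unfold Lau.deg
  rw [dif_neg hm.ne_zero]
  exact (exists_top h hm.ne_zero).choose_spec.unique hm

lemma top_deg (h : IsLaurent i t) {x : R} (hx : x ≠ 0) : Top h x (deg h x) := by
  obtain ⟨m, hm⟩ := exists_top h hx
  rw [hm.deg]
  exact hm

lemma top_monomial {h : IsLaurent i t} {a : A} (ha : a ≠ 0) (k : ℤ) :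
    Top h (i a * ((t ^ k : Rˣ) : R)) k := by
  constructor
  · rw [co_monomial, Finsupp.single_eq_same]
    exact ha
  · intro l hl
    rw [co_monomial, Finsupp.single_apply, if_neg (by omega)]

lemma isDeg [IsDomain A] (h : IsLaurent i t) : IsDeg (deg h) where
  mul := by
    intro x y hx hy
    have h1 := (top_deg h hx).mul (top_deg h hy)
    exact ⟨h1.ne_zero, h1.deg⟩
  add := by
    intro x y hx hy hxy
    have hm := top_deg h hx
    have hn := top_deg h hy
    have hl := top_deg h hxy
    by_contra hcon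
    rw [not_le, max_lt_iff] at hcon
    apply hl.1
    rw [co_add, Finsupp.add_apply, hm.2 _ hcon.1, hn.2 _ hcon.2, add_zero]
  one := by
    have h1 := top_monomial (h := h) (one_ne_zero (α := A)) 1
    exact ⟨_, h1.ne_zero, h1.deg⟩

/-- the elements with support in `[-n, n]` -/
lemma exists_fin (h : IsLaurent i t) (n : ℕ) (x : R)
    (hx : ∀ k, co h x k ≠ 0 → -(n : ℤ) ≤ k ∧ k ≤ n) :
    ∃ f : Fin (2 * n + 1) → A, x = ∑ k, i (f k) * ((t ^ ((k : ℤ) - n) : Rˣ) : R) := by
  refine ⟨fun k => co h x ((k : ℤ) - n), ?_⟩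
  apply co_inj h
  change _ = coHom h _
  rw [map_sum]
  ext l
  rw [Finsupp.finsetSum_apply]
  have h1 : ∀ k : Fin (2 * n + 1),
      coHom h (i (co h x ((k : ℤ) - n)) * ((t ^ ((k : ℤ) - n) : Rˣ) : R)) l =
        if (k : ℤ) - n = l then co h x l else 0 := by
    intro k
    change co h _ l = _
    rw [co_monomial, Finsupp.single_apply]
    split_ifs with hk
    · rw [hk]
    · rfl
  simp only [h1]
  by_cases hl : -(n : ℤ) ≤ l ∧ l ≤ n
  · rw [Finset.sum_eq_single (⟨(l + n).toNat, by omega⟩ : Fin (2 * n + 1))]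
    · rw [if_pos]
      simp only
      omega
    · intro k _ hk
      rw [if_neg]
      intro hcon
      apply hk
      ext
      simp only
      omega
    · intro hcon
      exact absurd (Finset.mem_univ _) hcon
  · rw [Finset.sum_eq_zero]
    · by_contra hcon
      exact hl (hx l hcon)
    · intro k _
      rw [if_neg]
      have := k.2
      omega

lemma fin_free (h : IsLaurent i t) (n : ℕ) (f : Fin (2 * n + 1) → A)
    (hf : ∑ k, i (f k) * ((t ^ ((k : ℤ) - n) : Rˣ) : R) = 0) : f = 0 := by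
  funext k
  have h1 := congrArg (fun x => co h x ((k : ℤ) - n)) hf
  simp only [co_zero] at h1
  change coHom h _ _ = _ at h1
  rw [map_sum, Finsupp.finsetSum_apply, Finset.sum_eq_single k] at h1
  · change co h _ _ = _ at h1
    rwa [co_monomial, Finsupp.single_eq_same] at h1
  · intro l _ hl
    change co h _ _ = _
    rw [co_monomial, Finsupp.single_apply, if_neg]
    intro hcon
    apply hl
    ext
    omega
  · intro hcon
    exact absurd (Finset.mem_univ _) hcon

/-- the support of a sum over `[-n, n]` -/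
lemma supp_fin (h : IsLaurent i t) (n : ℕ) (f : Fin (2 * n + 1) → A) (k : ℤ)
    (hk : co h (∑ k, i (f k) * ((t ^ ((k : ℤ) - n) : Rˣ) : R)) k ≠ 0) :
    -(n : ℤ) ≤ k ∧ k ≤ n := by
  by_contra hcon
  apply hk
  change coHom h _ _ = _
  rw [map_sum, Finsupp.finsetSum_apply]
  refine Finset.sum_eq_zero fun l _ => ?_
  change co h _ _ = _
  rw [co_monomial, Finsupp.single_apply, if_neg]
  have := l.2
  omega

/-- `2 n + 1` grows subexponentially -/
lemma growth (e : ℝ) (he : 1 < e) : ∃ C : ℝ, ∀ n : ℕ, ((2 * n + 1 : ℕ) : ℝ) ≤ C * e ^ n := by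
  refine ⟨1 + 2 / (e - 1), fun n => ?_⟩
  have h0 : 0 < e - 1 := by linarith
  have h1 : 1 + (n : ℝ) * (e - 1) ≤ e ^ n := by
    have := one_add_mul_le_pow (a := e - 1) (by linarith) n
    simpa using this
  have h2 : (1 : ℝ) ≤ e ^ n := one_le_pow₀ he.le
  have h3 : 2 / (e - 1) * ((n : ℝ) * (e - 1)) = 2 * n := by
    field_simp
  have h4 : 2 / (e - 1) * ((n : ℝ) * (e - 1)) ≤ 2 / (e - 1) * e ^ n :=
    mul_le_mul_of_nonneg_left (by linarith) (by positivity)
  push_cast
  nlinarith

end

end Lau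

open Lau

/-- **A skew Laurent extension has two degree functions with free balls.** -/
theorem IsLaurent.deg {A R : Type u} [Ring A] [IsDomain A] [Ring R] {i : A →+* R} {t : Rˣ}
    (h : IsLaurent i t) : ∃ d₁ d₂ : R → ℤ, IsDeg d₁ ∧ IsDeg d₂ ∧ IsFree i d₁ d₂ := by
  refine ⟨Lau.deg h, Lau.deg (inv h), isDeg h, isDeg (inv h), fun n => 2 * n + 1,
    fun n k => ((t ^ ((k : ℤ) - n) : Rˣ) : R), fun n f hf => fin_free h n f hf, ?_,
    fun e he => growth e he⟩
  intro n x
  constructor
  · intro hx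
    apply exists_fin h n x
    intro k hk
    have hx0 : x ≠ 0 := by
      rintro rfl
      rw [co_zero] at hk
      exact hk rfl
    obtain ⟨h1, h2⟩ := hx.resolve_left hx0
    have h5 := (top_deg h hx0).le hk
    have h6 : -k ≤ Lau.deg (inv h) x := by
      apply (top_deg (inv h) hx0).le
      rw [co_inv, neg_neg]
      exact hk
    omega
  · rintro ⟨f, hf⟩
    by_cases hx0 : x = 0
    · exact Or.inl hx0
    · right
      have h1 := (top_deg h hx0).1
      have h2 := (top_deg (inv h) hx0).1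
      rw [co_inv] at h2
      have h3 := supp_fin h n f (Lau.deg h x) (by rw [← hf]; exact h1)
      have h4 := supp_fin h n f (-Lau.deg (inv h) x) (by rw [← hf]; exact h2)
      omega

theorem IsDeg.isDomain {R : Type u} [Ring R] {d : R → ℤ} (h : IsDeg d) : IsDomain R := by
  obtain ⟨t, ht, -⟩ := h.one
  haveI : Nontrivial R := ⟨t, 0, ht⟩
  haveI : NoZeroDivisors R := ⟨fun {x y} hxy => by
    by_contra hcon
    push Not at hcon
    exact (h.mul x y hcon.1 hcon.2).1 hxy⟩
  exact NoZeroDivisors.to_isDomain R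

theorem OreTower.isDomain {R : Type u} [Ring R] (h : OreTower R) : IsDomain R := by
  induction h with
  | comm R h => infer_instance
  | almost R d h h0 hc hO => exact h.isDomain
  | deg A R i d₁ d₂ h₁ h₂ h hA ih => exact h₁.isDomain
  | union R J A hdir htop hsat h ih =>
    have j₀ : _ := Classical.arbitrary J
    haveI : Nontrivial R := by
      haveI := ih j₀
      exact ⟨0, 1, fun h => zero_ne_one (α := A j₀) (Subtype.ext h)⟩
    haveI : NoZeroDivisors R := ⟨fun {x y} hxy => by
      obtain ⟨j, hj⟩ := htop x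
      obtain ⟨k, hk⟩ := htop y
      obtain ⟨l, h1, h2⟩ := hdir j k
      haveI := ih l
      have h3 : (⟨x, h1 hj⟩ : A l) * ⟨y, h2 hk⟩ = 0 := Subtype.ext hxy
      rcases mul_eq_zero.1 h3 with h4 | h4
      · exact Or.inl (congrArg Subtype.val h4)
      · exact Or.inr (congrArg Subtype.val h4)⟩
    exact NoZeroDivisors.to_isDomain R

theorem OreTower.laurent (A R : Type u) [Ring A] [Ring R] (i : A →+* R) (t : Rˣ)
    (h : IsLaurent i t) (hA : OreTower A) : OreTower R := by
  haveI := hA.isDomain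
  obtain ⟨d₁, d₂, h₁, h₂, h₃⟩ := h.deg
  exact OreTower.deg A R i d₁ d₂ h₁ h₂ h₃ hA

end Pool.Agent.H36.OX
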