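import Pool.Agent.H36.OX.Grow
import Pool.Agent.H36.OX.Lau

/-!
# Project OX: extensions with degree functions

`deg_main`: `R` with two degree functions such that `R n = {d₁, d₂ ≤ n}` is free over `A` of subexponential rank:
`nu = 2 ^ d`; `R n * y ⊆ R (n + e)` if `d₁ y, d₂ y ≤ e`; `src_of_growth`.
-/

set_option autoImplicit false

namespace Pool.Agent.H36.OX

open Pool.Agent.H66.NCL

universe u

theorem IsVal.pos {R : Type u} [Ring R] {nu : R → ℝ} (h : IsVal nu) {x : R} (hx : x ≠ 0) :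
    0 < nu x := by
  obtain ⟨k, hk⟩ := h.pow x hx
  rw [hk]
  positivity

theorem IsVal.exists_le {R : Type u} [Ring R] (nu : R → ℝ) (x : R) :
    ∃ d : ℕ, nu x ≤ 2 ^ d := by
  obtain ⟨d, hd⟩ := pow_unbounded_of_one_lt (nu x) (by norm_num : (1 : ℝ) < 2)
  exact ⟨d, hd.le⟩

theorem IsVal.nonneg {R : Type u} [Ring R] {nu : R → ℝ} (h : IsVal nu) (x : R) : 0 ≤ nu x := by
  by_cases hx : x = 0
  · rw [hx, h.zero]
  · exact (h.pos hx).le

/-- subexponential functions -/
private theorem val_growth (m : ℕ → ℕ) (hpos : ∀ n, 0 < m n)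
    (hm : ∀ e : ℝ, 1 < e → ∃ C : ℝ, ∀ n, (m n : ℝ) ≤ C * e ^ n) (d p q : ℕ) (hqp : q < p) :
    ∃ n, q * m (n + d) < p * m n := by
  by_contra hcon
  push Not at hcon
  rcases Nat.eq_zero_or_pos q with rfl | hq
  · have h1 := hcon 0
    rw [zero_mul] at h1
    have h2 : 0 < p * m 0 := Nat.mul_pos hqp (hpos 0)
    omega
  have hq' : (0 : ℝ) < q := by exact_mod_cast hq
  obtain ⟨r, hr⟩ : ∃ r : ℝ, r = (p : ℝ) / q := ⟨_, rfl⟩
  have hr1 : 1 < r := by
    rw [hr, one_lt_div hq']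
    exact_mod_cast hqp
  have hstep : ∀ n, r * m n ≤ m (n + d) := by
    intro n
    have h1 := hcon n
    have h2 : (p : ℝ) * m n ≤ q * m (n + d) := by exact_mod_cast h1
    rw [hr, div_mul_eq_mul_div, div_le_iff₀ hq']
    linarith
  have hiter : ∀ k : ℕ, r ^ k ≤ m (k * d) := by
    intro k
    induction k with
    | zero =>
      rw [pow_zero, zero_mul]
      have := hpos 0
      exact_mod_cast this
    | succ k ih =>
      rw [pow_succ, Nat.succ_mul]
      refine le_trans ?_ (hstep (k * d))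
      rw [mul_comm]
      exact mul_le_mul_of_nonneg_left ih (by linarith)
  rcases Nat.eq_zero_or_pos d with rfl | hd
  · obtain ⟨k, hk⟩ := pow_unbounded_of_one_lt ((m 0 : ℝ)) hr1
    have h1 := hiter k
    rw [mul_zero] at h1
    linarith
  · have hd0 : (0 : ℝ) < d := by exact_mod_cast hd
    obtain ⟨e, he⟩ : ∃ e : ℝ, e = r ^ (1 / (2 * d) : ℝ) := ⟨_, rfl⟩
    have he1 : 1 < e := by
      rw [he]
      exact Real.one_lt_rpow hr1 (by positivity)
    have hed : e ^ (2 * d) = r := by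
      rw [he, ← Real.rpow_natCast, ← Real.rpow_mul (by linarith)]
      push_cast
      rw [one_div, inv_mul_cancel₀ (by positivity), Real.rpow_one]
    obtain ⟨C, hC⟩ := hm e he1
    have hed1 : 1 < e ^ d := one_lt_pow₀ he1 (by omega)
    obtain ⟨k, hk⟩ := pow_unbounded_of_one_lt C hed1
    have h1 := hiter k
    have h2 := hC (k * d)
    have h3 : r ^ k = (e ^ d) ^ k * e ^ (k * d) := by
      rw [← hed, ← pow_mul, ← pow_mul, ← pow_add]
      congr 1
      ring
    have h4 : (e ^ d) ^ k * e ^ (k * d) ≤ C * e ^ (k * d) := by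
      rw [← h3]
      exact h1.trans h2
    have h5 : (e ^ d) ^ k ≤ C := le_of_mul_le_mul_right h4 (by positivity)
    linarith

/-- the absolute value of a degree function -/
noncomputable def degNu {R : Type u} [Ring R] (d : R → ℤ) (x : R) : ℝ :=
  open Classical in if x = 0 then 0 else 2 ^ d x

theorem degNu_zero {R : Type u} [Ring R] (d : R → ℤ) : degNu d 0 = 0 := if_pos rfl

theorem degNu_ne {R : Type u} [Ring R] (d : R → ℤ) {x : R} (hx : x ≠ 0) : degNu d x = 2 ^ d x :=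
  if_neg hx

theorem IsDeg.isVal {R : Type u} [Ring R] {d : R → ℤ} (h : IsDeg d) : IsVal (degNu d) where
  zero := degNu_zero d
  pow := fun x hx => ⟨d x, degNu_ne d hx⟩
  mul := by
    intro x y
    by_cases hx : x = 0
    · rw [hx, zero_mul, degNu_zero, zero_mul]
    by_cases hy : y = 0
    · rw [hy, mul_zero, degNu_zero, mul_zero]
    obtain ⟨h1, h2⟩ := h.mul x y hx hy
    rw [degNu_ne d hx, degNu_ne d hy, degNu_ne d h1, h2, zpow_add₀ (by norm_num)]
  add_le_max := by
    intro x y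
    have hnn : ∀ x, 0 ≤ degNu d x := by
      intro x
      by_cases hx : x = 0
      · rw [hx, degNu_zero]
      · rw [degNu_ne d hx]
        positivity
    by_cases hx : x = 0
    · rw [hx, zero_add]
      exact le_max_right _ _
    by_cases hy : y = 0
    · rw [hy, add_zero]
      exact le_max_left _ _
    by_cases hxy : x + y = 0
    · rw [hxy, degNu_zero]
      exact (hnn x).trans (le_max_left _ _)
    rw [degNu_ne d hx, degNu_ne d hy, degNu_ne d hxy]
    rcases le_max_iff.1 (h.add x y hx hy hxy) with h1 | h1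
    · exact le_max_of_le_left (zpow_le_zpow_right₀ (by norm_num) h1)
    · exact le_max_of_le_right (zpow_le_zpow_right₀ (by norm_num) h1)
  gen := by
    obtain ⟨t, ht, h1⟩ := h.one
    exact ⟨t, Or.inl (by rw [degNu_ne d ht, h1, zpow_one])⟩

theorem degNu_le {R : Type u} [Ring R] (d : R → ℤ) (x : R) (n : ℕ) :
    degNu d x ≤ 2 ^ n ↔ x = 0 ∨ d x ≤ n := by
  by_cases hx : x = 0
  · rw [hx, degNu_zero]
    simp
  · rw [degNu_ne d hx, ← zpow_natCast, zpow_le_zpow_iff_right₀ (by norm_num)]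
    simp [hx]

theorem deg_main {A R : Type u} [Ring A] [Ring R] {i : A →+* R} {d₁ d₂ : R → ℤ} (h₁ : IsDeg d₁)
    (h₂ : IsDeg d₂) (h : IsFree i d₁ d₂) (hs : StrongRankCondition A) :
    IsDomain R ∧ StrongRankCondition R ∧ ∃ nu₁ nu₂ : R → ℝ, IsVal nu₁ ∧ IsVal nu₂ ∧
      IsProper i nu₁ nu₂ := by
  obtain ⟨m, b, hfree, hb', hm⟩ := h
  have h1 := h₁.isVal
  have h2 := h₂.isVal
  have hb : ∀ (n : ℕ) (x : R), (degNu d₁ x ≤ 2 ^ n ∧ degNu d₂ x ≤ 2 ^ n) ↔
      ∃ f : Fin (m n) → A, x = ∑ k, i (f k) * b n k := by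
    intro n x
    rw [degNu_le, degNu_le, ← hb' n x]
    tauto
  have hdom : IsDomain R := h₁.isDomain
  have hone : ∀ {nu : R → ℝ}, IsVal nu → nu 1 = 1 := by
    intro nu h
    have h3 := h.mul 1 1
    rw [mul_one] at h3
    have h4 := h.pos (one_ne_zero : (1 : R) ≠ 0)
    nlinarith
  have hpos : ∀ n, 0 < m n := by
    intro n
    rcases Nat.eq_zero_or_pos (m n) with h0 | h0
    · exfalso
      have h3 : degNu d₁ (1 : R) ≤ 2 ^ n ∧ degNu d₂ (1 : R) ≤ 2 ^ n := by
        rw [hone h1, hone h2]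
        exact ⟨one_le_pow₀ (by norm_num), one_le_pow₀ (by norm_num)⟩
      obtain ⟨f, hf⟩ := (hb n 1).1 h3
      have : IsEmpty (Fin (m n)) := by
        rw [h0]
        infer_instance
      rw [Finset.univ_eq_empty, Finset.sum_empty] at hf
      exact one_ne_zero hf
    · exact h0
  have hle : ∀ a : A, degNu d₁ (i a) ≤ 1 ∧ degNu d₂ (i a) ≤ 1 := by
    intro a
    obtain ⟨f, hf⟩ := (hb 0 1).1 ⟨by rw [hone h1]; norm_num, by rw [hone h2]; norm_num⟩
    have h3 : ∃ f : Fin (m 0) → A, i a = ∑ k, i (f k) * b 0 k := by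
      refine ⟨fun k => a * f k, ?_⟩
      conv_lhs => rw [← mul_one (i a), hf, Finset.mul_sum]
      exact Finset.sum_congr rfl fun k _ => by rw [map_mul, mul_assoc]
    have h4 := (hb 0 (i a)).2 h3
    rwa [pow_zero] at h4
  refine ⟨hdom, ?_, degNu d₁, degNu d₂, h1, h2, fun a => (hle a).1, fun a => (hle a).2, ?_⟩
  · refine src_of_growth i m b hfree ?_ (val_growth m hpos hm)
    intro y
    obtain ⟨e₁, he₁⟩ := IsVal.exists_le (degNu d₁) y
    obtain ⟨e₂, he₂⟩ := IsVal.exists_le (degNu d₂) y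
    refine ⟨max e₁ e₂, fun e he n f => ?_⟩
    apply (hb (n + e) _).1
    obtain ⟨h3, h4⟩ := (hb n _).2 ⟨f, rfl⟩
    rw [h1.mul, h2.mul, pow_add]
    have h5 : degNu d₁ y ≤ 2 ^ e :=
      he₁.trans (pow_le_pow_right₀ (by norm_num) ((le_max_left _ _).trans he))
    have h6 : degNu d₂ y ≤ 2 ^ e :=
      he₂.trans (pow_le_pow_right₀ (by norm_num) ((le_max_right _ _).trans he))
    exact ⟨mul_le_mul h3 h5 (h1.nonneg _) (by positivity),
      mul_le_mul h4 h6 (h2.nonneg _) (by positivity)⟩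
  · intro C
    obtain ⟨n, hn⟩ := pow_unbounded_of_one_lt C (by norm_num : (1 : ℝ) < 2)
    exact ⟨m n, b n, hfree n, fun x hx1 hx2 => (hb n x).1 ⟨hx1.trans hn.le, hx2.trans hn.le⟩⟩

end Pool.Agent.H36.OX
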