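import Pool.Agent.H36.OX.Lat
import Pool.Agent.H36.OX.Val
import Pool.Agent.H36.OX.Rep
import Pool.Agent.H36.OX.Frac
import Pool.Agent.H36.OX.AlmA
import Pool.Agent.H36.OX.AlmB
import Pool.Agent.H36.OX.AlmC
import Pool.Agent.H66.NCL.Fields
import Pool.Agent.H66.NCL.Ext

/-!
# Almost commutative domains
-/

set_option autoImplicit false

namespace Pool.Agent.H36.OX

open Pool.Agent.H66.NCL

universe u

section
variable {D : Type u} [DivisionRing D] {nv : D → ℝ}

private theorem al_one (h : IsUltra nv) : nv 1 = 1 := by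
  have h1 : nv 1 ≠ 0 := fun hh => one_ne_zero ((h.eq_zero 1).mp hh)
  exact mul_right_cancel₀ h1 (by rw [← h.mul, one_mul, one_mul])

private theorem al_pow (h : IsUltra nv) (x : D) (n : ℕ) : nv (x ^ n) = nv x ^ n := by
  induction n with
  | zero => rw [pow_zero, pow_zero, al_one h]
  | succ n ih => rw [pow_succ, pow_succ, h.mul, ih]

private theorem al_sum (h : IsUltra nv) {α : Type*} (s : Finset α) (f : α → D) {C : ℝ}
    (hC : 0 ≤ C) (hf : ∀ x ∈ s, nv (f x) ≤ C) : nv (∑ x ∈ s, f x) ≤ C := by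
  classical
  induction s using Finset.induction_on with
  | empty => rw [Finset.sum_empty, (h.eq_zero 0).mpr rfl]; exact hC
  | insert a s ha ih =>
    rw [Finset.sum_insert ha]
    refine (h.add_le_max _ _).trans (max_le (hf a (Finset.mem_insert_self _ _)) ?_)
    exact ih fun x hx => hf x (Finset.mem_insert_of_mem hx)

end

theorem almost_pm {R D : Type u} [Ring R] [DivisionRing D] (j : R →+* D)
    (hj : Function.Injective j) (hfrac : ∀ d : D, ∃ s : R, s ≠ 0 ∧ ∃ a, j s * d = j a)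
    (nv : D → ℝ) (hD : IsDisc nv) (h1 : ∀ x : R, x ≠ 0 → 1 ≤ nv (j x))
    (hc : ∀ x y : D, x ≠ 0 → y ≠ 0 → nv (x * y - y * x) < nv x * nv y) : PM R := by
  classical
  intro N W _ _ f hf H _ τ hτ
  obtain ⟨r, ρ, κ, v, β, hκs, hκτ, hκv, hβ⟩ := exists_rep j hj hfrac f hf τ
  have hU : IsUltra nv := hD.toIsUltra
  obtain ⟨ϖ, hϖ0, hϖ1, hd⟩ := hD.disc
  have hϖ : ϖ ≠ 0 := fun hh => by
    rw [hh, (hU.eq_zero 0).mpr rfl] at hϖ0
    exact lt_irrefl _ hϖ0
  refine ce_of_lat hD ρ fun M hM => ?_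
  obtain ⟨K, _, m, θ, hθ⟩ := exists_residue hU ϖ hϖ0 hϖ1 hd hc ρ M hM
  refine CE.extension θ (P_field K m) ?_
  -- the kernel
  obtain ⟨b, hb0, hb⟩ := hM.ball
  obtain ⟨C, hC⟩ := hM.bdd
  obtain ⟨p, hp⟩ := exists_pow_lt_of_lt_one hb0 hϖ1
  -- `κ w ∈ ϖ ^ (i - p) M`
  let F' : ℕ → AddSubgroup W := fun i =>
    { carrier := {w | ∃ y ∈ M, ϖ ^ p • κ w = ϖ ^ i • y}
      zero_mem' := ⟨0, M.zero_mem, by rw [map_zero, smul_zero, smul_zero]⟩
      add_mem' := by
        rintro a c ⟨y, hy, hy'⟩ ⟨z, hz, hz'⟩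
        exact ⟨y + z, M.add_mem hy hz, by rw [map_add, smul_add, smul_add, hy', hz']⟩
      neg_mem' := by
        rintro a ⟨y, hy, hy'⟩
        exact ⟨-y, M.neg_mem hy, by rw [map_neg, smul_neg, smul_neg, hy']⟩ }
  have hF' : ∀ i w, w ∈ F' i ↔ ∃ y ∈ M, ϖ ^ p • κ w = ϖ ^ i • y := fun _ _ => Iff.rfl
  let W' : AddSubgroup W := F' 0
  have hanti' : Antitone F' := by
    intro i i' hii w hw
    obtain ⟨y, hy, hy'⟩ := (hF' _ _).mp hw
    refine (hF' _ _).mpr ⟨ϖ ^ (i' - i) • y, hM.smul _ ?_ _ hy, ?_⟩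
    · rw [al_pow hU]
      exact pow_le_one₀ hϖ0.le hϖ1.le
    · rw [smul_smul, ← pow_add, Nat.add_sub_cancel' hii, hy']
  -- the stabilizer preserves `F' i`
  have hstab : ∀ (s : stabL ρ M) (i : ℕ) (w : W), w ∈ F' i → τ s.1 w ∈ F' i := by
    rintro s i w ⟨y, hy, hy'⟩
    refine ⟨Matrix.vecMul y (ρ s.1⁻¹).val, ((stabL ρ M).inv_mem s.2 _).mpr hy, ?_⟩
    rw [hκτ, ← Matrix.smul_vecMul, hy', Matrix.smul_vecMul]
  have hker : ∀ (s : θ.ker) (i : ℕ) (w : W), w ∈ F' i → τ s.1.1 w - w ∈ F' (i + 1) := by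
    rintro s i w ⟨y, hy, hy'⟩
    have hs : θ s.1⁻¹ = 1 := by
      rw [map_inv, show θ s.1 = 1 from s.2, inv_one]
    obtain ⟨z, hz, hz'⟩ := hθ s.1⁻¹ hs y hy
    refine ⟨z, hz, ?_⟩
    have h3 : (ρ (s.1⁻¹ : stabL ρ M).1).val = (ρ (s.1.1)⁻¹).val := by
      rw [Subgroup.coe_inv]
    rw [h3] at hz'
    rw [map_sub, hκτ, smul_sub, ← Matrix.smul_vecMul, hy', Matrix.smul_vecMul, ← smul_sub, hz',
      smul_smul, pow_succ]
  have hinv : ∀ (s : θ.ker) (w : W), τ (s⁻¹ : θ.ker).1.1 (τ s.1.1 w) = w := by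
    intro s w
    have h3 : (τ (s⁻¹ : θ.ker).1.1 * τ s.1.1) w = w := by
      rw [← map_mul]
      have h4 : (s⁻¹ : θ.ker).1.1 * s.1.1 = 1 := by
        rw [Subgroup.coe_inv, Subgroup.coe_inv, inv_mul_cancel]
      rw [h4, map_one]
      rfl
    exact h3
  have hinv' : ∀ (s : θ.ker) (w : W), τ s.1.1 (τ (s⁻¹ : θ.ker).1.1 w) = w := by
    intro s w
    have h3 := hinv s⁻¹ w
    rwa [inv_inv] at h3
  let τ' : θ.ker →* (W' ≃ₗ[ℤ] W') :=
    { toFun := fun s =>
        AddEquiv.toIntLinearEquiv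
        { toFun := fun w => ⟨τ s.1.1 w.1, hstab s.1 0 w.1 w.2⟩
          map_add' := fun a b => Subtype.ext (map_add (τ s.1.1) a.1 b.1)
          invFun := fun w => ⟨τ (s⁻¹ : θ.ker).1.1 w.1, hstab (s⁻¹ : θ.ker).1 0 w.1 w.2⟩
          left_inv := fun w => Subtype.ext (hinv s w.1)
          right_inv := fun w => Subtype.ext (hinv' s w.1) }
      map_one' := by
        ext w
        show τ (1 : θ.ker).1.1 w.1 = w.1
        rw [Subgroup.coe_one, Subgroup.coe_one, map_one]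
        rfl
      map_mul' := fun a b => by
        ext w
        show τ (a * b : θ.ker).1.1 w.1 = τ a.1.1 (τ b.1.1 w.1)
        rw [Subgroup.coe_mul, Subgroup.coe_mul, map_mul]
        rfl }
  have hτ'1 : ∀ (s : θ.ker) (w : W'), (τ' s w).1 = τ s.1.1 w.1 := fun _ _ => rfl
  have hv : ∀ k, v k ∈ W' := by
    intro k
    refine ⟨ϖ ^ p • κ (v k), ?_, by rw [pow_zero, one_smul]⟩
    rw [hκv]
    refine hb _ fun i => ?_
    show nv (ϖ ^ p * (Pi.single k 1 : Fin r → D) i) ≤ b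
    by_cases hik : i = k
    · rw [hik, Pi.single_eq_same, mul_one, al_pow hU]
      exact hp.le
    · rw [Pi.single_eq_of_ne hik, mul_zero, (hU.eq_zero 0).mpr rfl]
      exact hb0.le
  have hτ' : Function.Injective τ' := by
    intro s s' hss
    have h3 : ∀ k, τ s.1.1 (v k) = τ s'.1.1 (v k) := by
      intro k
      have h4 := congrArg (fun z : W' ≃ₗ[ℤ] W' => (z ⟨v k, hv k⟩).1) hss
      exact h4
    have h5 : (ρ (s.1.1)⁻¹).val = (ρ (s'.1.1)⁻¹).val := by
      ext k l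
      have h6 := congrArg κ (h3 k)
      rw [hκτ, hκτ, hκv, Matrix.single_one_vecMul, Matrix.single_one_vecMul] at h6
      exact congrFun h6 l
    refine Subtype.ext (Subtype.ext (hτ (LinearEquiv.ext fun w => hf (funext fun n => hj ?_))))
    rw [hβ, hβ, hκτ, hκτ, h5]
  -- the filtration is finite: `κ w` small forces `w = 0`
  obtain ⟨B, hB0, hB⟩ : ∃ B : ℝ, 0 < B ∧ ∀ k n, nv (β k n) ≤ B := by
    refine ⟨1 + ∑ k, ∑ n, nv (β k n), ?_, fun k n => ?_⟩
    · have : 0 ≤ ∑ k, ∑ n, nv (β k n) :=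
        Finset.sum_nonneg fun i _ => Finset.sum_nonneg fun j _ => hU.nonneg _
      linarith
    · have h3 : nv (β k n) ≤ ∑ n, nv (β k n) :=
        Finset.single_le_sum (f := fun n => nv (β k n)) (fun j _ => hU.nonneg _) (Finset.mem_univ n)
      have h4 : ∑ n, nv (β k n) ≤ ∑ k, ∑ n, nv (β k n) :=
        Finset.single_le_sum (f := fun k => ∑ n, nv (β k n))
          (fun i _ => Finset.sum_nonneg fun j _ => hU.nonneg _) (Finset.mem_univ k)
      linarith
  have hC0 : 0 < |C| + 1 := by positivity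
  obtain ⟨q, hq⟩ := exists_pow_lt_of_lt_one (show (0 : ℝ) < 1 / ((|C| + 1) * B) by positivity) hϖ1
  have hbot : ∀ w, w ∈ F' (p + q) → w = 0 := by
    rintro w ⟨y, hy, hy'⟩
    have h3 : κ w = ϖ ^ q • y := by
      have h4 : (ϖ ^ p)⁻¹ • (ϖ ^ p • κ w) = (ϖ ^ p)⁻¹ • (ϖ ^ (p + q) • y) := by rw [hy']
      rw [smul_smul, smul_smul, inv_mul_cancel₀ (pow_ne_zero _ hϖ), one_smul, pow_add,
        inv_mul_cancel_left₀ (pow_ne_zero _ hϖ)] at h4
      exact h4
    apply hf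
    rw [map_zero]
    funext n
    by_contra hne
    have h5 := h1 _ hne
    rw [hβ] at h5
    have h6 : nv (∑ k, κ w k * β k n) ≤ nv ϖ ^ q * (|C| + 1) * B := by
      refine al_sum hU _ _ (by positivity) fun k _ => ?_
      rw [hU.mul, h3]
      show nv (ϖ ^ q * y k) * _ ≤ _
      rw [hU.mul, al_pow hU]
      have h7 : nv (y k) ≤ |C| + 1 := by
        have := (hC y hy k).trans (le_abs_self C)
        linarith
      refine mul_le_mul (mul_le_mul_of_nonneg_left h7 (by positivity)) (hB k n) (hU.nonneg _)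
        (by positivity)
    have h8 : nv ϖ ^ q * (|C| + 1) * B < 1 := by
      rw [lt_div_iff₀ (by positivity)] at hq
      rw [mul_assoc]
      exact hq
    linarith
  refine ce_of_unipotent τ' hτ' (fun i => (F' i).comap W'.subtype) (p + q) ?_ ?_ ?_ ?_
  · ext w
    exact ⟨fun _ => AddSubgroup.mem_top w, fun _ => w.2⟩
  · ext w
    constructor
    · intro hw
      exact (AddSubgroup.mem_bot).mpr (Subtype.ext (hbot _ hw))
    · intro hw
      rw [AddSubgroup.mem_bot] at hw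
      rw [hw]
      exact AddSubgroup.zero_mem _
  · intro i i' hii w hw
    exact hanti' hii hw
  · intro s i w hw
    exact hker s i w.1 hw

theorem almost_main {R : Type u} [Ring R] {d : R → ℤ} (h : IsDeg d) (h0 : ∀ x, x ≠ 0 → 0 ≤ d x)
    (hc : ∀ x y, x * y ≠ y * x → d (x * y - y * x) < d x + d y)
    (hO : ∀ x y : R, y ≠ 0 → ∃ u v, v ≠ 0 ∧ v * x = u * y) :
    IsDomain R ∧ StrongRankCondition R ∧ PM R := by
  have hdom : IsDomain R := h.isDomain
  have hs := src_of_ore hO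
  obtain ⟨D, _, j, hj, hfrac⟩ := exists_frac R
  obtain ⟨nv, hnv, hnvj⟩ := exists_nv j hj hfrac _ h.isVal
  refine ⟨hdom, hs, almost_pm j hj hfrac nv hnv ?_ ?_⟩
  · intro x hx
    rw [hnvj, degNu_ne d hx]
    exact one_le_zpow₀ one_le_two (h0 x hx)
  · refine comm_frac j hj hfrac nv hnv.toIsUltra ?_
    intro a b ha hb
    rw [hnvj, hnvj, hnvj, degNu_ne d ha, degNu_ne d hb]
    by_cases hab : a * b = b * a
    · rw [hab, sub_self, degNu_zero]
      positivity
    · rw [degNu_ne d (sub_ne_zero.mpr hab), ← zpow_add₀ two_ne_zero]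
      exact zpow_lt_zpow_right₀ one_lt_two (hc a b hab)

end Pool.Agent.H36.OX
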