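import Pool.Agent.H36.OX.Rep
import Pool.Agent.H66.NCL.Fields
import Pool.Agent.H66.NCL.Ops

/-!
# Project OX, module CommB: commutative domains

`comm_main`: a commutative domain has the strong rank condition, and all groups of automorphisms of submodules
of free modules of finite rank over it are exact: they are linear groups over the field of fractions.
-/

set_option autoImplicit false

namespace Pool.Agent.H36.OX

open Pool.Agent.H66.NCL

universe u

theorem comm_main (R : Type u) [Ring R] [IsDomain R] (h : ∀ x y : R, x * y = y * x) :
    StrongRankCondition R ∧ PM R := by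
  let _ : CommRing R := { (inferInstance : Ring R) with mul_comm := h }
  refine ⟨commRing_strongRankCondition R, ?_⟩
  intro N W _ _ f hf H _ τ hτ
  have hfrac : ∀ d : FractionRing R, ∃ s : R, s ≠ 0 ∧ ∃ a, algebraMap R (FractionRing R) s * d =
      algebraMap R (FractionRing R) a := by
    intro d
    obtain ⟨a, s, hs, rfl⟩ := IsFractionRing.div_surjective (A := R) d
    refine ⟨s, nonZeroDivisors.ne_zero hs, a, ?_⟩
    exact mul_div_cancel₀ _ (IsFractionRing.to_map_ne_zero_of_mem_nonZeroDivisors hs)
  obtain ⟨r, ρ, κ, v, β, -, h2, -, h4⟩ :=
    exists_rep (algebraMap R (FractionRing R)) (IsFractionRing.injective R (FractionRing R)) hfrac f hf τ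
  have hρ : Function.Injective ρ := by
    rw [injective_iff_map_eq_one]
    intro g hg
    apply hτ
    rw [map_one]
    refine LinearEquiv.ext fun w => hf ?_
    have hk : κ (τ g w) = κ w := by
      rw [h2, map_inv, hg, inv_one, Units.val_one, Matrix.vecMul_one]
    funext n
    apply IsFractionRing.injective R (FractionRing R)
    rw [h4, h4, hk]
    rfl
  exact CE.of_injective ρ hρ (P_field (FractionRing R) r)

end Pool.Agent.H36.OX
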