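import Pool.Agent.H36.OX.Base
import Pool.Agent.H36.OX.Refl
import Pool.Agent.H36.OX.TensorPow
import Pool.Agent.H66.NCL.PBasic

/-!
# Project OX: `P` for group rings of right-angled Coxeter groups over arbitrary rings
-/

set_option autoImplicit false

namespace Pool.Agent.H36.OX

open Pool.Agent.H66.NCL

universe u v

open CoxeterSystem in
private lemma mtCox_comm {B : Type u} (M : CoxeterMatrix B)
    (hM : ∀ i j, M i j = 0 ∨ M i j = 1 ∨ M i j = 2) (s r : B) (h : ¬ M s r = 0) :
    M.toCoxeterSystem.simple s * M.toCoxeterSystem.simple r =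
      M.toCoxeterSystem.simple r * M.toCoxeterSystem.simple s := by
  rcases hM s r with h0 | h1 | h2
  · exact absurd h0 h
  · have hsr : s = r := by
      by_contra hne
      exact M.off_diagonal s r hne h1
    rw [hsr]
  · have h3 := M.toCoxeterSystem.simple_mul_simple_pow s r
    rw [h2, pow_two] at h3
    have h4 := eq_inv_of_mul_eq_one_left h3
    rw [mul_inv_rev, CoxeterSystem.inv_simple, CoxeterSystem.inv_simple] at h4
    exact h4

private lemma mtCox_comm_word {B : Type u} (M : CoxeterMatrix B)
    (hM : ∀ i j, M i j = 0 ∨ M i j = 1 ∨ M i j = 2) (s : B) (l : List B)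
    (h : ∀ c ∈ l, ¬ M s c = 0) :
    M.toCoxeterSystem.simple s * M.toCoxeterSystem.wordProd l =
      M.toCoxeterSystem.wordProd l * M.toCoxeterSystem.simple s := by
  induction l with
  | nil => rw [CoxeterSystem.wordProd_nil, mul_one, one_mul]
  | cons c l ih =>
    rw [CoxeterSystem.wordProd_cons, ← mul_assoc, mtCox_comm M hM s c (h c List.mem_cons_self),
      mul_assoc, ih (fun c' hc' => h c' (List.mem_cons_of_mem _ hc')), mul_assoc]

private lemma mtCox_red {B : Type u} (M : CoxeterMatrix B)
    (hM : ∀ i j, M i j = 0 ∨ M i j = 1 ∨ M i j = 2) (ω : List B)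
    (h : M.toCoxeterSystem.IsReduced ω) : Red (fun i j => M i j = 0) ω := by
  intro l₁ l₂ l₃ s hω
  by_contra hc
  have hc' : ∀ c ∈ l₂, ¬ M s c = 0 := fun c hcl h0 => hc ⟨c, hcl, h0⟩
  have hcomm := mtCox_comm_word M hM s l₂ hc'
  have key : M.toCoxeterSystem.wordProd ω = M.toCoxeterSystem.wordProd (l₁ ++ (l₂ ++ l₃)) := by
    rw [hω, CoxeterSystem.wordProd_append, CoxeterSystem.wordProd_cons,
      CoxeterSystem.wordProd_append, CoxeterSystem.wordProd_cons, CoxeterSystem.wordProd_append,
      CoxeterSystem.wordProd_append]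
    congr 1
    rw [← mul_assoc, hcomm, mul_assoc, CoxeterSystem.simple_mul_simple_cancel_left]
  have hlen := M.toCoxeterSystem.length_wordProd_le (l₁ ++ (l₂ ++ l₃))
  rw [← key, h.eq, hω] at hlen
  simp only [List.length_append, List.length_cons] at hlen
  omega

/-- the coefficient map `ℤ → A` on matrices over monoid algebras -/
private noncomputable def coM (A : Type u) [Ring A] (Q : Type u) [Monoid Q] (J : Type u)
    [Fintype J] [DecidableEq J] : Matrix J J (MonoidAlgebra ℤ Q) →+* Matrix J J (MonoidAlgebra A Q) :=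
  (MonoidAlgebra.mapRingHom Q (Int.castRingHom A)).mapMatrix

private theorem coM_coeff (A : Type u) [Ring A] (Q : Type u) [Monoid Q] (J : Type u)
    [Fintype J] [DecidableEq J] (m : Matrix J J (MonoidAlgebra ℤ Q)) (a b : J) (q : Q) :
    (coM A Q J m a b).coeff q = (((m a b).coeff q : ℤ) : A) := by
  unfold coM
  rw [RingHom.mapMatrix_apply, Matrix.map_apply, MonoidAlgebra.coeff_mapRingHom]
  rfl

/-- the scalar matrices -/
private noncomputable def scM (A : Type u) [Ring A] (Q : Type u) [Monoid Q] (J : Type u)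
    [Fintype J] [DecidableEq J] : A →+* Matrix J J (MonoidAlgebra A Q) :=
  (Matrix.scalar J).comp MonoidAlgebra.singleOneRingHom

private theorem scM_mul (A : Type u) [Ring A] (Q : Type u) [Monoid Q] (J : Type u)
    [Fintype J] [DecidableEq J] (c : A) (m : Matrix J J (MonoidAlgebra A Q)) (a b : J) (q : Q) :
    ((scM A Q J c * m) a b).coeff q = c * (m a b).coeff q := by
  unfold scM
  rw [RingHom.comp_apply, Matrix.scalar_apply, Matrix.diagonal_mul]
  exact MonoidAlgebra.coeff_single_one_mul _ _ _

private theorem mul_scM (A : Type u) [Ring A] (Q : Type u) [Monoid Q] (J : Type u)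
    [Fintype J] [DecidableEq J] (c : A) (m : Matrix J J (MonoidAlgebra A Q)) (a b : J) (q : Q) :
    ((m * scM A Q J c) a b).coeff q = (m a b).coeff q * c := by
  unfold scM
  rw [RingHom.comp_apply, Matrix.scalar_apply, Matrix.mul_diagonal]
  exact MonoidAlgebra.coeff_mul_single_one _ _ _

private theorem sc_comm (A : Type u) [Ring A] (Q : Type u) [Monoid Q] (J : Type u)
    [Fintype J] [DecidableEq J] (c : A) (m : Matrix J J (MonoidAlgebra ℤ Q)) :
    Commute (scM A Q J c) (coM A Q J m) := by
  refine Matrix.ext fun a b => ?_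
  apply MonoidAlgebra.coeff_injective
  refine Finsupp.ext fun q => ?_
  rw [scM_mul, mul_scM, coM_coeff]
  exact ((((m a b).coeff q)).cast_commute c).symm

theorem P_coxR {A : Type u} [Ring A]
    (h : ∀ (T : Type u) [Finite T] (k : ℕ), P.{u, u} (MonoidAlgebra A (Fin k → FreeMonoid T)))
    (B : Type u) [Finite B] (M : CoxeterMatrix B)
    (hM : ∀ i j, M i j = 0 ∨ M i j = 1 ∨ M i j = 2) :
    P.{u, u} (MonoidAlgebra A M.Group) := by
  classical
  obtain ⟨T, I, hT, hI, hdI, ρ, hρ⟩ := exists_refl ℤ B M hM
  obtain ⟨k, ⟨e⟩⟩ := Finite.exists_equiv_fin (B × B)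
  obtain ⟨J, hJ, hdJ, ρ', hρ'⟩ := exists_tensorPow ℤ T M.Group I ρ k
  have hsymm : ∀ s r : B, M s r = 0 → M r s = 0 := fun s r h0 => by rw [M.symmetric r s, h0]
  have hirr : ∀ s : B, ¬ M s s = 0 := fun s h0 => by
    have := M.diagonal s
    omega
  let cs := M.toCoxeterSystem
  let ρA : M.Group →* Matrix J J (MonoidAlgebra A (Fin k → FreeMonoid T)) :=
    ((coM A (Fin k → FreeMonoid T) J : _ →+* _) : _ →* _).comp ρ'
  let Ψ : MonoidAlgebra A M.Group →+* Matrix J J (MonoidAlgebra A (Fin k → FreeMonoid T)) :=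
    MonoidAlgebra.liftNCRingHom (scM A (Fin k → FreeMonoid T) J) ρA
      fun c w => sc_comm A _ J c (ρ' w)
  have hinj : Function.Injective Ψ := by
    rw [injective_iff_map_eq_zero]
    intro f hf
    by_contra hne
    have hsupp : f.coeff.support.Nonempty := by
      rw [Finsupp.support_nonempty_iff]
      intro h0
      exact hne (MonoidAlgebra.coeff_eq_zero.mp h0)
    obtain ⟨w, hw, hmax⟩ := Finset.exists_max_image f.coeff.support cs.length hsupp
    obtain ⟨ω, hω, hwω⟩ := cs.exists_isReduced w
    have hred := mtCox_red M hM ω hω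
    have hL : ∀ p : B × B, ∃ L : List B, L.IsChain (fun i j => M i j = 0) ∧
        (cf ω L = 1 ∨ cf ω L = -1) ∧ ((M p.1 p.2 = 0 ∨ p.1 = p.2) →
          L.Sublist ω ∧ L.count p.1 = ω.count p.1 ∧ L.count p.2 = ω.count p.2) := by
      intro p
      by_cases hp : M p.1 p.2 = 0 ∨ p.1 = p.2
      · obtain ⟨L, h1, h2, h3, h4, h5⟩ := exists_chain (fun i j => M i j = 0) hsymm hirr ω hred
          p.1 p.2 hp
        exact ⟨L, h2, cf_eq_one ω L h5, fun _ => ⟨h1, h3, h4⟩⟩
      · refine ⟨[], List.isChain_nil, Or.inl ?_, fun hh => absurd hh hp⟩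
        cases ω <;> simp [cf]
    choose L hL1 hL2 hL3 using hL
    choose a b u hu using fun p => hρ (L p) (hL1 p)
    obtain ⟨a', b', hab⟩ := hρ' (fun i => a (e.symm i)) (fun i => b (e.symm i))
      (fun i => u (e.symm i))
    let φ : M.Group → ℤ := fun w' => (ρ' w' a' b').coeff (fun i => u (e.symm i))
    have hφ : ∀ ω' : List B, φ (cs.wordProd ω') = ∏ i, cf ω' (L (e.symm i)) := by
      intro ω'
      have := hab (cs.wordProd ω')
      refine this.trans (Finset.prod_congr rfl fun i _ => ?_)
      exact (hu (e.symm i) ω').trans (Int.cast_id)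
    have hzero : ∀ w' ∈ f.coeff.support, w' ≠ w → φ w' = 0 := by
      intro w' hw' hne'
      obtain ⟨ω', hω', hwω'⟩ := cs.exists_isReduced w'
      rw [hwω', hφ]
      by_contra hprod
      apply hne'
      have hall : ∀ p : B × B, (L p).Sublist ω' := by
        intro p
        by_contra hns
        apply hprod
        apply Finset.prod_eq_zero (Finset.mem_univ (e p))
        rw [e.symm_apply_apply, cf_eq_zero ω' (L p) hns]
      have hlen : ω'.length ≤ ω.length := by
        have h1 := hmax w' hw'
        rw [hwω', hwω] at h1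
        have h2 : cs.length (cs.wordProd ω') = ω'.length := hω'
        have h3 : cs.length (cs.wordProd ω) = ω.length := hω
        omega
      have := prod_eq (fun i j => M i j = 0) hsymm cs.simple (mtCox_comm M hM) ω ω' hlen
        (fun s r hsr => ⟨L (s, r), (hL3 (s, r) hsr).1, hall (s, r), (hL3 (s, r) hsr).2.1,
          (hL3 (s, r) hsr).2.2⟩)
      rw [hwω', hwω]
      exact this.symm
    have hone : φ w = 1 ∨ φ w = -1 := by
      rw [hwω, hφ]
      have : ∀ s : Finset (Fin k), (∏ i ∈ s, cf ω (L (e.symm i))) = 1 ∨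
          (∏ i ∈ s, cf ω (L (e.symm i))) = -1 := by
        intro s
        induction s using Finset.induction_on with
        | empty => exact Or.inl Finset.prod_empty
        | insert i s hi ih =>
          rw [Finset.prod_insert hi]
          rcases hL2 (e.symm i) with h1 | h1 <;> rcases ih with h2 | h2 <;> rw [h1, h2] <;> norm_num
      exact this _
    have hadd : ∀ g g' : Matrix J J (MonoidAlgebra A (Fin k → FreeMonoid T)),
        ((g + g') a' b').coeff (fun i => u (e.symm i)) =
          (g a' b').coeff (fun i => u (e.symm i)) + (g' a' b').coeff (fun i => u (e.symm i)) :=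
      fun g g' => by
        rw [Matrix.add_apply, MonoidAlgebra.coeff_add, Finsupp.add_apply]
    let χ : Matrix J J (MonoidAlgebra A (Fin k → FreeMonoid T)) →+ A :=
      { toFun := fun m => (m a' b').coeff (fun i => u (e.symm i))
        map_zero' := by simp
        map_add' := hadd }
    have hΨ1 : ∀ (w' : M.Group) (c : A), χ (Ψ (MonoidAlgebra.single w' c)) = c * ((φ w' : ℤ) : A) := by
      intro w' c
      have h1 : Ψ (MonoidAlgebra.single w' c) = scM A _ J c * coM A _ J (ρ' w') :=
        MonoidAlgebra.liftNCRingHom_single _ _ _ _ _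
      rw [h1]
      have h2 := scM_mul A (Fin k → FreeMonoid T) J c (coM A _ J (ρ' w')) a' b'
        (fun i => u (e.symm i))
      rw [coM_coeff] at h2
      exact h2
    have hΨ : χ (Ψ f) = f.coeff w * ((φ w : ℤ) : A) := by
      have h1 : f = ∑ g ∈ f.coeff.support, MonoidAlgebra.single g (f.coeff g) :=
        (MonoidAlgebra.sum_coeff_single f).symm
      have h2 : χ (Ψ f) = ∑ g ∈ f.coeff.support, χ (Ψ (MonoidAlgebra.single g (f.coeff g))) := by
        conv_lhs => rw [h1]
        rw [map_sum, map_sum]
      rw [h2, Finset.sum_eq_single w]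
      · exact hΨ1 w _
      · intro w' hw' hne'
        rw [hΨ1, hzero w' hw' hne', Int.cast_zero, mul_zero]
      · intro hh
        exact absurd hw hh
    rw [hf, map_zero] at hΨ
    have h0 : f.coeff w = 0 := by
      rcases hone with h1 | h1
      · rw [h1, Int.cast_one, mul_one] at hΨ
        exact hΨ.symm
      · rw [h1, Int.cast_neg, Int.cast_one, mul_neg, mul_one] at hΨ
        exact neg_eq_zero.1 hΨ.symm
    exact (Finsupp.mem_support_iff.mp hw) h0
  exact P.of_injective Ψ hinj (P.matrix (h T k) J)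

end Pool.Agent.H36.OX
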