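import Pool.Agent.H36.OX.Base

/-!
# Project OX: passing to overgroups of finite index and to submonoids, arbitrary coefficient rings

* `P_finIndexR`: `A[Γ]` acts faithfully on the free right module `A[Γ]` over `A[H]`: the coefficients act by scalar
  matrices (from the left), the group elements by the matrices `indR g`, whose entries are `0` or group elements, and
  the two actions commute.
* `P_submonoidR`: `MonoidAlgebra.mapDomainRingHom`.
* `exists_curry`: `MonoidAlgebra.curryRingEquiv`.
-/

set_option autoImplicit false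

namespace Pool.Agent.H36.OX

open Pool.Agent.H66.NCL

universe u

section
variable (A : Type u) [Ring A] {Γ : Type u} [Group Γ] (H : Subgroup Γ)

open Classical in
/-- the matrix of left translation by `g` on the free right module `A[Γ]` over `A[H]` -/
private noncomputable def indR (g : Γ) : Matrix (Γ ⧸ H) (Γ ⧸ H) (MonoidAlgebra A H) := fun i j =>
  if h : (i.out)⁻¹ * g * j.out ∈ H then MonoidAlgebra.single ⟨_, h⟩ 1 else 0

private theorem indR_one [DecidableEq (Γ ⧸ H)] : indR A H 1 = 1 := by
  ext1 i j
  unfold indR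
  have hj : ((j.out : Γ) : Γ ⧸ H) = j := QuotientGroup.out_eq' j
  by_cases hij : i = j
  · subst hij
    have h : (i.out)⁻¹ * 1 * i.out ∈ H := by simp [H.one_mem]
    rw [dif_pos h, Matrix.one_apply_eq, MonoidAlgebra.one_def]
    congr 1
    exact Subtype.ext (by simp)
  · rw [dif_neg, Matrix.one_apply_ne hij]
    rw [indMat_mem_iff, one_mul, hj]
    exact hij

private theorem indR_mul [Fintype (Γ ⧸ H)] (g g' : Γ) :
    indR A H (g * g') = indR A H g * indR A H g' := by
  classical
  ext1 i k
  rw [Matrix.mul_apply, Finset.sum_eq_single ((g' * k.out : Γ) : Γ ⧸ H)]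
  · set j : Γ ⧸ H := ((g' * k.out : Γ) : Γ ⧸ H) with hj
    have h2 : (j.out)⁻¹ * g' * k.out ∈ H := (indMat_mem_iff H g' j k).2 hj
    unfold indR
    rw [dif_pos h2]
    by_cases h1 : (i.out)⁻¹ * g * j.out ∈ H
    · have h3 : (i.out)⁻¹ * (g * g') * k.out ∈ H := by
        have := H.mul_mem h1 h2
        convert this using 1
        group
      rw [dif_pos h1, dif_pos h3, MonoidAlgebra.single_mul_single, one_mul]
      congr 1
      apply Subtype.ext
      simp only [Subgroup.coe_mul]
      group
    · rw [dif_neg h1, dif_neg, zero_mul]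
      intro h3
      apply h1
      have := H.mul_mem h3 (H.inv_mem h2)
      convert this using 1
      group
  · intro j _ hj
    have : indR A H g' j k = 0 := by
      unfold indR
      rw [dif_neg]
      rw [indMat_mem_iff]
      exact hj
    rw [this, mul_zero]
  · intro h; exact absurd (Finset.mem_univ _) h

private theorem indR_comm [Fintype (Γ ⧸ H)] [DecidableEq (Γ ⧸ H)] (a : A) (g : Γ) :
    Commute (Matrix.scalar (Γ ⧸ H) (MonoidAlgebra.single (1 : H) a)) (indR A H g) := by
  rw [Matrix.scalar_commute_iff]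
  ext1 i j
  rw [Matrix.smul_apply, Matrix.smul_apply, smul_eq_mul, MulOpposite.smul_eq_mul_unop,
    MulOpposite.unop_op]
  unfold indR
  by_cases h : (i.out)⁻¹ * g * j.out ∈ H
  · rw [dif_pos h, MonoidAlgebra.single_mul_single, MonoidAlgebra.single_mul_single, one_mul,
      mul_one, one_mul, mul_one]
  · rw [dif_neg h, mul_zero, zero_mul]

end

theorem P_finIndexR {A : Type u} [Ring A] {Γ : Type u} [Group Γ] (H : Subgroup Γ) [H.FiniteIndex]
    (h : P.{u, u} (MonoidAlgebra A H)) : P.{u, u} (MonoidAlgebra A Γ) := by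
  classical
  let _ : Fintype (Γ ⧸ H) := Fintype.ofFinite _
  let B : Γ →* Matrix (Γ ⧸ H) (Γ ⧸ H) (MonoidAlgebra A H) :=
    { toFun := indR A H
      map_one' := indR_one A H
      map_mul' := indR_mul A H }
  let s : A →+* Matrix (Γ ⧸ H) (Γ ⧸ H) (MonoidAlgebra A H) :=
    (Matrix.scalar (Γ ⧸ H)).comp MonoidAlgebra.singleOneRingHom
  let Ψ : MonoidAlgebra A Γ →+* Matrix (Γ ⧸ H) (Γ ⧸ H) (MonoidAlgebra A H) :=
    MonoidAlgebra.liftNCRingHom s B fun a g => indR_comm A H a g
  refine P.of_injective Ψ ?_ (P.matrix h (Γ ⧸ H))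
  rw [injective_iff_map_eq_zero]
  intro f hf
  apply MonoidAlgebra.ext
  ext1 g
  set j : Γ ⧸ H := ((1 : Γ) : Γ ⧸ H)
  set i : Γ ⧸ H := ((g * j.out : Γ) : Γ ⧸ H) with hi
  have hmem : (i.out)⁻¹ * g * j.out ∈ H := (indMat_mem_iff H g i j).2 hi
  have hcoef : ∀ (a : Γ) (r : A), ((s r * B a) i j).coeff ⟨_, hmem⟩ = if a = g then r else 0 := by
    intro a r
    have h1 : (s r * B a) i j = MonoidAlgebra.single (1 : H) r * indR A H a i j := by
      show (Matrix.scalar (Γ ⧸ H) (MonoidAlgebra.single (1 : H) r) * indR A H a) i j = _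
      rw [Matrix.scalar_apply, Matrix.diagonal_mul]
    rw [h1]
    unfold indR
    by_cases ha : (i.out)⁻¹ * a * j.out ∈ H
    · rw [dif_pos ha, MonoidAlgebra.single_mul_single, one_mul, mul_one,
        MonoidAlgebra.coeff_single, Finsupp.single_apply]
      by_cases hag : a = g
      · subst hag; simp
      · rw [if_neg, if_neg hag]
        intro h3
        apply hag
        have h4 := congrArg Subtype.val h3
        simpa using h4
    · rw [dif_neg ha, mul_zero, if_neg]
      · rfl
      · rintro rfl; exact ha hmem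
  have h5 : (Ψ f i j).coeff ⟨_, hmem⟩ = f.coeff g := by
    have h6 : Ψ f = f.coeff.sum fun a r => s r * B a := rfl
    rw [h6, Finsupp.sum, Matrix.sum_apply, MonoidAlgebra.coeff_sum, Finsupp.finsetSum_apply]
    calc ∑ a ∈ f.coeff.support, ((s (f.coeff a) * B a) i j).coeff ⟨_, hmem⟩
        = ∑ a ∈ f.coeff.support, (if a = g then f.coeff a else 0) := by
          apply Finset.sum_congr rfl
          intro a _
          exact hcoef a _
      _ = f.coeff g := by
          rw [Finset.sum_ite_eq']
          split_ifs with h6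
          · rfl
          · exact (Finsupp.notMem_support_iff.mp h6).symm
  rw [← h5, hf]
  rfl

theorem P_submonoidR {A : Type u} [Ring A] {S Γ : Type u} [Monoid S] [Monoid Γ] (ι : S →* Γ)
    (hι : Function.Injective ι) (h : P.{u, u} (MonoidAlgebra A Γ)) :
    P.{u, u} (MonoidAlgebra A S) := by
  refine P.of_injective (MonoidAlgebra.mapDomainRingHom A ι) ?_ h
  intro f g hfg
  exact MonoidAlgebra.mapDomain_injective hι hfg

theorem exists_curry (A : Type u) [Ring A] (G N : Type u) [Monoid G] [Monoid N] :
    (∃ c : MonoidAlgebra A (G × N) →+* MonoidAlgebra (MonoidAlgebra A N) G,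
      Function.Injective c) ∧
    ∃ c : MonoidAlgebra (MonoidAlgebra A N) G →+* MonoidAlgebra A (N × G),
      Function.Injective c := by
  refine ⟨⟨(MonoidAlgebra.curryRingEquiv (R := A) (M := G) (N := N)).toRingHom,
    (MonoidAlgebra.curryRingEquiv (R := A) (M := G) (N := N)).injective⟩,
    ⟨(MonoidAlgebra.mapDomainRingEquiv A (MulEquiv.prodComm (M := G) (N := N))).toRingHom.comp
      (MonoidAlgebra.curryRingEquiv (R := A) (M := G) (N := N)).symm.toRingHom, ?_⟩⟩
  exact (MonoidAlgebra.mapDomainRingEquiv A (MulEquiv.prodComm (M := G) (N := N))).injective.comp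
    (MonoidAlgebra.curryRingEquiv (R := A) (M := G) (N := N)).symm.injective

end Pool.Agent.H36.OX
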