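import Pool.Agent.H36.OX.Base

/-!
# Project OX: group rings over iterated Ore extensions
-/

set_option autoImplicit false

namespace Pool.Agent.H36.OX

universe u v

theorem IsDeg.of_equiv {R S : Type u} [Ring R] [Ring S] {d : R → ℤ} (h : IsDeg d) (e : R ≃+* S) :
    IsDeg fun x => d (e.symm x) := by
  have hne : ∀ x : S, x ≠ 0 → e.symm x ≠ 0 := fun x hx h0 =>
    hx ((map_eq_zero_iff _ e.symm.injective).1 h0)
  constructor
  · intro x y hx hy
    have h1 := h.mul (e.symm x) (e.symm y) (hne x hx) (hne y hy)
    rw [← map_mul] at h1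
    exact ⟨fun h0 => h1.1 (by rw [h0, map_zero]), h1.2⟩
  · intro x y hx hy hxy
    have h1 := h.add (e.symm x) (e.symm y) (hne x hx) (hne y hy) (by
      rw [← map_add]
      exact hne _ hxy)
    rw [← map_add] at h1
    exact h1
  · obtain ⟨t, ht0, ht⟩ := h.one
    refine ⟨e t, fun h0 => ht0 ((map_eq_zero_iff _ e.injective).1 h0), ?_⟩
    show d (e.symm (e t)) = 1
    rw [e.symm_apply_apply]
    exact ht

theorem IsFree.of_equiv {A R S : Type u} [Ring A] [Ring R] [Ring S] {i : A →+* R} {d₁ d₂ : R → ℤ}
    (h : IsFree i d₁ d₂) (e : R ≃+* S) :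
    IsFree ((e : R →+* S).comp i) (fun x => d₁ (e.symm x)) (fun x => d₂ (e.symm x)) := by
  obtain ⟨m, b, hfree, hb, hm⟩ := h
  have hsum : ∀ (n : ℕ) (f : Fin (m n) → A),
      ∑ k, ((e : R →+* S).comp i) (f k) * e (b n k) = e (∑ k, i (f k) * b n k) := by
    intro n f
    rw [map_sum]
    refine Finset.sum_congr rfl fun k _ => ?_
    rw [map_mul]
    rfl
  refine ⟨m, fun n k => e (b n k), ?_, ?_, hm⟩
  · intro n f hf
    rw [hsum] at hf
    exact hfree n f ((map_eq_zero_iff _ e.injective).1 hf)
  · intro n x
    have h1 := hb n (e.symm x)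
    rw [map_eq_zero_iff _ e.symm.injective] at h1
    rw [h1]
    refine exists_congr fun f => ?_
    rw [hsum, ← e.symm_apply_eq]

theorem OreTower.of_equiv {R : Type u} [Ring R] (h : OreTower R) :
    ∀ {S : Type u} [Ring S], (R ≃+* S) → OreTower S := by
  induction h with
  | comm R hc =>
    intro S _ e
    have : IsDomain S := e.symm.injective.isDomain e.symm.toRingHom
    refine OreTower.comm S fun x y => e.symm.injective ?_
    rw [map_mul, map_mul, hc]
  | almost R d h h0 hc hO =>
    intro S _ e
    have hne : ∀ x : S, x ≠ 0 → e.symm x ≠ 0 := fun x hx h0 =>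
      hx ((map_eq_zero_iff _ e.symm.injective).1 h0)
    refine OreTower.almost S (fun x => d (e.symm x)) (h.of_equiv e) (fun x hx => h0 _ (hne x hx))
      ?_ ?_
    · intro x y hxy
      have h1 := hc (e.symm x) (e.symm y) (by
        rw [← map_mul, ← map_mul]
        exact fun h0 => hxy (e.symm.injective h0))
      rw [← map_mul, ← map_mul, ← map_sub] at h1
      exact h1
    · intro x y hy
      obtain ⟨u, v, hv, huv⟩ := hO (e.symm x) (e.symm y) (hne y hy)
      refine ⟨e u, e v, fun h0 => hv ((map_eq_zero_iff _ e.injective).1 h0), ?_⟩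
      apply e.symm.injective
      rw [map_mul, map_mul, e.symm_apply_apply, e.symm_apply_apply]
      exact huv
  | deg A R i d₁ d₂ h₁ h₂ h hA ih =>
    intro S _ e
    exact OreTower.deg A S _ _ _ (h₁.of_equiv e) (h₂.of_equiv e) (h.of_equiv e) hA
  | union R J A hdir htop hsat h ih =>
    intro S _ e
    refine OreTower.union S J (fun j => (A j).map (e : R →+* S)) ?_ ?_ ?_ ?_
    · intro j k
      obtain ⟨l, hj, hk⟩ := hdir j k
      refine ⟨l, ?_, ?_⟩
      · rintro y ⟨z, hz, rfl⟩
        exact ⟨z, hj hz, rfl⟩
      · rintro y ⟨z, hz, rfl⟩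
        exact ⟨z, hk hz, rfl⟩
    · intro x
      obtain ⟨j, hj⟩ := htop (e.symm x)
      exact ⟨j, e.symm x, hj, e.apply_symm_apply x⟩
    · rintro j s x ⟨s', hs', rfl⟩ hs ⟨w, hw, hwe⟩
      refine ⟨e.symm x, ?_, e.apply_symm_apply x⟩
      refine hsat j s' (e.symm x) hs' (fun h0 => hs (by rw [h0, map_zero])) ?_
      have h1 : w = s' * e.symm x := by
        apply e.injective
        rw [map_mul, e.apply_symm_apply]
        exact hwe
      exact h1 ▸ hw
    · intro j
      exact ih j ((A j).equivMapOfInjective (e : R →+* S) e.injective)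

theorem OreTower.of_range {R S : Type u} [Ring R] [Ring S] (h : OreTower R) (f : R →+* S)
    (hf : Function.Injective f) : OreTower f.range :=
  h.of_equiv (RingEquiv.ofBijective f.rangeRestrict
    ⟨fun _ _ hab => hf (congrArg Subtype.val hab), f.rangeRestrict_surjective⟩)

theorem mem_range_mapDomain {N : Type u} [Group N] (A : Type u) [Ring A] (K : Subgroup N)
    (x : MonoidAlgebra A N) :
    x ∈ (MonoidAlgebra.mapDomainRingHom A K.subtype).range ↔ ∀ n, x.coeff n ≠ 0 → n ∈ K := by
  constructor
  · rintro ⟨y, rfl⟩ n hn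
    by_contra hcon
    apply hn
    change (Finsupp.mapDomain K.subtype y.coeff) n = 0
    exact Finsupp.mapDomain_of_notMem_range _ _ (by simpa using hcon)
  · intro h
    refine ⟨MonoidAlgebra.comapDomain K.subtype Subtype.val_injective x, ?_⟩
    refine MonoidAlgebra.mapDomain_comapDomain (f := K.subtype) ?_ _
    intro n hn
    rw [Finset.mem_coe, Finsupp.mem_support_iff] at hn
    exact ⟨⟨n, h n hn⟩, rfl⟩

theorem comap_mul {N : Type u} [Group N] (A : Type u) [Ring A] (K : Subgroup N) (c : N)
    (hc : Function.Injective fun k : K => (k : N) * c) (s : MonoidAlgebra A K)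
    (y : MonoidAlgebra A N) :
    MonoidAlgebra.comapDomain (fun k : K => (k : N) * c) hc
        (MonoidAlgebra.mapDomainRingHom A K.subtype s * y) =
      s * MonoidAlgebra.comapDomain (fun k : K => (k : N) * c) hc y := by
  induction s using MonoidAlgebra.induction_linear with
  | zero => simp
  | add x x' hx hx' => rw [map_add, add_mul, add_mul, MonoidAlgebra.comapDomain_add, hx, hx']
  | single a r =>
    apply MonoidAlgebra.coeff_injective
    ext k
    rw [MonoidAlgebra.coeff_single_mul_apply]
    simp only [MonoidAlgebra.coeff_comapDomain, Finsupp.comapDomain_apply,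
      MonoidAlgebra.mapDomainRingHom_apply, MonoidAlgebra.mapDomain_single,
      MonoidAlgebra.coeff_single_mul_apply]
    simp [mul_assoc]

/-- saturation of subrings of group rings, subgroups -/
theorem sat_mapDomain {N : Type u} [Group N] (A : Type u) [Ring A] (K : Subgroup N)
    (hK : NoZeroDivisors (MonoidAlgebra A K)) (s x : MonoidAlgebra A N)
    (hs : s ∈ (MonoidAlgebra.mapDomainRingHom A K.subtype).range) (hs0 : s ≠ 0)
    (hsx : s * x ∈ (MonoidAlgebra.mapDomainRingHom A K.subtype).range) :
    x ∈ (MonoidAlgebra.mapDomainRingHom A K.subtype).range := by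
  obtain ⟨s', rfl⟩ := hs
  rw [mem_range_mapDomain] at hsx ⊢
  intro c hxc
  by_contra hcK
  have hc : Function.Injective fun k : K => (k : N) * c := fun k k' h =>
    Subtype.ext (mul_right_cancel h)
  have h1 := comap_mul A K c hc s' x
  have h2 : MonoidAlgebra.comapDomain (fun k : K => (k : N) * c) hc
      (MonoidAlgebra.mapDomainRingHom A K.subtype s' * x) = 0 := by
    apply MonoidAlgebra.coeff_injective
    ext k
    rw [MonoidAlgebra.coeff_comapDomain, Finsupp.comapDomain_apply]
    by_contra hne
    exact hcK ((K.mul_mem_cancel_left k.2).1 (hsx _ hne))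
  rw [h2] at h1
  rcases mul_eq_zero.1 h1.symm with h3 | h3
  · exact hs0 (by rw [h3, map_zero])
  · have h4 := congrArg (fun z => z.coeff (1 : K)) h3
    simp only [MonoidAlgebra.coeff_comapDomain, Finsupp.comapDomain_apply, Subgroup.coe_one,
      one_mul, MonoidAlgebra.coeff_zero, Finsupp.coe_zero, Pi.zero_apply] at h4
    exact hxc h4

/-- the basis property for groups -/
theorem bij_grp {N₀ N : Type u} [Group N₀] [Group N] (A : Type u) [Ring A] (i : N₀ →* N) (z : N)
    (hz : Function.Bijective fun p : N₀ × ℤ => i p.1 * z ^ p.2) :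
    Function.Bijective fun f : ℤ →₀ MonoidAlgebra A N₀ =>
      f.sum fun k a => MonoidAlgebra.mapDomainRingHom A i a * MonoidAlgebra.single (z ^ k) 1 := by
  let e : N₀ × ℤ ≃ N := Equiv.ofBijective _ hz
  let E : (ℤ →₀ MonoidAlgebra A N₀) ≃+ MonoidAlgebra A N :=
    (Finsupp.mapRange.addEquiv MonoidAlgebra.coeffAddEquiv).trans <|
      Finsupp.curryAddEquiv.symm.trans <|
        (Finsupp.domCongr ((Equiv.prodComm ℤ N₀).trans e)).trans MonoidAlgebra.coeffAddEquiv.symm
  let G : (ℤ →₀ MonoidAlgebra A N₀) →+ MonoidAlgebra A N := Finsupp.liftAddHom fun k =>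
    (AddMonoidHom.mulRight (MonoidAlgebra.single (z ^ k) 1)).comp
      (MonoidAlgebra.mapDomainRingHom A i).toAddMonoidHom
  have hEG : E.toAddMonoidHom = G := by
    refine Finsupp.addHom_ext fun k x => ?_
    induction x using MonoidAlgebra.induction_linear with
    | zero => simp
    | add x y hx hy => rw [Finsupp.single_add, map_add, map_add, hx, hy]
    | single b a =>
      have h1 : G (Finsupp.single k (MonoidAlgebra.single b a)) =
          MonoidAlgebra.single (i b * z ^ k) a := by
        simp [G, MonoidAlgebra.single_mul_single]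
      rw [h1]
      simp [E, e]
  have : Function.Bijective G := by
    rw [← hEG]
    exact E.bijective
  exact this

/-- `OreTower.solv`, with the facts that these rings have no zero divisors (`OreTower.main`) and that
skew Laurent extensions stay in the class (`OreTower.laurent`) as hypotheses -/
theorem OreTower.solv_of (hdom : ∀ (R : Type u) [Ring R], OreTower R → NoZeroDivisors R)
    (hlau : ∀ (A R : Type u) [Ring A] [Ring R] (i : A →+* R) (t : Rˣ), IsLaurent i t →
      OreTower A → OreTower R)
    {A : Type u} [Ring A] (h : OreTower A) {N : Type u} [Group N]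
    (hN : TFSolv N) : OreTower (MonoidAlgebra A N) := by
  induction hN with
  | triv N h1 =>
    have : Subsingleton N := ⟨fun x y => by rw [h1 x, h1 y]⟩
    exact h.of_equiv (MonoidAlgebra.uniqueRingEquiv N).symm
  | step N₀ N i z hσ hz hN ih =>
    have hu : ∀ k : ℤ, (((Units.map (MonoidAlgebra.of A N) (toUnits z)) ^ k :
        (MonoidAlgebra A N)ˣ) : MonoidAlgebra A N) = MonoidAlgebra.single (z ^ k) 1 := by
      intro k
      rw [← map_zpow, ← map_zpow]
      rfl
    refine hlau _ _ (MonoidAlgebra.mapDomainRingHom A i)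
      (Units.map (MonoidAlgebra.of A N) (toUnits z)) ⟨?_, ?_⟩ ih
    · obtain ⟨σ, hσ⟩ := hσ
      refine ⟨MonoidAlgebra.mapDomainRingEquiv A σ, fun a => ?_⟩
      have h0 := hu 1
      rw [zpow_one, zpow_one] at h0
      rw [h0]
      induction a using MonoidAlgebra.induction_linear with
      | zero => simp
      | add x y hx hy => rw [map_add, map_add, map_add, mul_add, add_mul, hx, hy]
      | single b a =>
        simp only [MonoidAlgebra.mapDomainRingHom_apply, MonoidAlgebra.mapDomain_single,
          MonoidAlgebra.mapDomainRingEquiv_single, MonoidAlgebra.single_mul_single, one_mul,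
          mul_one]
        rw [hσ]
    · have h1 := bij_grp A i z hz
      simp only [hu]
      exact h1
  | union N J K hdir htop hN ih =>
    refine OreTower.union _ J (fun j => (MonoidAlgebra.mapDomainRingHom A (K j).subtype).range)
      ?_ ?_ ?_ ?_
    · intro j k
      obtain ⟨l, hj, hk⟩ := hdir j k
      refine ⟨l, fun x hx => ?_, fun x hx => ?_⟩
      · rw [mem_range_mapDomain] at hx ⊢
        exact fun b hb => hj (hx b hb)
      · rw [mem_range_mapDomain] at hx ⊢
        exact fun b hb => hk (hx b hb)
    · intro x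
      classical
      choose j hj using htop
      obtain ⟨l, hl⟩ := hdir.finset_le (x.coeff.support.image fun n => j n)
      refine ⟨l, (mem_range_mapDomain A _ x).2 fun n hn => ?_⟩
      exact hl _ (Finset.mem_image_of_mem _ (Finsupp.mem_support_iff.2 hn)) (hj _)
    · intro j s x hs hs0 hsx
      exact sat_mapDomain A (K j) (hdom _ (ih j)) s x hs hs0 hsx
    · intro j
      exact (ih j).of_range _ (MonoidAlgebra.mapDomain_injective Subtype.val_injective)

end Pool.Agent.H36.OX
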