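import Pool.Agent.H36.OX.Base

/-!
# Project OX: directed unions

`A j` saturated in `R`. A submodule `W` of `R^N`, finitely many automorphisms of it: choose a maximal `R`-independent
family `b` in `W` and `j` such that all the coefficients which are involved are in `A j`. The set `Rat` of the `w` with
`s w ∈ ∑ A_j b_l` for some `s ≠ 0` in `A_j` is an `A_j`-submodule (`A_j` is a left Ore domain), it is mapped to `A_j^N`
(saturation), and the automorphisms preserve it.
-/

set_option autoImplicit false

namespace Pool.Agent.H36.OX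

open Pool.Agent.H66.NCL

universe u

section ore

variable {A : Type u} [Ring A] [IsDomain A] [StrongRankCondition A]

/-- two elements have a common left multiple -/
private theorem loc_ore (x y : A) (hy : y ≠ 0) : ∃ s a : A, s ≠ 0 ∧ s * x = a * y := by
  by_contra hcon
  push Not at hcon
  have hind : LinearIndependent A (fun i : Fin 2 => ![fun _ : Fin 1 => x, fun _ : Fin 1 => y] i) := by
    rw [LinearIndependent.pair_iff]
    intro s t hst
    have h1 : s * x + t * y = 0 := by
      have := congrFun hst 0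
      simpa using this
    have h2 : s = 0 := by
      by_contra hs
      exact hcon s (-t) hs (by rw [neg_mul]; exact eq_neg_of_add_eq_zero_left h1)
    refine ⟨h2, ?_⟩
    rw [h2, zero_mul, zero_add] at h1
    exact (mul_eq_zero.1 h1).resolve_right hy
  have := hind.fintype_card_le_finrank
  simp at this

end ore

section loc

variable {R : Type u} [Ring R] {J : Type u} [Nonempty J] {A : J → Subring R}

private theorem loc_common (hdir : Directed (· ≤ ·) A) (htop : ∀ x, ∃ j, x ∈ A j) (F : Finset R) :
    ∃ j, ∀ x ∈ F, x ∈ A j := by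
  classical
  induction F using Finset.induction_on with
  | empty => exact ⟨Classical.arbitrary J, fun x hx => absurd hx (Finset.notMem_empty x)⟩
  | insert a F ha ih =>
    obtain ⟨j, hj⟩ := ih
    obtain ⟨k, hk⟩ := htop a
    obtain ⟨l, hjl, hkl⟩ := hdir j k
    refine ⟨l, fun x hx => ?_⟩
    rcases Finset.mem_insert.1 hx with rfl | hx
    · exact hkl hk
    · exact hjl (hj x hx)

private theorem loc_domain (hdir : Directed (· ≤ ·) A) (htop : ∀ x, ∃ j, x ∈ A j)
    (h : ∀ j, IsDomain (A j)) : IsDomain R := by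
  classical
  have hnt : Nontrivial R := by
    obtain ⟨j⟩ := ‹Nonempty J›
    have := h j
    obtain ⟨x, y, hxy⟩ := exists_pair_ne (A j)
    exact ⟨x, y, fun hh => hxy (Subtype.ext hh)⟩
  have hnz : NoZeroDivisors R := by
    constructor
    intro a b hab
    obtain ⟨j, hj⟩ := loc_common hdir htop {a, b}
    have ha : a ∈ A j := hj a (by simp)
    have hb : b ∈ A j := hj b (by simp)
    have := h j
    have h1 : (⟨a, ha⟩ : A j) * ⟨b, hb⟩ = 0 := Subtype.ext hab
    rcases mul_eq_zero.1 h1 with h2 | h2
    · exact Or.inl (congrArg Subtype.val h2)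
    · exact Or.inr (congrArg Subtype.val h2)
  exact NoZeroDivisors.to_isDomain R

private theorem loc_src (hdir : Directed (· ≤ ·) A) (htop : ∀ x, ∃ j, x ∈ A j)
    (h : ∀ j, StrongRankCondition (A j)) : StrongRankCondition R := by
  classical
  rw [strongRankCondition_iff_succ]
  intro n f hf
  obtain ⟨j, hj⟩ := loc_common hdir htop
    ((Finset.univ : Finset (Fin (n + 1) × Fin n)).image fun p => f (Pi.single p.1 1) p.2)
  have hj' : ∀ i k, f (Pi.single i 1) k ∈ A j := fun i k =>
    hj _ (Finset.mem_image.2 ⟨(i, k), Finset.mem_univ _, rfl⟩)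
  have := h j
  have h1 := (strongRankCondition_iff_succ (A j)).1 this n
    (Matrix.vecMulLinear (Matrix.of fun i k => (⟨f (Pi.single i 1) k, hj' i k⟩ : A j)))
  apply h1
  intro v w hvw
  have h2 : ∀ v : Fin (n + 1) → A j, ∀ k, f (fun i => (v i : R)) k =
      ((Matrix.vecMulLinear (Matrix.of fun i k => (⟨f (Pi.single i 1) k, hj' i k⟩ : A j)) v k :
        A j) : R) := by
    intro v k
    have h3 : (fun i => (v i : R)) = ∑ i, (v i : R) • (Pi.single i (1 : R) : Fin (n + 1) → R) := by
      funext i
      rw [Finset.sum_apply]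
      simp [Pi.single_apply]
    rw [h3, map_sum, Finset.sum_apply]
    simp [Matrix.vecMul, dotProduct]
  have h4 : f (fun i => (v i : R)) = f (fun i => (w i : R)) := by
    funext k
    rw [h2, h2, hvw]
  have h5 := hf h4
  funext i
  exact Subtype.ext (congrFun h5 i)

private theorem loc_pm [IsDomain R] [StrongRankCondition R] (hdir : Directed (· ≤ ·) A)
    (htop : ∀ x, ∃ j, x ∈ A j)
    (hsat : ∀ j s x, s ∈ A j → s ≠ 0 → s * x ∈ A j → x ∈ A j)
    (h : ∀ j, IsDomain (A j) ∧ StrongRankCondition (A j) ∧ PM (A j)) : PM R := by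
  classical
  intro N W _ _ f hf H _ τ hτ
  have hbound : ∀ r, (∃ b : Fin r → W, LinearIndependent R b) → r ≤ N := by
    rintro r ⟨b, hb⟩
    have h1 : LinearIndependent R (f ∘ b) := hb.map' f (LinearMap.ker_eq_bot.2 hf)
    have h2 := h1.fintype_card_le_finrank
    simpa using h2
  obtain ⟨r, ⟨b, hb⟩, hmax⟩ : ∃ r, (∃ b : Fin r → W, LinearIndependent R b) ∧
      ∀ r', (∃ b : Fin r' → W, LinearIndependent R b) → r' ≤ r := by
    refine ⟨Nat.findGreatest (fun r => ∃ b : Fin r → W, LinearIndependent R b) N,
      Nat.findGreatest_spec (P := fun r => ∃ b : Fin r → W, LinearIndependent R b)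
        (Nat.zero_le N) ⟨fun i => i.elim0, linearIndependent_empty_type⟩, fun r' hr' => ?_⟩
    exact Nat.le_findGreatest (P := fun r => ∃ b : Fin r → W, LinearIndependent R b)
      (hbound r' hr') hr'
  have hdep : ∀ w : W, ∃ s : R, s ≠ 0 ∧ ∃ c : Fin r → R, s • w = ∑ l, c l • b l := by
    intro w
    by_contra hcon
    push Not at hcon
    have h1 : LinearIndependent R (Fin.snoc (α := fun _ => W) b w : Fin (r + 1) → W) := by
      rw [Fintype.linearIndependent_iff]
      intro g hg
      rw [Fin.sum_univ_castSucc] at hg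
      simp only [Fin.snoc_castSucc, Fin.snoc_last] at hg
      have h2 : g (Fin.last r) = 0 := by
        by_contra hs
        apply hcon _ hs (fun l => - g l.castSucc)
        simp only [neg_smul, Finset.sum_neg_distrib]
        exact eq_neg_of_add_eq_zero_right hg
      rw [h2, zero_smul, add_zero] at hg
      have h3 := Fintype.linearIndependent_iff.1 hb _ hg
      intro i
      refine Fin.lastCases h2 (fun i => h3 i) i
    have := hmax (r + 1) ⟨_, h1⟩
    omega
  choose s hs c hc using hdep
  apply CE.of_finset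
  intro S
  obtain ⟨T, hT⟩ : ∃ T : Finset H, T = S ∪ S.image (fun x => x⁻¹) := ⟨_, rfl⟩
  obtain ⟨j, hj⟩ := loc_common hdir htop
    (((T ×ˢ (Finset.univ : Finset (Fin r))).image fun p => s (τ p.1 (b p.2))) ∪
      (((T ×ˢ (Finset.univ : Finset (Fin r × Fin r))).image fun p => c (τ p.1 (b p.2.1)) p.2.2) ∪
      ((Finset.univ : Finset (Fin r × Fin N)).image fun p => f (b p.1) p.2)))
  have hj1 : ∀ h ∈ T, ∀ k, s (τ h (b k)) ∈ A j := fun h hh k => hj _ (Finset.mem_union_left _
    (Finset.mem_image.2 ⟨(h, k), Finset.mem_product.2 ⟨hh, Finset.mem_univ _⟩, rfl⟩))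
  have hj2 : ∀ h ∈ T, ∀ k l, c (τ h (b k)) l ∈ A j := fun h hh k l => hj _
    (Finset.mem_union_right _ (Finset.mem_union_left _
    (Finset.mem_image.2 ⟨(h, (k, l)), Finset.mem_product.2 ⟨hh, Finset.mem_univ _⟩, rfl⟩)))
  have hj3 : ∀ k n, f (b k) n ∈ A j := fun k n => hj _
    (Finset.mem_union_right _ (Finset.mem_union_right _
    (Finset.mem_image.2 ⟨(k, n), Finset.mem_univ _, rfl⟩)))
  obtain ⟨hdom, hsrc, hpm⟩ := h j
  let Rat : Submodule (A j) W :=
    { carrier := {w | ∃ s : A j, s ≠ 0 ∧ ∃ c : Fin r → A j, (s : R) • w = ∑ l, (c l : R) • b l}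
      zero_mem' := ⟨1, one_ne_zero, 0, by simp⟩
      add_mem' := by
        rintro w w' ⟨s, hs, c, hc⟩ ⟨s', hs', c', hc'⟩
        obtain ⟨u, a, hu, hua⟩ := loc_ore s s' hs'
        refine ⟨u * s, mul_ne_zero hu hs, fun l => u * c l + a * c' l, ?_⟩
        have hua' : ((u * s : A j) : R) = ((a * s' : A j) : R) := by rw [hua]
        rw [smul_add]
        have e1 : ((u * s : A j) : R) • w = ∑ l, ((u : R) * (c l : R)) • b l := by
          rw [Subring.coe_mul, mul_smul, hc, Finset.smul_sum]
          exact Finset.sum_congr rfl fun l _ => by rw [smul_smul]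
        have e2 : ((u * s : A j) : R) • w' = ∑ l, ((a : R) * (c' l : R)) • b l := by
          rw [hua', Subring.coe_mul, mul_smul, hc', Finset.smul_sum]
          exact Finset.sum_congr rfl fun l _ => by rw [smul_smul]
        rw [e1, e2, ← Finset.sum_add_distrib]
        refine Finset.sum_congr rfl fun l _ => ?_
        rw [← add_smul]
        rfl
      smul_mem' := by
        rintro a w ⟨s, hs, c, hc⟩
        obtain ⟨u, a', hu, hua⟩ := loc_ore a s hs
        refine ⟨u, hu, fun l => a' * c l, ?_⟩
        have hua' : (u : R) * (a : R) = (a' : R) * (s : R) := by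
          rw [← Subring.coe_mul, hua, Subring.coe_mul]
        have e0 : a • w = (a : R) • w := rfl
        rw [e0, smul_smul, hua', mul_smul, hc, Finset.smul_sum]
        exact Finset.sum_congr rfl fun l _ => by rw [smul_smul]; rfl }
  have hmem : ∀ w, w ∈ Rat ↔ ∃ s : A j, s ≠ 0 ∧ ∃ c : Fin r → A j,
      (s : R) • w = ∑ l, (c l : R) • b l := fun w => Iff.rfl
  have hdiv : ∀ (s : A j) w, s ≠ 0 → (s : R) • w ∈ Rat → w ∈ Rat := by
    rintro s w hs0 hw
    obtain ⟨s', hs', c, hc⟩ := (hmem _).1 hw
    refine (hmem _).2 ⟨s' * s, mul_ne_zero hs' hs0, c, ?_⟩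
    rw [Subring.coe_mul, mul_smul, hc]
  have hbR : ∀ k, b k ∈ Rat := by
    intro k
    refine (hmem _).2 ⟨1, one_ne_zero, Pi.single k 1, ?_⟩
    rw [Finset.sum_eq_single k]
    · simp
    · intro l _ hl
      simp [Pi.single_eq_of_ne hl]
    · intro hk
      exact absurd (Finset.mem_univ k) hk
  have hTb : ∀ h ∈ T, ∀ k, τ h (b k) ∈ Rat := by
    intro h hh k
    refine (hmem _).2 ⟨⟨_, hj1 h hh k⟩, ?_, fun l => ⟨_, hj2 h hh k l⟩, hc _⟩
    intro h0
    exact hs _ (congrArg Subtype.val h0)
  have hTR : ∀ h ∈ T, ∀ w ∈ Rat, τ h w ∈ Rat := by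
    intro h hh w hw
    obtain ⟨s, hs0, c, hc⟩ := (hmem _).1 hw
    apply hdiv s _ hs0
    have e1 : (s : R) • τ h w = ∑ l, (c l) • τ h (b l) := by
      rw [← map_smul, hc, map_sum]
      refine Finset.sum_congr rfl fun l _ => ?_
      rw [map_smul]
      rfl
    rw [e1]
    exact Submodule.sum_mem _ fun l _ => Submodule.smul_mem _ _ (hTb h hh l)
  obtain ⟨H', hH'⟩ : ∃ H' : Subgroup H, H' = Subgroup.closure (S : Set H) := ⟨_, rfl⟩
  have hinv : ∀ h ∈ H', (∀ w ∈ Rat, τ h w ∈ Rat) ∧ ∀ w ∈ Rat, τ h⁻¹ w ∈ Rat := by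
    intro h hh
    rw [hH'] at hh
    induction hh using Subgroup.closure_induction with
    | mem x hx =>
      have hx' : x ∈ S := hx
      refine ⟨hTR x ?_, hTR x⁻¹ ?_⟩
      · rw [hT]
        exact Finset.mem_union_left _ hx'
      · rw [hT]
        exact Finset.mem_union_right _ (Finset.mem_image.2 ⟨x, hx', rfl⟩)
    | one => simp
    | mul x y _ _ hx hy =>
      refine ⟨fun w hw => ?_, fun w hw => ?_⟩
      · rw [map_mul]
        exact hx.1 _ (hy.1 _ hw)
      · rw [mul_inv_rev, map_mul]
        exact hy.2 _ (hx.2 _ hw)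
    | inv x _ hx =>
      rw [inv_inv]
      exact ⟨hx.2, hx.1⟩
  refine ⟨H', ?_, ?_⟩
  · rw [hH']
    exact Subgroup.subset_closure
  let τ' : H' →* (Rat ≃ₗ[A j] Rat) :=
    { toFun := fun h =>
        { toFun := fun w => ⟨τ h w, (hinv h h.2).1 w w.2⟩
          map_add' := fun w w' => Subtype.ext (map_add (τ h) _ _)
          map_smul' := fun a w => Subtype.ext (map_smul (τ h) (a : R) (w : W))
          invFun := fun w => ⟨τ (h : H)⁻¹ w, (hinv h h.2).2 w w.2⟩
          left_inv := fun w => by
            apply Subtype.ext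
            show τ (h : H)⁻¹ (τ h w) = w
            rw [← LinearEquiv.mul_apply, ← map_mul, inv_mul_cancel, map_one]
            rfl
          right_inv := fun w => by
            apply Subtype.ext
            show τ (h : H) (τ (h : H)⁻¹ w) = w
            rw [← LinearEquiv.mul_apply, ← map_mul, mul_inv_cancel, map_one]
            rfl }
      map_one' := by
        apply LinearEquiv.ext
        intro w
        apply Subtype.ext
        show τ ((1 : H') : H) w = w
        rw [Subgroup.coe_one, map_one]
        rfl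
      map_mul' := by
        intro x y
        apply LinearEquiv.ext
        intro w
        apply Subtype.ext
        show τ ((x * y : H') : H) w = τ x (τ y w)
        rw [Subgroup.coe_mul, map_mul]
        rfl }
  have hτ' : Function.Injective τ' := by
    rw [injective_iff_map_eq_one]
    intro h hh
    apply Subtype.ext
    apply hτ
    rw [Subgroup.coe_one, map_one]
    apply LinearEquiv.ext
    intro w
    show τ h w = w
    have h1 : ∀ k, τ (h : H) (b k) = b k := by
      intro k
      have := congrArg (fun e : Rat ≃ₗ[A j] Rat => ((e ⟨b k, hbR k⟩ : Rat) : W)) hh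
      exact this
    have h2 : s w • (τ (h : H) w - w) = 0 := by
      rw [smul_sub, ← map_smul, hc, map_sum, sub_eq_zero]
      refine Finset.sum_congr rfl fun l _ => ?_
      rw [map_smul, h1]
    have h3 : f (τ (h : H) w - w) = 0 := by
      funext n
      have h4 := congrFun (congrArg f h2) n
      rw [map_smul, map_zero] at h4
      have h5 : s w * f (τ (h : H) w - w) n = 0 := h4
      exact (mul_eq_zero.1 h5).resolve_left (hs w)
    have h6 := hf (h3.trans (map_zero f).symm)
    exact sub_eq_zero.1 h6
  have hfR : ∀ w : Rat, ∀ n, f w n ∈ A j := by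
    intro w n
    obtain ⟨s, hs0, c, hc⟩ := (hmem _).1 w.2
    refine hsat j s _ s.2 (fun h0 => hs0 (Subtype.ext h0)) ?_
    have h1 : (s : R) * f w n = ∑ l, (c l : R) * f (b l) n := by
      have h2 := congrFun (congrArg f hc) n
      rw [map_smul, map_sum, Finset.sum_apply] at h2
      refine h2.trans ?_
      refine Finset.sum_congr rfl fun l _ => ?_
      rw [map_smul]
      rfl
    rw [h1]
    exact Subring.sum_mem _ fun l _ => Subring.mul_mem _ (c l).2 (hj3 l n)
  let f' : Rat →ₗ[A j] (Fin N → A j) :=
    { toFun := fun w n => ⟨f w n, hfR w n⟩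
      map_add' := fun w w' => by
        funext n
        apply Subtype.ext
        show f ((w : W) + (w' : W)) n = f w n + f w' n
        rw [map_add]
        rfl
      map_smul' := fun a w => by
        funext n
        apply Subtype.ext
        show f ((a : R) • (w : W)) n = (a : R) * f w n
        rw [map_smul]
        rfl }
  have hf' : Function.Injective f' := by
    intro w w' hww
    apply Subtype.ext
    apply hf
    funext n
    exact congrArg Subtype.val (congrFun hww n)
  exact hpm N Rat f' hf' H' τ' hτ'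

end loc

theorem union_main {R : Type u} [Ring R] {J : Type u} [Nonempty J] (A : J → Subring R)
    (hdir : Directed (· ≤ ·) A) (htop : ∀ x, ∃ j, x ∈ A j)
    (hsat : ∀ j s x, s ∈ A j → s ≠ 0 → s * x ∈ A j → x ∈ A j)
    (h : ∀ j, IsDomain (A j) ∧ StrongRankCondition (A j) ∧ PM (A j)) :
    IsDomain R ∧ StrongRankCondition R ∧ PM R := by
  have h1 : IsDomain R := loc_domain hdir htop fun j => (h j).1
  have h2 : StrongRankCondition R := loc_src hdir htop fun j => (h j).2.1
  exact ⟨h1, h2, loc_pm hdir htop hsat h⟩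

end Pool.Agent.H36.OX
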