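import Pool.Agent.H36.OX.Step
import Pool.Agent.H36.OX.Frac
import Pool.Agent.H36.OX.Val
import Pool.Agent.H36.OX.Alm
import Pool.Agent.H36.OX.Lau
import Pool.Agent.H36.OX.ExtG
import Pool.Agent.H36.OX.CommB
import Pool.Agent.H36.OX.Loc
import Pool.Agent.H36.OX.Grp
import Pool.Agent.H36.OX.Wr
import Pool.Agent.H36.OX.CoxR
import Pool.Agent.H36.OX.FinR

/-!
# Main theorem and assembly
-/

set_option autoImplicit false

namespace Pool.Agent.H36.OX

open Pool.Agent.H66.NCL

universe u

theorem OreTower.main {R : Type u} [Ring R] (h : OreTower R) :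
    IsDomain R ∧ StrongRankCondition R ∧ PM R := by
  induction h with
  | comm R h => exact ⟨inferInstance, comm_main R h⟩
  | almost R d h h0 hc hO => exact almost_main h h0 hc hO
  | deg A R i d₁ d₂ h₁ h₂ h hA ih =>
    obtain ⟨hd, hs, hp⟩ := ih
    obtain ⟨hd', hs', nu₁, nu₂, hnu₁, hnu₂, hpr⟩ := deg_main h₁ h₂ h hs
    obtain ⟨D, _, j, hj, hfrac⟩ := exists_frac R
    obtain ⟨nv₁, hnv₁, hnvj₁⟩ := exists_nv j hj hfrac nu₁ hnu₁
    obtain ⟨nv₂, hnv₂, hnvj₂⟩ := exists_nv j hj hfrac nu₂ hnu₂
    refine ⟨hd', hs', PM.step i j hj hfrac nv₁ nv₂ hnv₁ hnv₂ ?_ hp⟩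
    have h1 : (fun x => nv₁ (j x)) = nu₁ := funext hnvj₁
    have h2 : (fun x => nv₂ (j x)) = nu₂ := funext hnvj₂
    rw [h1, h2]
    exact hpr
  | union R J A hdir htop hsat h ih => exact union_main A hdir htop hsat ih

theorem PM.P {R : Type u} [Ring R] (h : PM R) : P.{u, u} R := by
  intro n
  let G := (Matrix (Fin n) (Fin n) R)ˣ
  let τ : G →* ((Fin n → R) ≃ₗ[R] (Fin n → R)) :=
    { toFun := fun g =>
        { toFun := fun v => Matrix.vecMul v g⁻¹.val
          map_add' := fun a b => Matrix.add_vecMul _ _ _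
          map_smul' := fun x a => Matrix.smul_vecMul _ _ _
          invFun := fun v => Matrix.vecMul v g.val
          left_inv := fun v => by
            show Matrix.vecMul (Matrix.vecMul v g⁻¹.val) g.val = v
            rw [Matrix.vecMul_vecMul, ← Units.val_mul, inv_mul_cancel, Units.val_one,
              Matrix.vecMul_one]
          right_inv := fun v => by
            show Matrix.vecMul (Matrix.vecMul v g.val) g⁻¹.val = v
            rw [Matrix.vecMul_vecMul, ← Units.val_mul, mul_inv_cancel, Units.val_one,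
              Matrix.vecMul_one] }
      map_one' := by
        ext v k
        show Matrix.vecMul _ (1 : G)⁻¹.val k = _
        rw [inv_one, Units.val_one, Matrix.vecMul_one]
        rfl
      map_mul' := fun a b => by
        refine LinearEquiv.ext fun v => ?_
        show Matrix.vecMul v (a * b)⁻¹.val = Matrix.vecMul (Matrix.vecMul v b⁻¹.val) a⁻¹.val
        rw [Matrix.vecMul_vecMul, ← Units.val_mul, mul_inv_rev] }
  refine h n (Fin n → R) LinearMap.id (fun a b hab => hab) G τ ?_
  intro a b hab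
  have h1 : a⁻¹.val = b⁻¹.val := by
    ext k l
    have h2 := congrArg (fun z : (Fin n → R) ≃ₗ[R] (Fin n → R) => z (Pi.single k 1)) hab
    have h3 : Matrix.vecMul (Pi.single k 1) a⁻¹.val = Matrix.vecMul (Pi.single k 1) b⁻¹.val := h2
    rw [Matrix.single_one_vecMul, Matrix.single_one_vecMul] at h3
    exact congrFun h3 l
  exact inv_injective (Units.ext h1)

theorem OreTower.P {R : Type u} [Ring R] (h : OreTower R) : P.{u, u} R := h.main.2.2.P

theorem OreTower.solv {A : Type u} [Ring A] (h : OreTower A) {N : Type u} [Group N]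
    (hN : TFSolv N) : OreTower (MonoidAlgebra A N) :=
  h.solv_of (fun _ _ hR => have := hR.main.1; inferInstance)
    (fun A R _ _ i t => OreTower.laurent A R i t) hN

theorem P_tower {A : Type u} [Ring A] (hA : OreTower A)
    (S Γ : Type u) [Monoid S] [Group Γ] (ι : S →* Γ)
    (hι : Function.Injective ι) (H : Subgroup Γ) [H.FiniteIndex]
    (B : Type u) [Finite B] (M : CoxeterMatrix B) (hM : ∀ i j, M i j = 0 ∨ M i j = 1 ∨ M i j = 2)
    (N : Type u) [Group N] (hN : TFSolv N)
    (φ : H →* M.Group × N) (hφ : Function.Injective φ) : P.{u, u} (MonoidAlgebra A S) := by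
  refine P_submonoidR ι hι (P_finIndexR H (P_submonoidR φ hφ ?_))
  obtain ⟨c, hc⟩ := (exists_curry A M.Group N).1
  refine P.of_injective c hc ?_
  refine P_coxR (fun T _ k => ?_) B M hM
  obtain ⟨c', hc'⟩ := (exists_curry A (Fin k → FreeMonoid T) N).2
  refine P.of_injective c' hc' ?_
  obtain ⟨N', _, hN', ψ, hψ⟩ := hN.wreath T k
  exact P_submonoidR ψ hψ (hA.solv hN').P

theorem P_final {A : Type u} [Ring A] (hA : (∀ x y : A, x * y = y * x) ∨ OreTower A)
    (S Γ : Type u) [Monoid S] [Group Γ] (ι : S →* Γ)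
    (hι : Function.Injective ι) (H : Subgroup Γ) [H.FiniteIndex]
    (B : Type u) [Finite B] (M : CoxeterMatrix B) (hM : ∀ i j, M i j = 0 ∨ M i j = 1 ∨ M i j = 2)
    (N : Type u) [Group N] (hN : SolvTF N)
    (φ : H →* M.Group × N) (hφ : Function.Injective φ) : P.{u, u} (MonoidAlgebra A S) := by
  have hN' := hN.tfSolv
  rcases hA with hA | hA
  · let inst : CommRing A := { (inferInstance : Ring A) with mul_comm := hA }
    exact @P_commRing S _ (fun K _ => P_tower (OreTower.comm K mul_comm) S Γ ι hι H B M hM N hN' φ hφ)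
      A inst
  · exact P_tower hA S Γ ι hι H B M hM N hN' φ hφ

end Pool.Agent.H36.OX
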