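import Pool.Agent.H36.OX.Base

/-!
# Project OX: property A implies the condition `CE`
-/

set_option autoImplicit false

namespace Pool.Agent.H36.OX

open Pool.Agent.H66.NCL

universe u

/-- pointwise square root -/
noncomputable def rootF {G : Type u} (f : G →₀ ℝ) : G →₀ ℝ := f.mapRange Real.sqrt Real.sqrt_zero

theorem rootF_apply {G : Type u} (f : G →₀ ℝ) (x : G) : rootF f x = Real.sqrt (f x) := by
  simp [rootF]

theorem support_rootF {G : Type u} (f : G →₀ ℝ) : (rootF f).support ⊆ f.support :=
  Finsupp.support_mapRange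

theorem min_le_root {a b : ℝ} (ha : 0 ≤ a) (hb : 0 ≤ b) :
    (a + b - |a - b|) / 2 ≤ Real.sqrt a * Real.sqrt b := by
  rw [← Real.sqrt_mul ha]
  apply Real.le_sqrt_of_sq_le
  rcases le_total a b with h | h
  · rw [abs_of_nonpos (by linarith)]
    nlinarith
  · rw [abs_of_nonneg (by linarith)]
    nlinarith

theorem CE.of_propertyA {G : Type u} [Group G] (h : PropertyA G) : CE.{u, u} G := by
  classical
  intro S ε hε
  obtain ⟨T, a, a0, a1, aT, ac⟩ := h S (2 * ε) (by positivity)
  refine ⟨G, fun g => rootF (a g), ↑((T ×ˢ T).image fun p => p.1 * p.2⁻¹), Finset.finite_toSet _,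
    ?_, ?_, ?_, ?_⟩
  · intro g x
    rw [rootF_apply]
    exact Real.sqrt_nonneg _
  · intro g
    rw [ip_eq_sum _ _ (s := (a g).support) (support_rootF _), ← a1 g]
    unfold Finsupp.sum
    refine Finset.sum_congr rfl fun x _ => ?_
    rw [rootF_apply, Real.mul_self_sqrt (a0 g x)]
  · intro g s hs
    set s0 := (a g).support ∪ (a (g * s)).support with hs0
    have e1 : ∑ x ∈ s0, a g x = 1 := by
      rw [← a1 g]
      exact (Finsupp.sum_of_support_subset (a g) Finset.subset_union_left (fun _ t => t)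
        (by intro i _; rfl)).symm
    have e2 : ∑ x ∈ s0, a (g * s) x = 1 := by
      rw [← a1 (g * s)]
      exact (Finsupp.sum_of_support_subset (a (g * s)) Finset.subset_union_right (fun _ t => t)
        (by intro i _; rfl)).symm
    have e3 : ∑ x ∈ s0, |a g x - a (g * s) x| ≤ 2 * ε := by
      refine le_of_eq_of_le ?_ (ac g s hs)
      have h1 : (a g - a (g * s)).support ⊆ s0 := Finsupp.support_sub
      rw [Finsupp.sum_of_support_subset (a g - a (g * s)) h1 (fun _ t => |t|)
        (by intro i _; exact abs_zero)]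
      exact Finset.sum_congr rfl fun x _ => by rw [Finsupp.sub_apply]
    rw [ip_eq_sum (rootF (a g)) (rootF (a (g * s))) (s := s0)
      ((support_rootF _).trans Finset.subset_union_left)]
    have e4 : ∑ x ∈ s0, (a g x + a (g * s) x - |a g x - a (g * s) x|) / 2 ≤
        ∑ x ∈ s0, rootF (a g) x * rootF (a (g * s)) x := by
      refine Finset.sum_le_sum fun x _ => ?_
      rw [rootF_apply, rootF_apply]
      exact min_le_root (a0 _ _) (a0 _ _)
    rw [← Finset.sum_div, Finset.sum_sub_distrib, Finset.sum_add_distrib, e1, e2] at e4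
    linarith
  · intro g s hs
    rw [ip_eq_sum (rootF (a g)) (rootF (a (g * s))) (s := (rootF (a g)).support) subset_rfl]
    refine Finset.sum_eq_zero fun x _ => ?_
    rw [rootF_apply, rootF_apply]
    by_cases h1 : a g x = 0
    · rw [h1, Real.sqrt_zero, zero_mul]
    by_cases h2 : a (g * s) x = 0
    · rw [h2, Real.sqrt_zero, mul_zero]
    exfalso
    apply hs
    rw [Finset.mem_coe, Finset.mem_image]
    refine ⟨(g⁻¹ * x, (g * s)⁻¹ * x), Finset.mem_product.2 ⟨aT _ _ h1, aT _ _ h2⟩, ?_⟩
    show g⁻¹ * x * ((g * s)⁻¹ * x)⁻¹ = s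
    group

end Pool.Agent.H36.OX
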