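import Pool.Agent.H36.OX.Base

/-!
# Project OX: a length function on the lattices of `D ^ r`

`ℓ M` is the number of the pairs `(i, t)`, `|t| ≤ T`, for which there is `x` in `M` with `x_l = 0` for
`l < i` and `nv (x_i) = nv ϖ ^ t`.
-/

set_option autoImplicit false

namespace Pool.Agent.H36.OX

open Pool.Agent.H66.NCL

universe u

/-- the pair `p` is a leading pair of `M` -/
private def Lead {D : Type u} [DivisionRing D] (nv : D → ℝ) (ϖ : D) {r : ℕ}
    (M : AddSubgroup (Fin r → D)) (p : Fin r × ℤ) : Prop :=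
  ∃ x ∈ M, (∀ l < p.1, x l = 0) ∧ nv (x p.1) = nv ϖ ^ p.2

private theorem le_of_lead {D : Type u} [DivisionRing D] {nv : D → ℝ} (hU : IsUltra nv) (ϖ : D)
    (h0 : 0 < nv ϖ) (h1 : nv ϖ < 1) (hd : ∀ x, x ≠ 0 → ∃ k : ℤ, nv x = nv ϖ ^ k) {r T : ℕ}
    {M M' : AddSubgroup (Fin r → D)} (hM : IsLat nv M)
    (hb : ∀ m : Fin r → D, (∀ i, nv (m i) ≤ nv ϖ ^ T) → m ∈ M) (hle : M ≤ M')
    (hC : ∀ m ∈ M', ∀ i, nv (m i) ≤ (nv ϖ)⁻¹ ^ T)
    (hL : ∀ (i : Fin r) (k : ℤ), -(T : ℤ) ≤ k → k ≤ T → Lead nv ϖ M' (i, k) →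
      Lead nv ϖ M (i, k)) : M' ≤ M := by
  have hz : nv 0 = 0 := (hU.eq_zero 0).2 rfl
  have key : ∀ n : ℕ, n ≤ r → ∀ x ∈ M', (∀ l : Fin r, (l : ℕ) < r - n → x l = 0) → x ∈ M := by
    intro n
    induction n with
    | zero =>
      intro _ x _ hx
      have h2 : x = 0 := by
        funext l
        exact hx l (by have := l.2; omega)
      rw [h2]
      exact M.zero_mem
    | succ n ih =>
      intro hn x hxM hx
      have hi : r - (n + 1) < r := by omega
      obtain ⟨i, hiv⟩ : ∃ i : Fin r, (i : ℕ) = r - (n + 1) := ⟨⟨r - (n + 1), hi⟩, rfl⟩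
      have hx' : ∀ l : Fin r, l < i → x l = 0 := fun l hl => hx l (by
        have : (l : ℕ) < i := hl
        omega)
      -- it suffices to subtract an element of `M` with the same coordinates up to `i`
      have red : ∀ y ∈ M, (∀ l : Fin r, l < i → y l = 0) → y i = x i → x ∈ M := by
        intro y hy hy0 hyi
        have h3 : x - y ∈ M := by
          refine ih (by omega) (x - y) (M'.sub_mem hxM (hle hy)) ?_
          intro l hl
          rw [Pi.sub_apply]
          rcases lt_or_eq_of_le (show (l : ℕ) ≤ i by omega) with h4 | h4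
          · rw [hx' l h4, hy0 l h4, sub_zero]
          · have h5 : l = i := Fin.ext h4
            rw [h5, hyi, sub_self]
        have h6 : x = (x - y) + y := by abel
        rw [h6]
        exact M.add_mem h3 hy
      by_cases hxi : x i = 0
      · refine red 0 M.zero_mem (fun l _ => rfl) ?_
        rw [hxi]
        rfl
      rcases le_or_gt (nv (x i)) (nv ϖ ^ T) with h2 | h2
      · refine red (Pi.single i (x i)) (hb _ ?_) ?_ ?_
        · intro l
          by_cases hl : l = i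
          · rw [hl, Pi.single_eq_same]
            exact h2
          · rw [Pi.single_eq_of_ne hl, hz]
            positivity
        · intro l hl
          exact Pi.single_eq_of_ne (ne_of_lt hl) _
        · exact Pi.single_eq_same _ _
      · obtain ⟨k, hk⟩ := hd (x i) hxi
        have hk1 : k ≤ T := by
          rw [hk, ← zpow_natCast, zpow_lt_zpow_iff_right_of_lt_one₀ h0 h1] at h2
          exact h2.le
        have hk2 : -(T : ℤ) ≤ k := by
          have h3 := hC x hxM i
          rw [hk, ← zpow_natCast, inv_zpow', zpow_le_zpow_iff_right_of_lt_one₀ h0 h1] at h3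
          exact h3
        obtain ⟨y, hy, hy0, hyi⟩ := hL i k hk2 hk1 ⟨x, hxM, hx', hk⟩
        simp only at hyi
        have hyi0 : y i ≠ 0 := by
          intro h4
          rw [h4, hz] at hyi
          exact (zpow_ne_zero k h0.ne') hyi.symm
        have hc : nv (x i * (y i)⁻¹) = 1 := by
          have h5 : nv (x i * (y i)⁻¹) * nv (y i) = nv (x i) := by
            rw [← hU.mul, mul_assoc, inv_mul_cancel₀ hyi0, mul_one]
          have h6 : nv (y i) ≠ 0 := fun h7 => hyi0 ((hU.eq_zero _).1 h7)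
          rw [hk, ← hyi] at h5
          exact mul_right_cancel₀ h6 (by rw [h5, one_mul])
        refine red ((x i * (y i)⁻¹) • y) (hM.smul _ hc.le y hy) ?_ ?_
        · intro l hl
          rw [Pi.smul_apply, hy0 l hl, smul_zero]
        · rw [Pi.smul_apply, smul_eq_mul, mul_assoc, inv_mul_cancel₀ hyi0, mul_one]
  intro x hx
  refine key r le_rfl x hx ?_
  intro l hl
  omega

open Classical in
theorem exists_len {D : Type u} [DivisionRing D] {nv : D → ℝ} (hU : IsUltra nv) (ϖ : D)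
    (h0 : 0 < nv ϖ) (h1 : nv ϖ < 1) (hd : ∀ x, x ≠ 0 → ∃ k : ℤ, nv x = nv ϖ ^ k) (r T : ℕ) :
    ∃ (ℓ : AddSubgroup (Fin r → D) → ℕ) (k : ℕ), (∀ M, ℓ M ≤ k) ∧
      ∀ M M' : AddSubgroup (Fin r → D), IsLat nv M → IsLat nv M' →
      (∀ m : Fin r → D, (∀ i, nv (m i) ≤ nv ϖ ^ T) → m ∈ M) → M < M' →
      (∀ m ∈ M', ∀ i, nv (m i) ≤ (nv ϖ)⁻¹ ^ T) → ℓ M < ℓ M' := by
  let S : Finset (Fin r × ℤ) := Finset.univ ×ˢ Finset.Icc (-(T : ℤ)) T
  refine ⟨fun M => (S.filter fun p => Lead nv ϖ M p).card, S.card,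
    fun M => Finset.card_filter_le _ _, ?_⟩
  intro M M' hM _ hb hlt hC
  have hsub : (S.filter fun p => Lead nv ϖ M p) ⊆ S.filter fun p => Lead nv ϖ M' p := by
    intro p hp
    rw [Finset.mem_filter] at hp ⊢
    obtain ⟨hpS, x, hx, hx2⟩ := hp
    exact ⟨hpS, x, hlt.le hx, hx2⟩
  refine Finset.card_lt_card (hsub.ssubset_of_ne ?_)
  intro heq
  refine (not_le_of_gt hlt) (le_of_lead hU ϖ h0 h1 hd hM hb hlt.le hC ?_)
  intro i k hk1 hk2 hLd
  have h2 : (i, k) ∈ S.filter fun p => Lead nv ϖ M' p :=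
    Finset.mem_filter.2 ⟨Finset.mem_product.2 ⟨Finset.mem_univ _, Finset.mem_Icc.2 ⟨hk1, hk2⟩⟩,
      hLd⟩
  rw [← heq] at h2
  exact (Finset.mem_filter.1 h2).2

end Pool.Agent.H36.OX
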