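import Pool.Agent.H97.BLD.Defs

/-!
# Coarse stabilizers in semilattices

`G` acts on a meet-semilattice `L`; `ℓ` is strictly monotone between `o` and `top`. If the stabilizers of
the elements of `S` are in the class `P`, then so are the sets `{g | o ≤ g x ≤ top, ℓ (g x) ≤ k}`.
-/

set_option autoImplicit false

namespace Pool.Agent.H36.OX

open Pool.Agent.H97.BLD

universe u v

theorem semi_bunion {G : Type u} [Group G] {P : Set G → Prop} (hP : Good P) (E : Finset G)
    (f : G → Set G) (h : ∀ e ∈ E, P (f e)) : P (⋃ e ∈ E, f e) := by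
  classical
  induction E using Finset.induction_on with
  | empty =>
    refine hP.mono _ _ ?_ hP.empty
    intro g hg
    simp at hg
  | insert a E ha ih =>
    have h1 := hP.union _ _ (h a (Finset.mem_insert_self a E))
      (ih fun e he => h e (Finset.mem_insert_of_mem he))
    refine hP.mono _ _ ?_ h1
    intro g hg
    simp only [Finset.mem_insert, Set.iUnion_iUnion_eq_or_left, Set.mem_union] at hg
    exact hg

theorem coarse_semi {G : Type u} [Group G] {P : Set G → Prop} (hP : Good P) {L : Type v}
    [SemilatticeInf L] [MulAction G L] (hinf : ∀ (g : G) (x y : L), g • (x ⊓ y) = g • x ⊓ g • y)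
    (o top : L) (ℓ : L → ℕ) (S : Set L) (hS : ∀ x ∈ S, ∀ y ∈ S, x ⊓ y ∈ S)
    (hSG : ∀ x ∈ S, ∀ g : G, g • x ∈ S)
    (hℓ : ∀ x ∈ S, ∀ y ∈ S, o ≤ x → x < y → y ≤ top → ℓ x < ℓ y)
    (hst : ∀ x ∈ S, P (MulAction.stabilizer G x : Set G)) (k : ℕ) :
    ∀ x ∈ S, P {g | o ≤ g • x ∧ g • x ≤ top ∧ ℓ (g • x) ≤ k} := by
  classical
  have hmono : ∀ (g : G) (x y : L), x ≤ y → g • x ≤ g • y := by
    intro g x y hxy
    have h1 := hinf g x y
    rw [inf_eq_left.mpr hxy] at h1
    exact inf_eq_left.mp h1.symm
  -- strict version with the bound `< k`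
  have key : ∀ k : ℕ, ∀ x ∈ S, P {g | o ≤ g • x ∧ g • x ≤ top ∧ ℓ (g • x) < k} := by
    intro k
    induction k with
    | zero =>
      intro x hx
      refine hP.mono _ _ ?_ hP.empty
      rintro g ⟨-, -, h⟩
      exact absurd h (Nat.not_lt_zero _)
    | succ k ih =>
      intro x hx
      refine hP.cosets (MulAction.stabilizer G x) _ (hst x hx) ?_ ?_
      · rintro y ⟨h1, h2, h3⟩ l hl
        have hl' : l • x = x := hl
        refine ⟨?_, ?_, ?_⟩
        · rw [mul_smul, hl']
          exact h1
        · rw [mul_smul, hl']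
          exact h2
        · rw [mul_smul, hl']
          exact h3
      · intro E
        refine ⟨⋃ e ∈ E, {g | o ≤ g • (x ⊓ e • x) ∧ g • (x ⊓ e • x) ≤ top ∧
          ℓ (g • (x ⊓ e • x)) < k}, semi_bunion hP E _ fun e _ => ih _ (hS _ hx _ (hSG _ hx e)), ?_⟩
        rintro y ⟨h1, h2, h3⟩ e he heL ⟨h4, h5, h6⟩
        rw [mul_smul] at h4 h5 h6
        refine Set.mem_iUnion₂.mpr ⟨e, he, ?_⟩
        have h7 : y • (x ⊓ e • x) = y • x ⊓ y • e • x := hinf _ _ _
        have h8 : o ≤ y • (x ⊓ e • x) := by
          rw [h7]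
          exact le_inf h1 h4
        have h9 : y • (x ⊓ e • x) ≤ top := by
          rw [h7]
          exact inf_le_left.trans h2
        refine ⟨h8, h9, ?_⟩
        have hm : y • (x ⊓ e • x) ∈ S := hSG _ (hS _ hx _ (hSG _ hx e)) y
        by_cases hlt : x ⊓ e • x < x
        · have h10 : y • (x ⊓ e • x) < y • x := by
            refine lt_of_le_of_ne (hmono _ _ _ hlt.le) ?_
            intro h11
            exact hlt.ne (MulAction.injective y h11)
          have h12 := hℓ _ hm _ (hSG _ hx y) h8 h10 h2
          omega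
        · -- `x ≤ e x`
          have h10 : x ⊓ e • x = x := by
            by_contra hne
            exact hlt (lt_of_le_of_ne inf_le_left hne)
          have h11 : x < e • x := by
            refine lt_of_le_of_ne (inf_eq_left.mp h10) ?_
            intro h12
            exact heL h12.symm
          have h12 : y • x < y • e • x := by
            refine lt_of_le_of_ne (hmono _ _ _ h11.le) ?_
            intro h13
            exact h11.ne (MulAction.injective y h13)
          have h13 := hℓ _ (hSG _ hx y) _ (hSG _ (hSG _ hx e) y) h1 h12 h5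
          rw [h10]
          omega
  intro x hx
  refine hP.mono _ _ ?_ (key (k + 1) x hx)
  rintro g ⟨h1, h2, h3⟩
  exact ⟨h1, h2, Nat.lt_succ_of_le h3⟩

end Pool.Agent.H36.OX
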