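import Pool.Agent.H36.OX.Base
import Pool.Agent.H36.OX.Semi
import Pool.Agent.H36.OX.LatLen
import Pool.Agent.H36.OX.CeA
import Pool.Agent.H97.BLD.Main

/-!
# Groups of matrices over a discretely valued division ring

If the stabilizers of the lattices are exact, then so is the group.
-/

set_option autoImplicit false

namespace Pool.Agent.H36.OX

open Pool.Agent.H66.NCL Pool.Agent.H97.BLD

universe u

section

variable {D : Type u} [DivisionRing D] {nv : D → ℝ}

private theorem lat_zero (h : IsUltra nv) : nv 0 = 0 := (h.eq_zero 0).mpr rfl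

private theorem lat_neg (h : IsUltra nv) (x : D) : nv (-x) = nv x := by
  have h1 : nv (-1) * nv (-1) = 1 := by
    rw [← h.mul, neg_mul_neg, one_mul]
    have h2 : nv 1 * nv 1 = nv 1 := by rw [← h.mul, one_mul]
    have h3 : nv 1 ≠ 0 := fun hh => one_ne_zero ((h.eq_zero 1).mp hh)
    exact mul_right_cancel₀ h3 (by rw [h2, one_mul])
  have h4 : nv (-1) = 1 := by
    have h5 := h.nonneg (-1)
    nlinarith
  rw [show -x = (-1) * x by rw [neg_mul, one_mul], h.mul, h4, one_mul]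

private theorem lat_sum (h : IsUltra nv) {α : Type*} (s : Finset α) (f : α → D) {C : ℝ}
    (hC : 0 ≤ C) (hf : ∀ x ∈ s, nv (f x) ≤ C) : nv (∑ x ∈ s, f x) ≤ C := by
  classical
  induction s using Finset.induction_on with
  | empty => rw [Finset.sum_empty, lat_zero h]; exact hC
  | insert a s ha ih =>
    rw [Finset.sum_insert ha]
    refine (h.add_le_max _ _).trans (max_le (hf a (Finset.mem_insert_self _ _)) ?_)
    exact ih fun x hx => hf x (Finset.mem_insert_of_mem hx)

private theorem lat_vecMul (h : IsUltra nv) {r : ℕ} (m : Fin r → D) (A : Matrix (Fin r) (Fin r) D)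
    {C K : ℝ} (hC : 0 ≤ C) (hK : 0 ≤ K) (hm : ∀ i, nv (m i) ≤ C) (hA : ∀ i j, nv (A i j) ≤ K)
    (j : Fin r) : nv (Matrix.vecMul m A j) ≤ C * K := by
  unfold Matrix.vecMul dotProduct
  refine lat_sum h _ _ (mul_nonneg hC hK) fun i _ => ?_
  rw [h.mul]
  exact mul_le_mul (hm i) (hA i j) (h.nonneg _) hC

private theorem lat_bdd (h : IsUltra nv) {r : ℕ} (A : Matrix (Fin r) (Fin r) D) :
    ∃ K : ℝ, 0 < K ∧ ∀ i j, nv (A i j) ≤ K := by
  classical
  refine ⟨1 + ∑ i, ∑ j, nv (A i j), ?_, fun i j => ?_⟩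
  · have : 0 ≤ ∑ i, ∑ j, nv (A i j) :=
      Finset.sum_nonneg fun i _ => Finset.sum_nonneg fun j _ => h.nonneg _
    linarith
  · have h1 : nv (A i j) ≤ ∑ j, nv (A i j) :=
      Finset.single_le_sum (f := fun j => nv (A i j)) (fun j _ => h.nonneg _) (Finset.mem_univ j)
    have h2 : ∑ j, nv (A i j) ≤ ∑ i, ∑ j, nv (A i j) :=
      Finset.single_le_sum (f := fun i => ∑ j, nv (A i j))
        (fun i _ => Finset.sum_nonneg fun j _ => h.nonneg _) (Finset.mem_univ i)
    linarith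

/-- the ball of radius `c` -/
def latBall (h : IsUltra nv) (r : ℕ) (c : ℝ) (hc : 0 ≤ c) : AddSubgroup (Fin r → D) where
  carrier := {m | ∀ i, nv (m i) ≤ c}
  zero_mem' := fun i => by
    show nv ((0 : Fin r → D) i) ≤ c
    rw [Pi.zero_apply, lat_zero h]
    exact hc
  add_mem' := fun {a b} ha hb i => (h.add_le_max _ _).trans (max_le (ha i) (hb i))
  neg_mem' := fun {a} ha i => by
    show nv ((-a) i) ≤ c
    rw [Pi.neg_apply, lat_neg h]
    exact ha i

private theorem latBall_isLat (h : IsUltra nv) (r : ℕ) {c : ℝ} (hc : 0 < c) :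
    IsLat nv (latBall h r c hc.le) where
  smul x hx m hm i := by
    show nv (x * m i) ≤ c
    rw [h.mul]
    have h1 := h.nonneg (m i)
    have h2 := hm i
    have h3 : nv (m i) ≤ c := h2
    nlinarith [h.nonneg x]
  bdd := ⟨c, fun m hm i => hm i⟩
  ball := ⟨c, hc, fun m hm => hm⟩

variable {r : ℕ} {H : Type u} [Group H] (ρ : H →* (Matrix (Fin r) (Fin r) D)ˣ)

/-- `h M = {m | m ρ(h) ∈ M} = M ρ(h)⁻¹` -/
def latAct (h : H) (M : AddSubgroup (Fin r → D)) : AddSubgroup (Fin r → D) :=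
  M.comap (Matrix.vecMulLinear (ρ h).val).toAddMonoidHom

private theorem latAct_mem (h : H) (M : AddSubgroup (Fin r → D)) (m : Fin r → D) :
    m ∈ latAct ρ h M ↔ Matrix.vecMul m (ρ h).val ∈ M := Iff.rfl

/-- the action on the subgroups of `D^r` -/
@[reducible] def latMulAction : MulAction H (AddSubgroup (Fin r → D)) where
  smul h M := latAct ρ h M
  one_smul M := by
    ext m
    show m ∈ latAct ρ 1 M ↔ _
    rw [latAct_mem, map_one, Units.val_one, Matrix.vecMul_one]
  mul_smul a b M := by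
    ext m
    show m ∈ latAct ρ (a * b) M ↔ m ∈ latAct ρ a (latAct ρ b M)
    rw [latAct_mem, latAct_mem, latAct_mem, map_mul, Units.val_mul, Matrix.vecMul_vecMul]

private theorem latAct_isLat (hU : IsUltra nv) (h : H) {M : AddSubgroup (Fin r → D)}
    (hM : IsLat nv M) : IsLat nv (latAct ρ h M) where
  smul x hx m hm := by
    rw [latAct_mem] at hm ⊢
    rw [Matrix.smul_vecMul]
    exact hM.smul x hx _ hm
  bdd := by
    obtain ⟨C, hC⟩ := hM.bdd
    obtain ⟨K, hK0, hK⟩ := lat_bdd hU (ρ h)⁻¹.val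
    refine ⟨|C| * K, fun m hm i => ?_⟩
    have h1 : m = Matrix.vecMul (Matrix.vecMul m (ρ h).val) (ρ h)⁻¹.val := by
      rw [Matrix.vecMul_vecMul, ← Units.val_mul, mul_inv_cancel, Units.val_one, Matrix.vecMul_one]
    rw [h1]
    exact lat_vecMul hU _ _ (abs_nonneg C) hK0.le
      (fun j => (hC _ hm j).trans (le_abs_self C)) hK i
  ball := by
    obtain ⟨c, hc0, hc⟩ := hM.ball
    obtain ⟨K, hK0, hK⟩ := lat_bdd hU (ρ h).val
    refine ⟨c / K, by positivity, fun m hm => ?_⟩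
    rw [latAct_mem]
    refine hc _ fun i => ?_
    refine (lat_vecMul hU _ _ (by positivity) hK0.le hm hK i).trans ?_
    rw [div_mul_cancel₀ _ hK0.ne']

private theorem isLat_inf {M M' : AddSubgroup (Fin r → D)} (h : IsLat nv M) (h' : IsLat nv M') :
    IsLat nv (M ⊓ M') where
  smul x hx m hm := ⟨h.smul x hx m hm.1, h'.smul x hx m hm.2⟩
  bdd := by
    obtain ⟨C, hC⟩ := h.bdd
    exact ⟨C, fun m hm i => hC m hm.1 i⟩
  ball := by
    obtain ⟨c, hc0, hc⟩ := h.ball
    obtain ⟨c', hc0', hc'⟩ := h'.ball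
    refine ⟨min c c', lt_min hc0 hc0', fun m hm => ⟨hc m fun i => (hm i).trans (min_le_left _ _),
      hc' m fun i => (hm i).trans (min_le_right _ _)⟩⟩

end

theorem ce_of_lat {D : Type u} [DivisionRing D] {nv : D → ℝ} (hD : IsDisc nv) {r : ℕ}
    {H : Type u} [Group H] (ρ : H →* (Matrix (Fin r) (Fin r) D)ˣ)
    (hst : ∀ M, IsLat nv M → CE.{u, u} (stabL ρ M)) : CE.{u, u} H := by
  classical
  have hU : IsUltra nv := hD.toIsUltra
  obtain ⟨ϖ, h0, h1, hd⟩ := hD.disc
  have hP : Good (Det (G := H) True 0) := Det.good le_rfl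
  let act : MulAction H (AddSubgroup (Fin r → D)) := latMulAction ρ
  have hstab : ∀ M : AddSubgroup (Fin r → D), MulAction.stabilizer H M = stabL ρ M := by
    intro M
    ext h
    rw [MulAction.mem_stabilizer_iff]
    constructor
    · intro h2 m
      have h3 : m ∈ latAct ρ h M ↔ m ∈ M := by
        have h4 : latAct ρ h M = M := h2
        rw [h4]
      exact h3
    · intro h2
      show latAct ρ h M = M
      ext m
      exact h2 m
  have hq1 : (1 : ℝ) < (nv ϖ)⁻¹ := (one_lt_inv₀ h0).mpr h1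
  -- coarse stabilizers
  have hcoarse : ∀ T : ℕ, Det (G := H) True 0 {h | (∀ i j, nv ((ρ h).val i j) ≤ (nv ϖ)⁻¹ ^ T) ∧
      ∀ i j, nv ((ρ h)⁻¹.val i j) ≤ (nv ϖ)⁻¹ ^ T} := by
    intro T
    obtain ⟨ℓ, k, hk, hℓ⟩ := exists_len hU ϖ h0 h1 hd r T
    have hqT : (0 : ℝ) < nv ϖ ^ T := by positivity
    have hqT' : (0 : ℝ) < (nv ϖ)⁻¹ ^ T := by positivity
    have h2 := coarse_semi hP (L := AddSubgroup (Fin r → D)) (fun g x y => rfl)
      (latBall hU r _ hqT.le) (latBall hU r _ hqT'.le) ℓ {M | IsLat nv M}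
      (fun x hx y hy => isLat_inf hx hy) (fun x hx g => latAct_isLat ρ hU g hx)
      (fun x hx y hy h3 h4 h5 => hℓ x y hx hy (fun m hm => h3 hm) h4 (fun m hm => h5 hm))
      (fun x hx => by
        rw [hstab]
        exact Det.of_propertyA (hst x hx).propertyA) k (latBall hU r 1 zero_le_one)
      (latBall_isLat hU r one_pos)
    refine hP.mono _ _ ?_ h2
    rintro h ⟨h3, h4⟩
    refine ⟨?_, ?_, hk _⟩
    · intro m hm
      show ∀ i, nv (Matrix.vecMul m (ρ h).val i) ≤ 1
      intro i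
      refine (lat_vecMul hU m _ hqT.le hqT'.le hm h3 i).trans ?_
      rw [inv_pow, mul_inv_cancel₀ hqT.ne']
    · intro m hm i
      have h5 : m = Matrix.vecMul (Matrix.vecMul m (ρ h).val) (ρ h)⁻¹.val := by
        rw [Matrix.vecMul_vecMul, ← Units.val_mul, mul_inv_cancel, Units.val_one, Matrix.vecMul_one]
      have hm' : ∀ i, nv (Matrix.vecMul m (ρ h).val i) ≤ 1 := hm
      show nv (m i) ≤ _
      rw [h5]
      refine (lat_vecMul hU _ _ zero_le_one hqT'.le hm' h4 i).trans ?_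
      rw [one_mul]
  have hdet : Detect.{u, u} H _ := Detect.comap ρ (detect_ultra_hom hU ϖ h0 h1 (RingHom.id D) r)
  refine CE.of_propertyA (Det.propertyA (hP.fiber _ ?_))
  intro E ε hε
  obtain ⟨ι, v, T, ⟨T', ⟨C, rfl⟩, rfl⟩, v0, v1, vc, vf⟩ := hdet E (ε ^ 2 / 8) (by positivity)
  obtain ⟨t, ht⟩ := pow_unbounded_of_one_lt C hq1
  refine ⟨ι, fun g => ∑ i ∈ (v g).support, Finsupp.single i (v g i ^ 2), _, hcoarse t, ?_, ?_, ?_, ?_⟩
  · intro g _ y
    rw [Finsupp.finsetSum_apply]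
    apply Finset.sum_nonneg
    intro i _
    rw [Finsupp.single_apply]; split_ifs <;> positivity
  · intro g _
    have h1 : ∀ f : ι →₀ ℝ, (f.sum fun _ t => t) =
      Finsupp.liftAddHom (fun _ : ι => AddMonoidHom.id ℝ) f := fun f => rfl
    rw [h1, map_sum, ← v1 g, ip_eq_sum _ _ subset_rfl]
    apply Finset.sum_congr rfl
    intro i _
    rw [Finsupp.liftAddHom_apply_single]
    simp [sq]
  · intro g _ s hs _
    refine le_trans (n1_sum_single_le id (v g) (v (g * s)) (v1 g) (v1 _)) ?_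
    have h2 := vc g s hs
    have h3 : √(2 - 2 * ip (v g) (v (g * s))) ≤ ε / 2 := by
      rw [show ε / 2 = √((ε / 2) ^ 2) from (Real.sqrt_sq (by positivity)).symm]
      apply Real.sqrt_le_sqrt
      nlinarith
    linarith
  · intro z
    have hne : ∀ g, (∑ i ∈ (v g).support, Finsupp.single i (v g i ^ 2)) z ≠ 0 → v g z ≠ 0 := by
      intro g hg h0
      apply hg
      rw [Finsupp.finsetSum_apply]
      refine Finset.sum_eq_zero fun i hi => ?_
      rw [Finsupp.single_apply]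
      split_ifs with h2
      · rw [h2, h0]
        norm_num
      · rfl
    by_cases hz : ∃ h : H, v h z ≠ 0
    · obtain ⟨h, hh⟩ := hz
      refine ⟨h, fun g _ hg => ?_⟩
      have hgz := hne g hg
      have hmem : h⁻¹ * g ∈ ρ ⁻¹' {g | ∀ i j, nv ((RingHom.id D) (g.val i j)) ≤ C ∧
          nv ((RingHom.id D) (g⁻¹.val i j)) ≤ C} := by
        by_contra hno
        have h2 := vf h _ hno
        rw [mul_inv_cancel_left,
          ip_eq_sum (v h) (v g) (s := (v h).support) subset_rfl,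
          Finset.sum_eq_zero_iff_of_nonneg fun i _ => mul_nonneg (v0 _ i) (v0 _ i)] at h2
        have := h2 z (Finsupp.mem_support_iff.mpr hh)
        rcases mul_eq_zero.mp this with h3 | h3
        · exact hh h3
        · exact hgz h3
      exact ⟨fun i j => ((hmem i j).1).trans ht.le, fun i j => ((hmem i j).2).trans ht.le⟩
    · push Not at hz
      exact ⟨1, fun g _ hg => absurd (hz g) (hne g hg)⟩

theorem ce_of_lat2 {D : Type u} [DivisionRing D] {nv₁ nv₂ : D → ℝ} (h₁ : IsDisc nv₁)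
    (h₂ : IsDisc nv₂) {r : ℕ} {H : Type u} [Group H] (ρ : H →* (Matrix (Fin r) (Fin r) D)ˣ)
    (hst : ∀ M₁ M₂, IsLat nv₁ M₁ → IsLat nv₂ M₂ →
      CE.{u, u} ↥(stabL ρ M₁ ⊓ stabL ρ M₂)) : CE.{u, u} H := by
  refine ce_of_lat h₁ ρ fun M₁ hM₁ => ?_
  refine ce_of_lat h₂ (ρ.comp (stabL ρ M₁).subtype) fun M₂ hM₂ => ?_
  let f : ↥(stabL (ρ.comp (stabL ρ M₁).subtype) M₂) →* ↥(stabL ρ M₁ ⊓ stabL ρ M₂) :=
    { toFun := fun h => ⟨h.1.1, h.1.2, h.2⟩
      map_one' := rfl
      map_mul' := fun _ _ => rfl }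
  refine CE.of_injective f ?_ (hst M₁ M₂ hM₁ hM₂)
  intro a b hab
  have h1 : a.1.1 = b.1.1 := congrArg (fun z => z.1) hab
  exact Subtype.ext (Subtype.ext h1)

end Pool.Agent.H36.OX
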