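import Pool.Agent.H66.NCL.Defs

/-!
# Project OX: matrix groups over iterated Ore extensions. Definitions
-/

set_option autoImplicit false

namespace Pool.Agent.H36.OX

universe u

/-- `d` is a degree function on the domain `R` (its value at `0` is not used): the degree of a product is the
sum of the degrees, the degree of a sum is at most the largest degree, and some element has degree `1`. -/
structure IsDeg {R : Type u} [Ring R] (d : R → ℤ) : Prop where
  mul : ∀ x y, x ≠ 0 → y ≠ 0 → x * y ≠ 0 ∧ d (x * y) = d x + d y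
  add : ∀ x y, x ≠ 0 → y ≠ 0 → x + y ≠ 0 → d (x + y) ≤ max (d x) (d y)
  one : ∃ t, t ≠ 0 ∧ d t = 1

/-- For every `n ≥ 0` the elements of `R` of degrees at most `n` for `d₁` and `d₂` form, together with `0`, a free
left `A`-module of finite rank `m n` (with basis `b n`), and `m n` grows subexponentially. -/
def IsFree {A R : Type u} [Ring A] [Ring R] (i : A →+* R) (d₁ d₂ : R → ℤ) : Prop :=
  ∃ (m : ℕ → ℕ) (b : ∀ n, Fin (m n) → R),
    (∀ n (f : Fin (m n) → A), ∑ k, i (f k) * b n k = 0 → f = 0) ∧
    (∀ (n : ℕ) (x : R), (x = 0 ∨ (d₁ x ≤ n ∧ d₂ x ≤ n)) ↔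
      ∃ f : Fin (m n) → A, x = ∑ k, i (f k) * b n k) ∧
    ∀ e : ℝ, 1 < e → ∃ C : ℝ, ∀ n, (m n : ℝ) ≤ C * e ^ n

/-- The smallest class of rings which contains
(comm) the commutative domains,
(almost) the almost commutative left Ore domains: there is a degree function `d ≥ 0` such that
`d (x y - y x) < d x + d y`,
and is closed under
(deg) rings `R` over a ring `A` of the class with two degree functions such that the sets
`{d₁ ≤ n, d₂ ≤ n}` are free left `A`-modules of finite rank, of subexponential growth,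
(union) directed unions of subrings `A j` such that `x` is in `A j` whenever `s` and `s x` are in `A j`,
`s ≠ 0`. -/
inductive OreTower : (R : Type u) → [Ring R] → Prop
  | comm (R : Type u) [Ring R] [IsDomain R] (h : ∀ x y : R, x * y = y * x) : OreTower R
  | almost (R : Type u) [Ring R] (d : R → ℤ) (h : IsDeg d) (h0 : ∀ x, x ≠ 0 → 0 ≤ d x)
      (hc : ∀ x y, x * y ≠ y * x → d (x * y - y * x) < d x + d y)
      (hO : ∀ x y : R, y ≠ 0 → ∃ u v, v ≠ 0 ∧ v * x = u * y) : OreTower R
  | deg (A R : Type u) [Ring A] [Ring R] (i : A →+* R) (d₁ d₂ : R → ℤ) (h₁ : IsDeg d₁)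
      (h₂ : IsDeg d₂) (h : IsFree i d₁ d₂) (hA : OreTower A) : OreTower R
  | union (R : Type u) [Ring R] (J : Type u) [Nonempty J] (A : J → Subring R)
      (hdir : Directed (· ≤ ·) A) (htop : ∀ x, ∃ j, x ∈ A j)
      (hsat : ∀ j s x, s ∈ A j → s ≠ 0 → s * x ∈ A j → x ∈ A j) (h : ∀ j, OreTower (A j)) :
      OreTower R

/-- The smallest class of groups which contains the trivial group and is closed under extensions with
torsion-free abelian quotient (`K` normal, `N / K` abelian and torsion-free) and directed unions. -/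
inductive SolvTF : (N : Type u) → [Group N] → Prop
  | triv (N : Type u) [Group N] (h : ∀ x : N, x = 1) : SolvTF N
  | ext (N : Type u) [Group N] (K : Subgroup N) (hn : K.Normal)
      (hc : ∀ x y : N, x * y * x⁻¹ * y⁻¹ ∈ K)
      (ht : ∀ (x : N) (n : ℕ), n ≠ 0 → x ^ n ∈ K → x ∈ K) (h : SolvTF K) : SolvTF N
  | union (N : Type u) [Group N] (J : Type u) [Nonempty J] (K : J → Subgroup N)
      (hdir : Directed (· ≤ ·) K) (htop : ∀ x, ∃ j, x ∈ K j) (h : ∀ j, SolvTF (K j)) : SolvTF N

end Pool.Agent.H36.OX
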