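import Pool.Agent.H36.OX.Defs

/-!
The definitions of this file are now in `Pool.Agent.H36.OX.Defs`.
-/
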