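import Pool.Agent.H36.OX.Base

/-!
# Project OX: the strong rank condition from subexponential growth

Let `φ : R^p → R^q` be injective and linear, `q < p`, `y a c` its matrix. For `f : Fin p × Fin (m n) → A` let
`x a = ∑ k, i (f (a, k)) * b n k`. The coordinates of `φ x` in the basis `b (n + d)` are an `A`-linear injective
function of `f`, so `p * m n ≤ q * m (n + d)`.
-/

set_option autoImplicit false

namespace Pool.Agent.H36.OX

universe u

/-- the element with the coordinates `f` -/
private noncomputable def gr_el {A R : Type u} [Ring A] [Ring R] (i : A →+* R) {l : ℕ}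
    (b : Fin l → R) (f : Fin l → A) : R := ∑ k, i (f k) * b k

private theorem gr_el_add {A R : Type u} [Ring A] [Ring R] (i : A →+* R) {l : ℕ}
    (b : Fin l → R) (f g : Fin l → A) : gr_el i b (fun k => f k + g k) =
      gr_el i b f + gr_el i b g := by
  unfold gr_el
  rw [← Finset.sum_add_distrib]
  exact Finset.sum_congr rfl fun k _ => by rw [map_add, add_mul]

private theorem gr_el_smul {A R : Type u} [Ring A] [Ring R] (i : A →+* R) {l : ℕ}
    (b : Fin l → R) (a : A) (f : Fin l → A) : gr_el i b (fun k => a * f k) =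
      i a * gr_el i b f := by
  unfold gr_el
  rw [Finset.mul_sum]
  exact Finset.sum_congr rfl fun k _ => by rw [map_mul, mul_assoc]

private theorem gr_el_sum {A R : Type u} [Ring A] [Ring R] (i : A →+* R) {l : ℕ}
    (b : Fin l → R) {ι : Type} (s : Finset ι) (f : ι → Fin l → A) :
    ∑ j ∈ s, gr_el i b (f j) = gr_el i b (fun k => ∑ j ∈ s, f j k) := by
  unfold gr_el
  rw [Finset.sum_comm]
  exact Finset.sum_congr rfl fun k _ => by rw [map_sum, Finset.sum_mul]

private theorem gr_el_inj {A R : Type u} [Ring A] [Ring R] (i : A →+* R) {l : ℕ}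
    (b : Fin l → R) (hfree : ∀ f : Fin l → A, ∑ k, i (f k) * b k = 0 → f = 0) {f g : Fin l → A}
    (h : gr_el i b f = gr_el i b g) : f = g := by
  have h1 : gr_el i b (fun k => f k + (-1) * g k) = 0 := by
    rw [gr_el_add i b f (fun k => (-1) * g k), gr_el_smul, h, map_neg, map_one, neg_mul, one_mul,
      add_neg_cancel]
  have h2 := hfree _ h1
  funext k
  have h3 := congrFun h2 k
  have h4 : f k + (-1) * g k = 0 := h3
  rw [neg_mul, one_mul, add_neg_eq_zero] at h4
  exact h4

theorem src_of_growth {A R : Type u} [Ring A] [Ring R] [StrongRankCondition A] (i : A →+* R)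
    (m : ℕ → ℕ) (b : ∀ n, Fin (m n) → R)
    (hfree : ∀ n (f : Fin (m n) → A), ∑ k, i (f k) * b n k = 0 → f = 0)
    (hmul : ∀ y : R, ∃ d, ∀ e, d ≤ e → ∀ n (f : Fin (m n) → A), ∃ f' : Fin (m (n + e)) → A,
      (∑ k, i (f k) * b n k) * y = ∑ k, i (f' k) * b (n + e) k)
    (hgr : ∀ d p q : ℕ, q < p → ∃ n, q * m (n + d) < p * m n) : StrongRankCondition R := by
  classical
  rw [strongRankCondition_iff_succ]
  intro q φ hφ
  choose d hd using hmul
  -- the matrix of `φ`
  let y : Fin (q + 1) → Fin q → R := fun a c => φ (Pi.single a 1) c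
  have hy : ∀ (x : Fin (q + 1) → R) (c : Fin q), φ x c = ∑ a, x a * y a c := by
    intro x c
    have h1 : x = ∑ a, x a • (Pi.single a (1 : R) : Fin (q + 1) → R) := by
      funext j
      rw [Finset.sum_apply, Finset.sum_eq_single j]
      · rw [Pi.smul_apply, Pi.single_eq_same, smul_eq_mul, mul_one]
      · intro a _ ha
        rw [Pi.smul_apply, Pi.single_eq_of_ne (Ne.symm ha), smul_zero]
      · intro h
        exact absurd (Finset.mem_univ j) h
    conv_lhs => rw [h1]
    rw [map_sum, Finset.sum_apply]
    exact Finset.sum_congr rfl fun a _ => by rw [map_smul, Pi.smul_apply, smul_eq_mul]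
  let D : ℕ := Finset.univ.sup fun a : Fin (q + 1) => Finset.univ.sup fun c : Fin q => d (y a c)
  have hD : ∀ a c, d (y a c) ≤ D := fun a c =>
    (Finset.le_sup (f := fun c : Fin q => d (y a c)) (Finset.mem_univ c)).trans
      (Finset.le_sup (f := fun a : Fin (q + 1) => Finset.univ.sup fun c : Fin q => d (y a c))
        (Finset.mem_univ a))
  obtain ⟨n, hn⟩ := hgr D (q + 1) q (Nat.lt_succ_self q)
  -- the coordinates of the image
  let X : (Fin (q + 1) × Fin (m n) → A) → Fin (q + 1) → R := fun f a =>
    gr_el i (b n) (fun k => f (a, k))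
  have hex : ∀ (f : Fin (q + 1) × Fin (m n) → A) (c : Fin q),
      ∃ g : Fin (m (n + D)) → A, φ (X f) c = gr_el i (b (n + D)) g := by
    intro f c
    have h1 : ∀ a, ∃ f' : Fin (m (n + D)) → A, X f a * y a c = gr_el i (b (n + D)) f' :=
      fun a => hd (y a c) D (hD a c) n (fun k => f (a, k))
    choose f' hf' using h1
    refine ⟨fun k => ∑ a, f' a k, ?_⟩
    rw [hy, ← gr_el_sum]
    exact Finset.sum_congr rfl fun a _ => hf' a
  choose g hg using hex
  have huniq : ∀ (c : Fin q) (f : Fin (q + 1) × Fin (m n) → A) (u : Fin (m (n + D)) → A),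
      φ (X f) c = gr_el i (b (n + D)) u → g f c = u := fun c f u h =>
    gr_el_inj i (b (n + D)) (hfree (n + D)) ((hg f c).symm.trans h)
  have hXadd : ∀ f f', X (f + f') = X f + X f' := by
    intro f f'
    funext a
    exact gr_el_add i (b n) (fun k => f (a, k)) (fun k => f' (a, k))
  have hXsmul : ∀ (s : A) f, X (s • f) = i s • X f := by
    intro s f
    funext a
    exact gr_el_smul i (b n) s (fun k => f (a, k))
  let F : (Fin (q + 1) × Fin (m n) → A) →ₗ[A] (Fin q × Fin (m (n + D)) → A) :=
    { toFun := fun f z => g f z.1 z.2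
      map_add' := by
        intro f f'
        funext z
        have h1 : g (f + f') z.1 = fun k => g f z.1 k + g f' z.1 k := by
          refine huniq z.1 (f + f') _ ?_
          rw [gr_el_add, ← hg, ← hg, hXadd, map_add, Pi.add_apply]
        show g (f + f') z.1 z.2 = g f z.1 z.2 + g f' z.1 z.2
        rw [h1]
      map_smul' := by
        intro s f
        funext z
        have h1 : g (s • f) z.1 = fun k => s * g f z.1 k := by
          refine huniq z.1 (s • f) _ ?_
          rw [gr_el_smul, ← hg, hXsmul, map_smul, Pi.smul_apply, smul_eq_mul]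
        show g (s • f) z.1 z.2 = s * g f z.1 z.2
        rw [h1] }
  have hF : Function.Injective F := by
    rw [injective_iff_map_eq_zero]
    intro f hf
    have h1 : φ (X f) = 0 := by
      funext c
      rw [hg f c]
      have h2 : g f c = fun _ => 0 := by
        funext k
        exact congrFun hf (c, k)
      rw [h2]
      unfold gr_el
      refine Finset.sum_eq_zero fun k _ => ?_
      rw [map_zero, zero_mul]
    have h2 : X f = 0 := (injective_iff_map_eq_zero φ).1 hφ _ h1
    funext z
    have h3 : (fun k => f (z.1, k)) = 0 := hfree n _ (congrFun h2 z.1)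
    exact congrFun h3 z.2
  have h1 := card_le_of_injective A F hF
  rw [Fintype.card_prod, Fintype.card_prod, Fintype.card_fin, Fintype.card_fin, Fintype.card_fin,
    Fintype.card_fin] at h1
  omega

end Pool.Agent.H36.OX
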