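import Pool.Agent.H36.OX.Lau

/-!
# Project OX: the degree of an Ore extension
-/

set_option autoImplicit false

namespace Pool.Agent.H36.OX

universe u

namespace IsOre

variable {A R : Type u} [Ring A] [Ring R] {i : A →+* R} {t : R}

/-- the sum of the terms -/
noncomputable def phi (i : A →+* R) (t : R) : (ℕ →₀ A) →+ R :=
  Finsupp.liftAddHom fun k => (AddMonoidHom.mulRight (t ^ k)).comp i.toAddMonoidHom

theorem phi_apply (f : ℕ →₀ A) : phi i t f = f.sum fun k a => i a * t ^ k := rfl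

theorem phi_single (k : ℕ) (a : A) : phi i t (Finsupp.single k a) = i a * t ^ k := by
  rw [phi_apply, Finsupp.sum_single_index]
  rw [map_zero, zero_mul]

/-- the coefficients -/
noncomputable def co (h : IsOre i t) : R ≃+ (ℕ →₀ A) :=
  (AddEquiv.ofBijective (phi i t) h.basis).symm

variable (h : IsOre i t)

include h

theorem co_term (k : ℕ) (a : A) : h.co (i a * t ^ k) = Finsupp.single k a := by
  rw [← phi_single]
  exact (AddEquiv.ofBijective (phi i t) h.basis).symm_apply_apply _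

theorem phi_co (x : R) : phi i t (h.co x) = x :=
  (AddEquiv.ofBijective (phi i t) h.basis).apply_symm_apply _

/-- the elements of degree less than `n` -/
def G (n : ℕ) : AddSubgroup R where
  carrier := {x | ∀ k, n ≤ k → h.co x k = 0}
  zero_mem' := by intro k _; rw [map_zero]; rfl
  add_mem' := by
    intro a b ha hb k hk
    rw [map_add, Finsupp.add_apply, ha k hk, hb k hk, add_zero]
  neg_mem' := by
    intro a ha k hk
    rw [map_neg, Finsupp.neg_apply, ha k hk, neg_zero]

theorem mem_G {n : ℕ} {x : R} : x ∈ h.G n ↔ ∀ k, n ≤ k → h.co x k = 0 := Iff.rfl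

theorem G_mono {m n : ℕ} (hmn : m ≤ n) {x : R} (hx : x ∈ h.G m) : x ∈ h.G n :=
  fun k hk => hx k (hmn.trans hk)

theorem co_sum {m : ℕ} (f : Fin m → A) :
    h.co (∑ k, i (f k) * t ^ (k : ℕ)) = ∑ k : Fin m, Finsupp.single (k : ℕ) (f k) := by
  rw [map_sum]
  exact Finset.sum_congr rfl fun k _ => h.co_term k (f k)

theorem co_sum_lt {m : ℕ} (f : Fin m → A) (j : Fin m) :
    h.co (∑ k, i (f k) * t ^ (k : ℕ)) j = f j := by
  rw [h.co_sum, Finsupp.finsetSum_apply, Finset.sum_eq_single j]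
  · rw [Finsupp.single_eq_same]
  · intro k _ hk
    exact Finsupp.single_eq_of_ne (fun e => hk (Fin.ext e.symm))
  · intro h0
    exact absurd (Finset.mem_univ j) h0

theorem sum_mem {m : ℕ} (f : Fin m → A) : ∑ k, i (f k) * t ^ (k : ℕ) ∈ h.G m := by
  intro j hj
  rw [h.co_sum, Finsupp.finsetSum_apply]
  refine Finset.sum_eq_zero fun k _ => Finsupp.single_eq_of_ne ?_
  have := k.2
  omega

theorem eq_sum {m : ℕ} {x : R} (hx : x ∈ h.G m) :
    x = ∑ k : Fin m, i (h.co x k) * t ^ (k : ℕ) := by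
  have h1 := h.phi_co x
  rw [phi_apply] at h1
  have h2 : (h.co x).support ⊆ Finset.range m := by
    intro k hk
    rw [Finset.mem_range]
    by_contra hn
    exact (Finsupp.mem_support_iff.1 hk) (hx k (not_lt.1 hn))
  rw [Finsupp.sum_of_support_subset _ h2 _ (by intro k _; rw [map_zero, zero_mul])] at h1
  rw [Finset.sum_range] at h1
  exact h1.symm

theorem free {m : ℕ} (f : Fin m → A) (hf : ∑ k, i (f k) * t ^ (k : ℕ) = 0) : f = 0 := by
  funext j
  rw [← h.co_sum_lt f j, hf, map_zero]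
  rfl

theorem term_mem {k n : ℕ} (hk : k < n) (a : A) : i a * t ^ k ∈ h.G n := by
  intro j hj
  rw [h.co_term]
  exact Finsupp.single_eq_of_ne (by omega)

/-- induction on the terms -/
theorem G_le {n : ℕ} (S : AddSubgroup R) (hS : ∀ k, k < n → ∀ a, i a * t ^ k ∈ S) {x : R}
    (hx : x ∈ h.G n) : x ∈ S := by
  rw [h.eq_sum hx]
  exact S.sum_mem fun k _ => hS k k.2 _

theorem i_mul {n : ℕ} (a : A) {x : R} (hx : x ∈ h.G n) : i a * x ∈ h.G n := by
  refine h.G_le ((h.G n).comap (AddMonoidHom.mulLeft (i a))) (fun k hk b => ?_) hx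
  show i a * (i b * t ^ k) ∈ h.G n
  rw [← mul_assoc, ← map_mul]
  exact h.term_mem hk _

theorem t_mul {n : ℕ} {x : R} (hx : x ∈ h.G n) : t * x ∈ h.G (n + 1) := by
  obtain ⟨σ, δ, hc⟩ := h.comm
  refine h.G_le ((h.G (n + 1)).comap (AddMonoidHom.mulLeft t)) (fun k hk b => ?_) hx
  show t * (i b * t ^ k) ∈ h.G (n + 1)
  rw [← mul_assoc, hc, add_mul, mul_assoc, ← pow_succ']
  exact (h.G (n + 1)).add_mem (h.term_mem (by omega) _) (h.term_mem (by omega) _)

/-- the coefficient of `t ^ n` is `b`, and the degree is at most `n` -/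
def T (n : ℕ) (x : R) (b : A) : Prop := x - i b * t ^ n ∈ h.G n

theorem T_iff {n : ℕ} {x : R} {b : A} : h.T n x b ↔ x ∈ h.G (n + 1) ∧ h.co x n = b := by
  constructor
  · intro hx
    have h1 : ∀ k, n ≤ k → h.co x k = Finsupp.single n b k := by
      intro k hk
      have := hx k hk
      rw [map_sub, h.co_term, Finsupp.sub_apply] at this
      exact sub_eq_zero.1 this
    refine ⟨fun k hk => ?_, ?_⟩
    · rw [h1 k (by omega)]
      exact Finsupp.single_eq_of_ne (by omega)
    · rw [h1 n le_rfl, Finsupp.single_eq_same]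
  · rintro ⟨h1, h2⟩ k hk
    rw [map_sub, h.co_term, Finsupp.sub_apply]
    rcases Nat.eq_or_lt_of_le hk with e | e
    · rw [← e, Finsupp.single_eq_same, h2, sub_self]
    · rw [h1 k e, Finsupp.single_eq_of_ne (by omega), sub_zero]

theorem T_i_mul {n : ℕ} {x : R} {b : A} (a : A) (hx : h.T n x b) : h.T n (i a * x) (a * b) := by
  unfold T at *
  have := h.i_mul a hx
  rwa [mul_sub, ← mul_assoc, ← map_mul] at this

theorem exists_mul : ∃ σ : A ≃+* A, ∀ (m n : ℕ) (x y : R) (a b : A), h.T m x a → h.T n y b →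
    h.T (m + n) (x * y) (a * (σ ^ m) b) := by
  obtain ⟨σ, δ, hc⟩ := h.comm
  refine ⟨σ, ?_⟩
  have t1 : ∀ (n : ℕ) (y : R) (b : A), h.T n y b → h.T (n + 1) (t * y) (σ b) := by
    intro n y b hy
    have h1 := h.t_mul hy
    have h2 : t * y - i (σ b) * t ^ (n + 1) = t * (y - i b * t ^ n) + i (δ b) * t ^ n := by
      rw [mul_sub, ← mul_assoc t (i b), hc, add_mul, mul_assoc, ← pow_succ']
      abel
    unfold T
    rw [h2]
    exact (h.G (n + 1)).add_mem h1 (h.term_mem (by omega) _)
  have tk : ∀ (k n : ℕ) (y : R) (b : A), h.T n y b → h.T (k + n) (t ^ k * y) ((σ ^ k) b) := by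
    intro k
    induction k with
    | zero =>
      intro n y b hy
      rw [zero_add, pow_zero, one_mul, pow_zero]
      exact hy
    | succ k ih =>
      intro n y b hy
      have h1 := t1 _ _ _ (ih n y b hy)
      rw [← mul_assoc, ← pow_succ'] at h1
      have e1 : (σ ^ (k + 1)) b = σ ((σ ^ k) b) := by
        rw [pow_succ']
        rfl
      rw [e1, show k + 1 + n = k + n + 1 by ring]
      exact h1
  intro m n x y a b hx hy
  have h1 : x * y - i (a * (σ ^ m) b) * t ^ (m + n) =
      (x - i a * t ^ m) * y +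
        (i a * (t ^ m * y) - i (a * (σ ^ m) b) * t ^ (m + n)) := by
    rw [sub_mul, mul_assoc]
    abel
  unfold T
  rw [h1]
  refine (h.G (m + n)).add_mem ?_ (h.T_i_mul a (tk m n y b hy))
  refine h.G_le ((h.G (m + n)).comap (AddMonoidHom.mulRight y)) (fun k hk c => ?_) hx
  show i c * t ^ k * y ∈ h.G (m + n)
  rw [mul_assoc]
  exact h.G_mono (by omega) ((h.T_iff.1 (h.T_i_mul c (tk k n y b hy))).1)

/-- the degree -/
noncomputable def deg (x : R) : ℕ := (h.co x).support.sup id

theorem T_deg {x : R} (hx : x ≠ 0) : h.T (h.deg x) x (h.co x (h.deg x)) ∧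
    h.co x (h.deg x) ≠ 0 := by
  constructor
  · refine h.T_iff.2 ⟨fun k hk => ?_, rfl⟩
    by_contra hne
    have : k ≤ h.deg x := Finset.le_sup (f := id) (Finsupp.mem_support_iff.2 hne)
    omega
  · have h1 : (h.co x).support.Nonempty := by
      rw [Finsupp.support_nonempty_iff]
      intro h0
      exact hx (h.co.injective (by rw [h0, map_zero]))
    obtain ⟨k, hk, e⟩ := Finset.exists_mem_eq_sup _ h1 id
    have : h.deg x = k := e
    rw [this]
    exact Finsupp.mem_support_iff.1 hk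

theorem deg_eq {n : ℕ} {x : R} {b : A} (hx : h.T n x b) (hb : b ≠ 0) : x ≠ 0 ∧ h.deg x = n := by
  obtain ⟨h1, h2⟩ := h.T_iff.1 hx
  have h3 : n ∈ (h.co x).support := by
    rw [Finsupp.mem_support_iff, h2]
    exact hb
  constructor
  · rintro rfl
    rw [map_zero] at h2
    exact hb h2.symm
  · apply le_antisymm
    · refine Finset.sup_le fun k hk => ?_
      by_contra hn
      have hn' : ¬ k ≤ n := hn
      exact (Finsupp.mem_support_iff.1 hk) (h1 k (by omega))
    · exact Finset.le_sup (f := id) h3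

theorem deg_lt {n : ℕ} {x : R} (hx : h.deg x < n) : x ∈ h.G n := by
  intro k hk
  by_contra hne
  have : k ≤ h.deg x := Finset.le_sup (f := id) (Finsupp.mem_support_iff.2 hne)
  omega

theorem deg_le {n : ℕ} {x : R} (hx : x ∈ h.G (n + 1)) : h.deg x ≤ n := by
  refine Finset.sup_le fun k hk => ?_
  by_contra hn
  have hn' : ¬ k ≤ n := hn
  exact (Finsupp.mem_support_iff.1 hk) (hx k (by omega))

theorem mul_ne [IsDomain A] {x y : R} (hx : x ≠ 0) (hy : y ≠ 0) :
    x * y ≠ 0 ∧ h.deg (x * y) = h.deg x + h.deg y := by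
  obtain ⟨σ, hσ⟩ := h.exists_mul
  obtain ⟨a1, a2⟩ := h.T_deg hx
  obtain ⟨b1, b2⟩ := h.T_deg hy
  refine h.deg_eq (hσ _ _ _ _ _ _ a1 b1) (mul_ne_zero a2 ?_)
  intro h0
  exact b2 ((σ ^ h.deg x).injective (by rw [h0, map_zero]))

theorem T_t : h.T 1 t 1 := by
  unfold T
  rw [map_one, one_mul, pow_one, sub_self]
  exact (h.G 1).zero_mem

/-- the degree is a degree function -/
theorem isDeg [IsDomain A] : IsDeg fun x => (h.deg x : ℤ) where
  mul := by
    intro x y hx hy
    obtain ⟨h1, h2⟩ := h.mul_ne hx hy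
    exact ⟨h1, by rw [h2, Nat.cast_add]⟩
  add := by
    intro x y hx hy hxy
    have h1 : ∀ z : R, z ∈ h.G (h.deg z + 1) := fun z => h.deg_lt (Nat.lt_succ_self _)
    have h2 : x + y ∈ h.G (max (h.deg x) (h.deg y) + 1) :=
      (h.G _).add_mem (h.G_mono (by have := le_max_left (h.deg x) (h.deg y); omega) (h1 x))
        (h.G_mono (by have := le_max_right (h.deg x) (h.deg y); omega) (h1 y))
    have h3 := h.deg_le h2
    exact_mod_cast h3
  one := by
    obtain ⟨h1, h2⟩ := h.deg_eq h.T_t one_ne_zero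
    exact ⟨t, h1, by rw [h2, Nat.cast_one]⟩

theorem isFree : IsFree i (fun x => (h.deg x : ℤ)) (fun x => (h.deg x : ℤ)) := by
  refine ⟨fun n => n + 1, fun n k => t ^ (k : ℕ), fun n f hf => h.free f hf, ?_, ?_⟩
  · intro n x
    constructor
    · intro hx
      have h1 : x ∈ h.G (n + 1) := by
        rcases hx with rfl | ⟨hx, -⟩
        · exact (h.G _).zero_mem
        · have hx' : (h.deg x : ℤ) ≤ n := hx
          exact h.deg_lt (by omega)
      exact ⟨fun k => h.co x k, h.eq_sum h1⟩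
    · rintro ⟨f, rfl⟩
      right
      have h1 : (h.deg (∑ k, i (f k) * t ^ (k : ℕ)) : ℤ) ≤ n := by
        exact_mod_cast h.deg_le (h.sum_mem f)
      exact ⟨h1, h1⟩
  · intro e he
    refine ⟨1 + 1 / (e - 1), fun n => ?_⟩
    have h1 := one_add_mul_le_pow (a := e - 1) (by linarith) n
    rw [add_sub_cancel] at h1
    have h2 : 0 < e - 1 := by linarith
    have h3 : (1 + 1 / (e - 1)) * (1 + n * (e - 1)) ≤ (1 + 1 / (e - 1)) * e ^ n :=
      mul_le_mul_of_nonneg_left h1 (by positivity)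
    have h4 : (1 + 1 / (e - 1)) * (1 + n * (e - 1)) =
        1 + n + n * (e - 1) + 1 / (e - 1) := by
      field_simp
      ring
    push_cast
    have h5 : 0 < 1 / (e - 1) := by positivity
    have h6 : (0 : ℝ) ≤ n * (e - 1) := by positivity
    linarith

end IsOre

/-- **Ore extensions.** -/
theorem OreTower.ore (A R : Type u) [Ring A] [Ring R] (i : A →+* R) (t : R) (h : IsOre i t)
    (hA : OreTower A) : OreTower R := by
  have := hA.isDomain
  exact .deg A R i _ _ h.isDeg h.isDeg h.isFree hA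

end Pool.Agent.H36.OX
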